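import Pool.Agent.Helper47.Freq.Long
import Pool.Agent.R509.HM.Sqf

/-!
# The density of the support in windows (helper47)
-/

set_option autoImplicit false

namespace Pool.Agent.Helper47.Freq

open Finset
open Pool.Agent.R509.HM (sqS DS sqS_nonneg sqS_le DS_pos sqS_per sqS_sum exists_W mob_le)

lemma ud_of {f : ℕ → ℝ} (κ : ℝ)
    (h : ∀ ε : ℝ, 0 < ε → ∃ H₀ : ℕ, ∀ H : ℕ, H₀ ≤ H → ∀ n : ℕ, (1 / (H : ℝ)) * ∑ h ∈ range H, |f (n + h)| ≤ κ + ε) :
    UD (ext f) κ := by
  intro ε hε
  obtain ⟨H₀, h0⟩ := h ε hε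
  refine ⟨H₀, fun H hH n => ?_⟩
  rcases le_total 0 n with hn | hn
  · obtain ⟨k, rfl⟩ := Int.eq_ofNat_of_zero_le hn
    have e : ∀ h ∈ range H, |ext f ((k : ℤ) + h)| = |f (k + h)| := by
      intro h _
      rw [show (k : ℤ) + h = ((k + h : ℕ) : ℤ) by push_cast; ring, ext_nat]
    rw [sum_congr rfl e]
    exact h0 H hH k
  · refine le_trans (mul_le_mul_of_nonneg_left ?_ (by positivity)) (h0 H hH 0)
    have e1 : ∑ h ∈ range H, |ext f (n + h)| = ∑ x ∈ (range H).image (fun h : ℕ => n + h), |ext f x| := by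
      rw [sum_image]
      intro a _ b _ hab
      have : (a : ℤ) = b := by simpa using hab
      exact_mod_cast this
    have e2 : ∑ h ∈ range H, |f (0 + h)| = ∑ x ∈ (range H).image (fun h : ℕ => (h : ℤ)), |ext f x| := by
      rw [sum_image (fun a _ b _ hab => by simpa using hab)]
      refine sum_congr rfl fun h _ => ?_
      rw [ext_nat, zero_add]
    rw [e1, e2]
    have e3 : ∑ x ∈ (range H).image (fun h : ℕ => n + h), |ext f x| =
        ∑ x ∈ ((range H).image (fun h : ℕ => n + h)).filter (fun x => 0 ≤ x), |ext f x| := by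
      symm
      apply sum_filter_of_ne
      intro x _ hx0
      by_contra hc
      apply hx0
      unfold ext
      rw [if_neg hc, abs_zero]
    rw [e3]
    apply sum_le_sum_of_subset_of_nonneg
    · intro x hx
      rw [mem_filter, mem_image] at hx
      rw [mem_image]
      obtain ⟨⟨a, ha, rfl⟩, h1⟩ := hx
      rw [mem_range] at ha
      exact ⟨(n + (a : ℤ)).toNat, by rw [mem_range]; omega, by omega⟩
    · intro x _ _
      exact abs_nonneg _

/-- the density of the squarefree numbers in windows -/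
lemma ud_mob : UD (ext (fun n => ((ArithmeticFunction.moebius n : ℤ) : ℝ))) (6 / Real.pi ^ 2) := by
  apply ud_of
  intro ε hε
  obtain ⟨w, hw⟩ := exists_W (ε / 2) (by positivity)
  set S : Finset ℕ := Nat.primesBelow w with hS
  have hSp : ∀ p ∈ S, p.Prime := fun p hp => (Nat.mem_primesBelow.1 hp).2
  set D : ℕ := DS S with hD
  have hD1 : 1 ≤ D := DS_pos S hSp
  have hD0 : (0 : ℝ) < D := by exact_mod_cast hD1
  obtain ⟨M, hM⟩ := exists_nat_ge (2 * D / ε)
  refine ⟨M + 1, fun H hH n => ?_⟩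
  have hH0 : (0 : ℝ) < H := by exact_mod_cast (by omega : 0 < H)
  have hHe : 2 * (D : ℝ) ≤ ε * H := by
    have h1 := hM.trans (by exact_mod_cast (by omega : M ≤ H) : (M : ℝ) ≤ H)
    rw [div_le_iff₀ hε] at h1
    linarith
  -- sums over periods
  have hper1 : ∀ y : ℕ, ∑ b ∈ range D, sqS S (y + b) = ∑ b ∈ range D, sqS S b := by
    intro y
    induction y with
    | zero => simp
    | succ y ih =>
      have e1 := sum_range_succ (fun b => sqS S (y + b)) D
      have e2 := sum_range_succ' (fun b => sqS S (y + b)) D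
      have e3 : sqS S (y + D) = sqS S y := sqS_per S y
      have e4 : ∑ b ∈ range D, sqS S (y + 1 + b) = ∑ b ∈ range D, sqS S (y + (b + 1)) :=
        sum_congr rfl fun b _ => by rw [add_assoc, add_comm 1 b]
      rw [e4, ← ih]
      simp only [add_zero] at e2
      rw [e3] at e1
      linarith
  have hperq : ∀ q y : ℕ, ∑ b ∈ range (q * D), sqS S (y + b) = q * ∑ b ∈ range D, sqS S b := by
    intro q
    induction q with
    | zero => intro y; simp
    | succ q ih =>
      intro y
      rw [add_mul, one_mul, sum_range_add]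
      have e5 : ∑ x ∈ range D, sqS S (y + (q * D + x)) = ∑ b ∈ range D, sqS S b := by
        rw [← hper1 (y + q * D)]
        exact sum_congr rfl fun b _ => by rw [add_assoc]
      rw [ih, e5]
      push_cast
      ring
  have hle : ∑ h ∈ range H, |((ArithmeticFunction.moebius (n + h) : ℤ) : ℝ)| ≤
      ((H : ℝ) / D + 1) * ∑ b ∈ range D, sqS S b := by
    have h1 : ∑ h ∈ range H, |((ArithmeticFunction.moebius (n + h) : ℤ) : ℝ)| ≤ ∑ h ∈ range ((H / D + 1) * D), sqS S (n + h) := by
      refine (sum_le_sum fun h _ => mob_le S hSp (n + h)).trans ?_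
      apply sum_le_sum_of_subset_of_nonneg
      · intro x hx
        rw [mem_range] at hx ⊢
        have := Nat.lt_div_mul_add hD1 (a := H)
        have e : (H / D + 1) * D = H / D * D + D := by ring
        omega
      · intro x _ _
        exact sqS_nonneg S _
    rw [hperq] at h1
    refine h1.trans (mul_le_mul_of_nonneg_right ?_ (sum_nonneg fun b _ => sqS_nonneg S b))
    push_cast
    have := Nat.cast_div_le (α := ℝ) (m := H) (n := D)
    linarith
  rw [sqS_sum S hSp] at hle
  set ρ : ℝ := ∏ p ∈ S, (1 - 1 / (p : ℝ) ^ 2) with hρ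
  have hρ1 : ρ ≤ 1 := by
    have h2 := sqS_sum S hSp
    have h3 : ∑ b ∈ range (DS S), sqS S b ≤ D := by
      refine (sum_le_sum (g := fun _ => (1 : ℝ)) fun b _ => sqS_le S b).trans ?_
      rw [sum_const, card_range, nsmul_eq_mul, mul_one]
    rw [h2] at h3
    have h4 : ρ * (D : ℝ) ≤ 1 * D := by rw [one_mul]; exact h3
    exact le_of_mul_le_mul_right h4 hD0
  rw [one_div, inv_mul_le_iff₀ hH0]
  refine hle.trans ?_
  have e6 : ((H : ℝ) / D + 1) * (ρ * (DS S : ℕ)) = ρ * H + ρ * D := by
    rw [← hD]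
    field_simp
  rw [e6]
  have h5 : ρ * D ≤ 1 * D := mul_le_mul_of_nonneg_right hρ1 hD0.le
  have h6 : ρ * H ≤ (6 / Real.pi ^ 2 + ε / 2) * H := mul_le_mul_of_nonneg_right hw hH0.le
  nlinarith

/-- bounded functions -/
lemma ud_one {f : ℕ → ℝ} (hf : ∀ n, |f n| ≤ 1) : UD (ext f) 1 := by
  intro ε hε
  refine ⟨1, fun H hH n => ?_⟩
  have := win_le_one (ext f) (ext_le hf) H hH n
  linarith

end Pool.Agent.Helper47.Freq
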