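import Pool.Agent.Helper47.Freq.Quad

/-!
# The mean of the filtered correlations (helper47)
-/

set_option autoImplicit false

namespace Pool.Agent.Helper47.Freq

open Finset
open scoped ComplexConjugate

/-- a linear combination of shifts -/
noncomputable def vv (φ : ℕ → ℂ) (J : ℕ) (F : ℤ → ℝ) (x : ℤ) : ℂ := ∑ j ∈ range J, φ j * (F (x + j) : ℂ)

/-- mean square of the correlations of `F` and `vv φ J F` on windows of length `H`, in a window of length `L` -/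
noncomputable def QQ (F : ℤ → ℝ) (φ : ℕ → ℂ) (J L H : ℕ) (n : ℤ) : ℝ :=
  (1 / (L : ℝ) ^ 2) * ∑ m ∈ range L, ∑ m' ∈ range L,
    ‖(1 / (H : ℂ)) * ∑ h ∈ range H, (F (n + m + h) : ℂ) * vv φ J F (n + m' + h)‖ ^ 2

lemma nsq {ι : Type*} (s : Finset ι) (a : ι → ℂ) (x : ι → ℝ) :
    ‖∑ i ∈ s, a i * (x i : ℂ)‖ ^ 2 = ∑ i ∈ s, ∑ i' ∈ s, (a i * conj (a i')).re * (x i * x i') := by
  have h1 : ((‖∑ i ∈ s, a i * (x i : ℂ)‖ ^ 2 : ℝ) : ℂ) = (∑ i ∈ s, a i * (x i : ℂ)) * conj (∑ i ∈ s, a i * (x i : ℂ)) := by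
    rw [Complex.mul_conj, Complex.normSq_eq_norm_sq]
  have h2 : ‖∑ i ∈ s, a i * (x i : ℂ)‖ ^ 2 = ((∑ i ∈ s, a i * (x i : ℂ)) * conj (∑ i ∈ s, a i * (x i : ℂ))).re := by
    rw [← h1, Complex.ofReal_re]
  rw [h2, map_sum, sum_mul_sum, Complex.re_sum]
  refine sum_congr rfl fun i _ => ?_
  rw [Complex.re_sum]
  refine sum_congr rfl fun i' _ => ?_
  rw [map_mul, Complex.conj_ofReal]
  have : a i * (x i : ℂ) * (conj (a i') * (x i' : ℂ)) = ((x i * x i' : ℝ) : ℂ) * (a i * conj (a i')) := by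
    push_cast
    ring
  rw [this, Complex.re_ofReal_mul]
  ring

/-- the averages over parallelograms -/
noncomputable def TT (μ : IM) (F : ℤ → ℝ) (L H j j' : ℕ) : ℝ :=
  (1 / ((L : ℝ) ^ 2 * (H : ℝ) ^ 2)) * ∑ m ∈ range L, ∑ m' ∈ range L, ∑ h ∈ range H, ∑ h' ∈ range H,
    μ.m (X4 F (m + h) (m + h') (m' + h + j) (m' + h' + j'))

lemma QQ_expand (F : ℤ → ℝ) (φ : ℕ → ℂ) (J L H : ℕ) (n : ℤ) :
    QQ F φ J L H n = ∑ j ∈ range J, ∑ j' ∈ range J, (φ j * conj (φ j')).re *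
      ((1 / ((L : ℝ) ^ 2 * (H : ℝ) ^ 2)) * ∑ m ∈ range L, ∑ m' ∈ range L, ∑ h ∈ range H, ∑ h' ∈ range H,
        X4 F (m + h) (m + h') (m' + h + j) (m' + h' + j') n) := by
  have h1 : ∀ m m' : ℕ, ‖(1 / (H : ℂ)) * ∑ h ∈ range H, (F (n + m + h) : ℂ) * vv φ J F (n + m' + h)‖ ^ 2 =
      (1 / (H : ℝ) ^ 2) * ∑ j ∈ range J, ∑ j' ∈ range J, (φ j * conj (φ j')).re *
        ∑ h ∈ range H, ∑ h' ∈ range H, X4 F (m + h) (m + h') (m' + h + j) (m' + h' + j') n := by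
    intro m m'
    have e1 : ∑ h ∈ range H, (F (n + m + h) : ℂ) * vv φ J F (n + m' + h) =
        ∑ q ∈ range H ×ˢ range J, φ q.2 * ((F (n + m + q.1) * F (n + m' + q.1 + q.2) : ℝ) : ℂ) := by
      rw [sum_product]
      refine sum_congr rfl fun h _ => ?_
      unfold vv
      rw [mul_sum]
      refine sum_congr rfl fun j _ => ?_
      push_cast
      ring
    rw [norm_mul, mul_pow, e1, nsq]
    congr 1
    · rw [norm_div, norm_one, Complex.norm_natCast, div_pow, one_pow]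
    · rw [sum_product]
      simp only [sum_product]
      rw [sum_comm]
      refine sum_congr rfl fun j _ => ?_
      rw [show (∑ j' ∈ range J, (φ j * conj (φ j')).re * ∑ h ∈ range H, ∑ h' ∈ range H,
        X4 F (m + h) (m + h') (m' + h + j) (m' + h' + j') n) = ∑ j' ∈ range J, ∑ h ∈ range H, ∑ h' ∈ range H,
          (φ j * conj (φ j')).re * X4 F (m + h) (m + h') (m' + h + j) (m' + h' + j') n from by
            refine sum_congr rfl fun j' _ => ?_
            rw [mul_sum]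
            refine sum_congr rfl fun h _ => ?_
            rw [mul_sum]]
      rw [sum_comm (s := range J)]
      refine sum_congr rfl fun h _ => ?_
      rw [sum_comm]
      refine sum_congr rfl fun j' _ => sum_congr rfl fun h' _ => ?_
      congr 1
      unfold X4
      rw [show n + (m + h : ℤ) = n + m + h by ring, show n + (m + h' : ℤ) = n + m + h' by ring,
        show n + (m' + h + j : ℤ) = n + m' + h + j by ring, show n + (m' + h' + j' : ℤ) = n + m' + h' + j' by ring]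
      ring
  unfold QQ
  simp only [h1]
  simp only [← mul_sum]
  rw [show (∑ m ∈ range L, ∑ m' ∈ range L, ∑ j ∈ range J, ∑ j' ∈ range J, (φ j * conj (φ j')).re *
        ∑ h ∈ range H, ∑ h' ∈ range H, X4 F (m + h) (m + h') (m' + h + j) (m' + h' + j') n) =
      ∑ j ∈ range J, ∑ j' ∈ range J, (φ j * conj (φ j')).re * ∑ m ∈ range L, ∑ m' ∈ range L,
        ∑ h ∈ range H, ∑ h' ∈ range H, X4 F (m + h) (m + h') (m' + h + j) (m' + h' + j') n from by
    simp only [mul_sum]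
    rw [show (∑ m ∈ range L, ∑ m' ∈ range L, ∑ j ∈ range J, ∑ j' ∈ range J, ∑ h ∈ range H, ∑ h' ∈ range H,
        (φ j * conj (φ j')).re * X4 F (m + h) (m + h') (m' + h + j) (m' + h' + j') n) =
        ∑ m ∈ range L, ∑ j ∈ range J, ∑ m' ∈ range L, ∑ j' ∈ range J, ∑ h ∈ range H, ∑ h' ∈ range H,
        (φ j * conj (φ j')).re * X4 F (m + h) (m + h') (m' + h + j) (m' + h' + j') n from
        sum_congr rfl fun m _ => sum_comm]
    rw [sum_comm]
    refine sum_congr rfl fun j _ => ?_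
    rw [show (∑ m ∈ range L, ∑ m' ∈ range L, ∑ j' ∈ range J, ∑ h ∈ range H, ∑ h' ∈ range H,
        (φ j * conj (φ j')).re * X4 F (m + h) (m + h') (m' + h + j) (m' + h' + j') n) =
        ∑ m ∈ range L, ∑ j' ∈ range J, ∑ m' ∈ range L, ∑ h ∈ range H, ∑ h' ∈ range H,
        (φ j * conj (φ j')).re * X4 F (m + h) (m + h') (m' + h + j) (m' + h' + j') n from
        sum_congr rfl fun m _ => sum_comm]
    rw [sum_comm]]
  simp only [mul_sum]
  refine sum_congr rfl fun j _ => sum_congr rfl fun j' _ => sum_congr rfl fun m _ => sum_congr rfl fun m' _ =>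
    sum_congr rfl fun h _ => sum_congr rfl fun h' _ => ?_
  rw [one_div_mul_eq_div, one_div_mul_eq_div, one_div_mul_eq_div, div_div, mul_comm ((H : ℝ) ^ 2), mul_div_assoc]

section mean

variable (μ : IM) (F : ℤ → ℝ) (hF : ∀ n, |F n| ≤ 1)
include hF

lemma inner_bd (L H j j' : ℕ) : BZ (fun n => (1 / ((L : ℝ) ^ 2 * (H : ℝ) ^ 2)) * ∑ m ∈ range L, ∑ m' ∈ range L,
    ∑ h ∈ range H, ∑ h' ∈ range H, X4 F (m + h) (m + h') (m' + h + j) (m' + h' + j') n) := by
  refine BZ.cmul _ (BZ.sum _ fun m _ => BZ.sum _ fun m' _ => BZ.sum _ fun h _ => BZ.sum _ fun h' _ => ?_)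
  exact X4_bd F hF _ _ _ _

lemma QQ_bd (φ : ℕ → ℂ) (J L H : ℕ) : BZ (QQ F φ J L H) := by
  have e : QQ F φ J L H = fun n => ∑ j ∈ range J, ∑ j' ∈ range J, (φ j * conj (φ j')).re *
      ((1 / ((L : ℝ) ^ 2 * (H : ℝ) ^ 2)) * ∑ m ∈ range L, ∑ m' ∈ range L, ∑ h ∈ range H, ∑ h' ∈ range H,
        X4 F (m + h) (m + h') (m' + h + j) (m' + h' + j') n) := by
    funext n
    exact QQ_expand F φ J L H n
  rw [e]
  exact BZ.sum _ fun j _ => BZ.sum _ fun j' _ => BZ.cmul _ (inner_bd F hF L H j j')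

lemma m_QQ (φ : ℕ → ℂ) (J L H : ℕ) : μ.m (QQ F φ J L H) =
    ∑ j ∈ range J, ∑ j' ∈ range J, (φ j * conj (φ j')).re * TT μ F L H j j' := by
  have e : QQ F φ J L H = fun n => ∑ j ∈ range J, ∑ j' ∈ range J, (φ j * conj (φ j')).re *
      ((1 / ((L : ℝ) ^ 2 * (H : ℝ) ^ 2)) * ∑ m ∈ range L, ∑ m' ∈ range L, ∑ h ∈ range H, ∑ h' ∈ range H,
        X4 F (m + h) (m + h') (m' + h + j) (m' + h' + j') n) := by
    funext n
    exact QQ_expand F φ J L H n
  rw [e, μ.sum _ fun j _ => BZ.sum _ fun j' _ => BZ.cmul _ (inner_bd F hF L H j j')]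
  refine sum_congr rfl fun j _ => ?_
  rw [μ.sum _ fun j' _ => BZ.cmul _ (inner_bd F hF L H j j')]
  refine sum_congr rfl fun j' _ => ?_
  rw [μ.smul _ _ (inner_bd F hF L H j j')]
  congr 1
  unfold TT
  rw [μ.smul _ _ (BZ.sum _ fun m _ => BZ.sum _ fun m' _ => BZ.sum _ fun h _ => BZ.sum _ fun h' _ =>
    X4_bd F hF _ _ _ _)]
  congr 1
  rw [μ.sum _ fun m _ => BZ.sum _ fun m' _ => BZ.sum _ fun h _ => BZ.sum _ fun h' _ => X4_bd F hF _ _ _ _]
  refine sum_congr rfl fun m _ => ?_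
  rw [μ.sum _ fun m' _ => BZ.sum _ fun h _ => BZ.sum _ fun h' _ => X4_bd F hF _ _ _ _]
  refine sum_congr rfl fun m' _ => ?_
  rw [μ.sum _ fun h _ => BZ.sum _ fun h' _ => X4_bd F hF _ _ _ _]
  refine sum_congr rfl fun h _ => ?_
  rw [μ.sum _ fun h' _ => X4_bd F hF _ _ _ _]

omit hF in
lemma sum_shift_abs (g : ℤ → ℝ) (h1 : ∀ x, |g x| ≤ 1) (A : ℕ) (t : ℤ) :
    |∑ y ∈ range A, g (y + t) - ∑ y ∈ range A, g y| ≤ 2 * |(t : ℝ)| := by
  have key : ∀ f : ℤ → ℝ, (∀ x, |f x| ≤ 1) → ∑ y ∈ range A, f (y + t) ≤ ∑ y ∈ range A, f y + 2 * |(t : ℝ)| := by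
    intro f hf
    have h2 := sum_shift_le (fun x => (1 + f x) / 2) (fun x => by linarith [(abs_le.1 (hf x)).1])
      (fun x => by linarith [(abs_le.1 (hf x)).2]) A t
    simp only [← sum_div, sum_add_distrib, sum_const, card_range, nsmul_eq_mul, mul_one] at h2
    linarith
  rw [abs_le]
  constructor
  · have h3 := key (fun x => - g x) (fun x => by rw [abs_neg]; exact h1 x)
    simp only [sum_neg_distrib] at h3
    linarith
  · linarith [key g h1]

lemma TT_diag (L H j : ℕ) (hL : 1 ≤ L) (hH : 1 ≤ H) : |TT μ F L H j j - TT μ F L H 0 0| ≤ 2 * j / L := by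
  have hL0 : (0 : ℝ) < L := by exact_mod_cast hL
  have hH0 : (0 : ℝ) < H := by exact_mod_cast hH
  unfold TT
  rw [← mul_sub, abs_mul, abs_of_nonneg (by positivity), one_div, inv_mul_le_iff₀ (by positivity),
    ← sum_sub_distrib]
  have h1 : ∀ m : ℕ, |∑ m' ∈ range L, ∑ h ∈ range H, ∑ h' ∈ range H,
      μ.m (X4 F (m + h) (m + h') (m' + h + j) (m' + h' + j)) - ∑ m' ∈ range L, ∑ h ∈ range H, ∑ h' ∈ range H,
      μ.m (X4 F (m + h) (m + h') (m' + h + (0 : ℕ)) (m' + h' + (0 : ℕ)))| ≤ H * (H * (2 * j)) := by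
    intro m
    have e1 : ∀ t : ℕ, ∑ m' ∈ range L, ∑ h ∈ range H, ∑ h' ∈ range H,
        μ.m (X4 F (m + h) (m + h') (m' + h + t) (m' + h' + t)) = ∑ h ∈ range H, ∑ h' ∈ range H,
        ∑ m' ∈ range L, (fun x : ℤ => μ.m (X4 F (m + h) (m + h') (x + h) (x + h'))) (m' + (t : ℤ)) := by
      intro t
      rw [sum_comm]
      refine sum_congr rfl fun h _ => ?_
      rw [sum_comm]
      refine sum_congr rfl fun h' _ => sum_congr rfl fun m' _ => ?_
      rw [show (m' + h + t : ℤ) = m' + t + h by ring, show (m' + h' + t : ℤ) = m' + t + h' by ring]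
    rw [e1, e1, ← sum_sub_distrib]
    refine (abs_sum_le_sum_abs _ _).trans ((sum_le_sum (g := fun _ => (H * (2 * j) : ℝ)) fun h _ => ?_).trans ?_)
    · rw [← sum_sub_distrib]
      refine (abs_sum_le_sum_abs _ _).trans ((sum_le_sum (g := fun _ => (2 * j : ℝ)) fun h' _ => ?_).trans ?_)
      · have h2 := sum_shift_abs (fun x : ℤ => μ.m (X4 F (m + h) (m + h') (x + h) (x + h')))
          (fun x => X4_abs μ F hF _ _ _ _) L j
        have e3 : |((j : ℤ) : ℝ)| = j := by simp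
        rw [e3] at h2
        simpa using h2
      · rw [sum_const, card_range, nsmul_eq_mul]
    · rw [sum_const, card_range, nsmul_eq_mul]
  refine (abs_sum_le_sum_abs _ _).trans ((sum_le_sum fun m _ => h1 m).trans ?_)
  rw [sum_const, card_range, nsmul_eq_mul]
  apply le_of_eq
  field_simp

lemma TT_abs (L H j j' : ℕ) : |TT μ F L H j j'| ≤ (1 / ((L : ℝ) ^ 2 * (H : ℝ) ^ 2)) *
    ∑ m ∈ range L, ∑ m' ∈ range L, ∑ h ∈ range H, ∑ h' ∈ range H,
      |μ.m (X4 F (m + h) (m + h') (m' + h + j) (m' + h' + j'))| := by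
  unfold TT
  rw [abs_mul, abs_of_nonneg (by positivity : (0 : ℝ) ≤ 1 / ((L : ℝ) ^ 2 * (H : ℝ) ^ 2))]
  refine mul_le_mul_of_nonneg_left ?_ (by positivity)
  refine (abs_sum_le_sum_abs _ _).trans (sum_le_sum fun m _ => ?_)
  refine (abs_sum_le_sum_abs _ _).trans (sum_le_sum fun m' _ => ?_)
  refine (abs_sum_le_sum_abs _ _).trans (sum_le_sum fun h _ => ?_)
  exact abs_sum_le_sum_abs _ _

omit hF in
lemma re_le (a b : ℂ) : |(a * conj b).re| ≤ ‖a‖ * ‖b‖ := by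
  refine (Complex.abs_re_le_norm _).trans ?_
  rw [norm_mul, Complex.norm_conj]

/-- the mean of `QQ` is the mean for the trivial filter times the energy of the filter -/
theorem exp_main (hD : DispZ μ F) (φ : ℕ → ℂ) (J R : ℕ) (hR : 1 ≤ R) (ε : ℝ) (hε : 0 < ε) :
    ∃ H₀ : ℕ, 1 ≤ H₀ ∧ ∀ H : ℕ, H₀ ≤ H →
      |μ.m (QQ F φ J (R * H) H) - (∑ j ∈ range J, ‖φ j‖ ^ 2) * TT μ F (R * H) H 0 0| ≤ ε := by
  classical
  set N1 : ℝ := ∑ j ∈ range J, ‖φ j‖ with hN1
  set N2 : ℝ := ∑ j ∈ range J, ‖φ j‖ ^ 2 with hN2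
  have hN1' : 0 ≤ N1 := sum_nonneg fun _ _ => norm_nonneg _
  have hN2' : 0 ≤ N2 := sum_nonneg fun _ _ => by positivity
  have hR0 : (0 : ℝ) < R := by exact_mod_cast hR
  set ε₁ : ℝ := ε / (8 * R * (N1 ^ 2 + 1)) with hε₁
  have hε₁0 : 0 < ε₁ := by positivity
  have hT : ∀ j j' : ℕ, j ≠ j' → ∃ A₀ : ℕ, ∀ A L H : ℕ, A₀ ≤ A → (L : ℤ) + |(j : ℤ)| ≤ A → H ≤ A →
      ∑ m ∈ range L, ∑ m' ∈ range L, ∑ h ∈ range H, ∑ h' ∈ range H,
        |μ.m (X4 F (m + h) (m + h') (m' + h + j) (m' + h' + j'))| ≤ L * H * (ε₁ * (A : ℝ) ^ 2) :=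
    fun j j' hjj => T_bound μ F hF hD j j' (by exact_mod_cast hjj) ε₁ hε₁0
  choose! A₀ hA₀ using hT
  set B : ℕ := ∑ j ∈ range J, ∑ j' ∈ range J, A₀ j j' with hB
  obtain ⟨M, hM⟩ := exists_nat_ge (4 * N2 * J / ε)
  refine ⟨B + J + M + 1, by omega, fun H hH => ?_⟩
  have hH1 : 1 ≤ H := by omega
  have hH0 : (0 : ℝ) < H := by exact_mod_cast hH1
  set L : ℕ := R * H with hL
  have hLH : H ≤ L := Nat.le_mul_of_pos_left _ hR
  have hL1 : 1 ≤ L := hH1.trans hLH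
  have hL0 : (0 : ℝ) < L := by exact_mod_cast hL1
  have hLr : (L : ℝ) = R * H := by rw [hL]; push_cast; ring
  rw [m_QQ μ F hF]
  have e1 : N2 * TT μ F L H 0 0 = ∑ j ∈ range J, ∑ j' ∈ range J,
      (if j = j' then ‖φ j‖ ^ 2 * TT μ F L H 0 0 else 0) := by
    rw [hN2, sum_mul]
    refine sum_congr rfl fun j hj => ?_
    rw [sum_ite_eq, if_pos hj]
  rw [e1, ← sum_sub_distrib]
  have h1 : ∀ j ∈ range J, ∀ j' ∈ range J, |(φ j * conj (φ j')).re * TT μ F L H j j' -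
      (if j = j' then ‖φ j‖ ^ 2 * TT μ F L H 0 0 else 0)| ≤
      (if j = j' then ‖φ j‖ ^ 2 * (2 * J / L) else 0) + ‖φ j‖ * ‖φ j'‖ * (4 * R * ε₁) := by
    intro j hj j' hj'
    rw [mem_range] at hj hj'
    by_cases hjj : j = j'
    · subst hjj
      rw [if_pos rfl, if_pos rfl, Complex.mul_conj, Complex.ofReal_re, Complex.normSq_eq_norm_sq, ← mul_sub, abs_mul,
        abs_of_nonneg (by positivity)]
      have h2 := TT_diag μ F hF L H j hL1 hH1
      have h3 : 2 * (j : ℝ) / L ≤ 2 * J / L := by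
        refine div_le_div_of_nonneg_right ?_ hL0.le
        have : (j : ℝ) ≤ J := by exact_mod_cast hj.le
        linarith
      have h4 : 0 ≤ ‖φ j‖ * ‖φ j‖ * (4 * R * ε₁) := by positivity
      have h5 := mul_le_mul_of_nonneg_left (h2.trans h3) (by positivity : 0 ≤ ‖φ j‖ ^ 2)
      linarith
    · rw [if_neg hjj, if_neg hjj, sub_zero, zero_add, abs_mul]
      refine mul_le_mul (re_le _ _) ?_ (abs_nonneg _) (by positivity)
      refine (TT_abs μ F hF L H j j').trans ?_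
      have hA : A₀ j j' ≤ 2 * L := by
        have g1 : A₀ j j' ≤ ∑ j' ∈ range J, A₀ j j' :=
          single_le_sum (f := fun j' => A₀ j j') (fun _ _ => Nat.zero_le _) (mem_range.2 hj')
        have g2 : ∑ j' ∈ range J, A₀ j j' ≤ B :=
          single_le_sum (f := fun j => ∑ j' ∈ range J, A₀ j j') (fun _ _ => Nat.zero_le _) (mem_range.2 hj)
        omega
      have h2 := hA₀ j j' hjj (2 * L) L H hA (by
        rw [abs_of_nonneg (by positivity)]
        push_cast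
        omega) (by omega)
      rw [one_div, inv_mul_le_iff₀ (by positivity)]
      refine h2.trans (le_of_eq ?_)
      push_cast
      rw [hLr]
      ring
  have h2 : |∑ j ∈ range J, (∑ j' ∈ range J, (φ j * conj (φ j')).re * TT μ F L H j j' -
      ∑ j' ∈ range J, (if j = j' then ‖φ j‖ ^ 2 * TT μ F L H 0 0 else 0))| ≤
      ∑ j ∈ range J, ∑ j' ∈ range J, ((if j = j' then ‖φ j‖ ^ 2 * (2 * J / L) else 0) +
        ‖φ j‖ * ‖φ j'‖ * (4 * R * ε₁)) := by
    refine (abs_sum_le_sum_abs _ _).trans (sum_le_sum fun j hj => ?_)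
    rw [← sum_sub_distrib]
    exact (abs_sum_le_sum_abs _ _).trans (sum_le_sum fun j' hj' => h1 j hj j' hj')
  refine h2.trans ?_
  have e2 : ∑ j ∈ range J, ∑ j' ∈ range J, ((if j = j' then ‖φ j‖ ^ 2 * (2 * J / L) else 0) +
      ‖φ j‖ * ‖φ j'‖ * (4 * R * ε₁)) = N2 * (2 * J / L) + N1 ^ 2 * (4 * R * ε₁) := by
    simp only [sum_add_distrib]
    congr 1
    · rw [hN2, sum_mul]
      refine sum_congr rfl fun j hj => ?_
      rw [sum_ite_eq, if_pos hj]
    · simp only [← sum_mul, ← mul_sum]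
      rw [← hN1]
      ring
  rw [e2]
  have h3 : N2 * (2 * J / L) ≤ ε / 2 := by
    have h4 : (M : ℝ) ≤ L := by exact_mod_cast (by omega : M ≤ L)
    have h5 := hM.trans h4
    rw [div_le_iff₀ hε] at h5
    rw [mul_div_assoc', div_le_iff₀ hL0]
    linarith
  have h4 : N1 ^ 2 * (4 * R * ε₁) ≤ ε / 2 := by
    have e3 : N1 ^ 2 * (4 * R * ε₁) = (N1 ^ 2 / (N1 ^ 2 + 1)) * (ε / 2) := by
      rw [hε₁]
      field_simp
      ring
    rw [e3]
    have h6 : N1 ^ 2 / (N1 ^ 2 + 1) ≤ 1 := by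
      rw [div_le_one (by positivity)]
      linarith
    nlinarith
  linarith

end mean

end Pool.Agent.Helper47.Freq
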