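import Pool.Agent.Helper47.Freq.Lim
import Pool.Agent.Helper44K9.FU.Sub

/-!
# Finite statements (helper47)
-/

set_option autoImplicit false

namespace Pool.Agent.Helper47.Freq

open Finset Filter MeasureTheory
open Pool.Agent.TH112.BL (LM)
open Pool.Agent.Y956.CB (eeLM)
open Pool.Agent.Y956.CM (lmLM usq usq_le eeLM_lm)
open Pool.Agent.TH833.BL (S avg lm lm_tendsto)

/-- the displaced parallelograms are small for all logarithmic means -/
def DispAll (f : ℕ → ℝ) : Prop := ∀ (U : Ultrafilter ℕ) (hU : (U : Filter ℕ) ≤ atTop),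
  DispZ (toIM (eeLM (lmLM U hU))) (ext f)

/-- from means to finite averages -/
lemma lim_contra (φ : ℕ → ℤ → ℝ) (hφ : ∀ L n, |φ L n| ≤ 1) (c : ℝ)
    (h : ∀ (U : Ultrafilter ℕ) (hU : (U : Filter ℕ) ≤ atTop), ∃ L : ℕ, 1 ≤ L ∧
      (toIM (eeLM (lmLM U hU))).m (φ L) ≤ c) (ε : ℝ) (hε : 0 < ε) :
    ∃ L₁ N₁ : ℕ, ∀ N : ℕ, N₁ ≤ N → ∃ L : ℕ, 1 ≤ L ∧ L ≤ L₁ ∧ avg (fun n => φ L n) N ≤ c + ε := by
  by_contra hcon
  push Not at hcon
  choose N hN1 hN2 using fun j : ℕ => hcon j j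
  have hNt : Tendsto N atTop atTop := tendsto_atTop_mono hN1 tendsto_id
  obtain ⟨L, hL, h1⟩ := h (usq N) (usq_le hNt)
  have hb : Pool.Agent.TH112.BL.Bd (fun n : ℕ => φ L n) := ⟨1, fun n => hφ L n⟩
  have h2 : lm (usq N) (fun n : ℕ => φ L n) ≤ c := by
    rw [← eeLM_lm (usq N) (usq_le hNt) hb]
    exact h1
  have h3 := lm_tendsto (usq_le hNt) hb
  unfold usq at h3
  rw [Ultrafilter.coe_map, tendsto_map'_iff] at h3
  have h4 : c + ε ≤ lm (usq N) (fun n : ℕ => φ L n) := by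
    apply ge_of_tendsto h3
    apply Nat.hyperfilter_le_atTop
    filter_upwards [eventually_ge_atTop L] with j hj
    exact (hN2 j L hL hj).le
  linarith

lemma S_le_log {φ : ℕ → ℝ} (h : ∀ n, φ n ≤ 1) (N : ℕ) : S φ N ≤ 1 + Real.log N := by
  have h1 := Pool.Agent.TH833.BL.H_le N
  refine le_trans ?_ h1
  unfold S Pool.Agent.TH833.BL.H
  refine sum_le_sum fun n _ => ?_
  exact mul_le_of_le_one_right (by positivity) (h n)

section fin

variable {f : ℕ → ℝ} (hf : ∀ n, |f n| ≤ 1)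
include hf

/-- fourth powers and short windows -/
lemma sub4 (E : Set UnitAddCircle) (H L : ℕ) (hL : 1 ≤ L) (hH : 2 * L ≤ H) (n : ℤ) :
    SS (ext f) E H n ^ 4 ≤ (1 / (H : ℝ)) * ∑ i ∈ range H, SS (ext f) E L (n + i) ^ 4 + 30 * L / H := by
  have hF := ext_le hf
  have hL0 : (0 : ℝ) < L := by exact_mod_cast hL
  have hH0 : (0 : ℝ) < H := by exact_mod_cast (by omega : 0 < H)
  set a : ℝ := (1 / (H : ℝ)) * ∑ i ∈ range H, SS (ext f) E L (n + i) with ha
  set b : ℝ := 2 * L / H with hb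
  have ha0 : 0 ≤ a := mul_nonneg (by positivity) (sum_nonneg fun i _ => SS_nonneg _ _ _ _)
  have hb0 : 0 ≤ b := by positivity
  have hb1 : b ≤ 1 := by
    rw [hb, div_le_one hH0]
    exact_mod_cast hH
  have ha1 : a ≤ 1 := by
    rw [ha, one_div, inv_mul_le_iff₀ hH0, mul_one]
    refine (sum_le_sum (g := fun _ => (1 : ℝ)) fun (i : ℕ) _ => SS_le_one (ext f) hF E L (n + i)).trans ?_
    simp
  have h1 : SS (ext f) E H n ≤ a + b := by
    apply SS_le _ _ _ _ (by positivity)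
    intro θ hθ
    refine (subwin (ext f) hF H L (by omega) hL n θ).trans (add_le_add ?_ le_rfl)
    exact mul_le_mul_of_nonneg_left (sum_le_sum fun i _ => le_SS (ext f) hF E L _ hθ) (by positivity)
  have h2 : a ^ 4 ≤ (1 / (H : ℝ)) * ∑ i ∈ range H, SS (ext f) E L (n + i) ^ 4 := by
    have c1 := sq_sum_le_card_mul_sum_sq (s := range H) (f := fun i => SS (ext f) E L (n + i))
    have c2 := sq_sum_le_card_mul_sum_sq (s := range H) (f := fun i => SS (ext f) E L (n + i) ^ 2)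
    rw [card_range] at c1 c2
    have c3 : (∑ i ∈ range H, SS (ext f) E L (n + i)) ^ 4 ≤ (H : ℝ) ^ 3 * ∑ i ∈ range H, SS (ext f) E L (n + i) ^ 4 := by
      calc (∑ i ∈ range H, SS (ext f) E L (n + i)) ^ 4 = ((∑ i ∈ range H, SS (ext f) E L (n + i)) ^ 2) ^ 2 := by ring
        _ ≤ (H * ∑ i ∈ range H, SS (ext f) E L (n + i) ^ 2) ^ 2 := pow_le_pow_left₀ (by positivity) c1 2
        _ = (H : ℝ) ^ 2 * (∑ i ∈ range H, SS (ext f) E L (n + i) ^ 2) ^ 2 := by ring
        _ ≤ (H : ℝ) ^ 2 * (H * ∑ i ∈ range H, (SS (ext f) E L (n + i) ^ 2) ^ 2) :=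
            mul_le_mul_of_nonneg_left c2 (by positivity)
        _ = (H : ℝ) ^ 3 * ∑ i ∈ range H, SS (ext f) E L (n + i) ^ 4 := by
            have e : ∀ i ∈ range H, (SS (ext f) E L (n + i) ^ 2) ^ 2 = SS (ext f) E L (n + i) ^ 4 := fun i _ => by ring
            rw [sum_congr rfl e]
            ring
    rw [ha, mul_pow]
    calc (1 / (H : ℝ)) ^ 4 * (∑ i ∈ range H, SS (ext f) E L (n + i)) ^ 4 ≤
        (1 / (H : ℝ)) ^ 4 * ((H : ℝ) ^ 3 * ∑ i ∈ range H, SS (ext f) E L (n + i) ^ 4) :=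
          mul_le_mul_of_nonneg_left c3 (by positivity)
      _ = (1 / (H : ℝ)) * ∑ i ∈ range H, SS (ext f) E L (n + i) ^ 4 := by
          field_simp
  have h3 : (a + b) ^ 4 ≤ a ^ 4 + 15 * b := by
    have e : (a + b) ^ 4 = a ^ 4 + b * (4 * a ^ 3 + 6 * a ^ 2 * b + 4 * a * b ^ 2 + b ^ 3) := by ring
    rw [e]
    have g1 : a ^ 3 ≤ 1 := pow_le_one₀ ha0 ha1
    have g2 : a ^ 2 * b ≤ 1 := mul_le_one₀ (pow_le_one₀ ha0 ha1) hb0 hb1
    have g3 : a * b ^ 2 ≤ 1 := mul_le_one₀ ha1 (by positivity) (pow_le_one₀ hb0 hb1)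
    have g4 : b ^ 3 ≤ 1 := pow_le_one₀ hb0 hb1
    nlinarith
  calc SS (ext f) E H n ^ 4 ≤ (a + b) ^ 4 := pow_le_pow_left₀ (SS_nonneg _ _ _ _) h1 4
    _ ≤ a ^ 4 + 15 * b := h3
    _ ≤ (1 / (H : ℝ)) * ∑ i ∈ range H, SS (ext f) E L (n + i) ^ 4 + 30 * L / H := by
        rw [hb]
        have e : 15 * (2 * (L : ℝ) / H) = 30 * L / H := by ring
        linarith

/-- passing to short windows in logarithmic averages -/
lemma transfer (hLS : LS f) (E : Set UnitAddCircle) (L₁ : ℕ) (ε : ℝ) (hε : 0 < ε) : ∃ H₀ : ℕ, ∀ N H : ℕ, H₀ ≤ H → H ≤ N →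
    ∀ L : ℕ, 1 ≤ L → L ≤ L₁ →
      S (fun n => SS (ext f) E H n ^ 4) N ≤ S (fun n => SS (ext f) E L n ^ 4) N + ε * Real.log N := by
  have hF := ext_le hf
  obtain ⟨C₀, hC₀⟩ := exists_nat_ge (8 / ε)
  set C : ℕ := C₀ + 1 with hC
  have hC1 : 1 ≤ C := by omega
  have hC0 : (0 : ℝ) < C := by exact_mod_cast hC1
  have hCe : 1 / (C : ℝ) ≤ ε / 8 := by
    have h1 : 8 / ε ≤ C := hC₀.trans (by exact_mod_cast (by omega : C₀ ≤ C))
    rw [div_le_iff₀ hε] at h1
    rw [div_le_iff₀ hC0]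
    linarith
  obtain ⟨H₁, hH₁⟩ := ls_cc hf hLS C (min 1 (ε / 8)) (lt_min one_pos (by positivity))
  obtain ⟨H₂, hH₂⟩ := exists_nat_ge (240 * L₁ / ε)
  obtain ⟨H₃, hH₃⟩ := exists_nat_ge (Real.exp (4 / ε + 4))
  refine ⟨H₁ + H₂ + H₃ + 2 * L₁ + 1, fun N H hH hN L hL hL1 => ?_⟩
  have hH0 : (0 : ℝ) < H := by exact_mod_cast (by omega : 0 < H)
  have hN0 : (0 : ℝ) < N := by exact_mod_cast (by omega : 0 < N)
  have hlog : 4 / ε + 4 ≤ Real.log N := by
    rw [Real.le_log_iff_exp_le hN0]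
    exact hH₃.trans (by exact_mod_cast (by omega : H₃ ≤ N))
  have hlog2 : 4 + 4 * ε ≤ ε * Real.log N := by
    have := mul_le_mul_of_nonneg_left hlog hε.le
    have e : ε * (4 / ε + 4) = 4 + 4 * ε := by field_simp
    linarith
  set s : ℕ → ℝ := fun n => SS (ext f) E H n ^ 4 with hs
  set s' : ℕ → ℝ := fun n => SS (ext f) E L n ^ 4 with hs'
  have hs0 : ∀ n, 0 ≤ s n := fun n => pow_nonneg (SS_nonneg _ _ _ _) 4
  have hs'0 : ∀ n, 0 ≤ s' n := fun n => pow_nonneg (SS_nonneg _ _ _ _) 4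
  have hs'1 : ∀ n, s' n ≤ 1 := fun n => pow_le_one₀ (SS_nonneg _ _ _ _) (SS_le_one _ hF _ _ _)
  have hS' : S s' N ≤ 1 + Real.log N := S_le_log hs'1 N
  have hS'0 : 0 ≤ S s' N := Pool.Agent.TH833.BL.S_nonneg hs'0 N
  have hbeg : ∀ n : ℕ, n ≤ C * H → s n ≤ ε / 8 := by
    intro n hn
    have h1 : SS (ext f) E H n ≤ min 1 (ε / 8) :=
      SS_le _ _ _ _ (le_min zero_le_one (by positivity)) fun θ _ => hH₁ H (by omega) n hn θ
    have h2 : SS (ext f) E H n ≤ 1 := h1.trans (min_le_left _ _)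
    have h3 : SS (ext f) E H n ≤ ε / 8 := h1.trans (min_le_right _ _)
    have h0 := SS_nonneg (ext f) E H n
    calc s n = SS (ext f) E H n ^ 3 * SS (ext f) E H n := by rw [hs]; ring
      _ ≤ 1 * (ε / 8) := mul_le_mul (pow_le_one₀ h0 h2) h3 h0 zero_le_one
      _ = ε / 8 := one_mul _
  have hsum : ∑ n ∈ Icc 1 N, 1 / (n : ℝ) ≤ 1 + Real.log N := Pool.Agent.TH833.BL.H_le N
  have hNE : ε / 8 * (1 + Real.log N) ≥ 0 := by
    have : 0 ≤ Real.log N := Real.log_natCast_nonneg N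
    positivity
  show S s N ≤ S s' N + ε * Real.log N
  rcases le_total (C * H) N with hCH | hCH
  · have h1 := Pool.Agent.Helper44K9.FU.sub s s' C H N (ε / 8) (fun n => ⟨hs'0 n, hs'1 n⟩) hC1 (by omega) hCH
      (by positivity) (fun n => by
        have h2 := sub4 hf E H L hL (by omega) n
        have h3 : 30 * (L : ℝ) / H ≤ ε / 8 := by
          have h4 : 240 * (L₁ : ℝ) / ε ≤ H := hH₂.trans (by exact_mod_cast (by omega : H₂ ≤ H))
          rw [div_le_iff₀ hε] at h4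
          have h5 : (L : ℝ) ≤ L₁ := by exact_mod_cast hL1
          rw [div_le_iff₀ hH0]
          linarith
        have e : ∀ i : ℕ, s' (n + i) = SS (ext f) E L ((n : ℤ) + i) ^ 4 := by
          intro i
          rw [hs']
          simp only
          push_cast
          rfl
        simp only [e]
        exact h2.trans (add_le_add le_rfl h3))
    have e1 : S s N = ∑ n ∈ Icc 1 (C * H), (1 / (n : ℝ)) * s n + ∑ n ∈ Ioc (C * H) N, (1 / (n : ℝ)) * s n := by
      unfold S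
      rw [← sum_union (by
        rw [disjoint_left]
        intro m h4 h5
        rw [mem_Icc] at h4
        rw [mem_Ioc] at h5
        omega)]
      congr 1
      ext m
      rw [mem_union, mem_Icc, mem_Icc, mem_Ioc]
      omega
    have h2 : ∑ n ∈ Icc 1 (C * H), (1 / (n : ℝ)) * s n ≤ ε / 8 * (1 + Real.log N) := by
      calc ∑ n ∈ Icc 1 (C * H), (1 / (n : ℝ)) * s n ≤ ∑ n ∈ Icc 1 (C * H), (1 / (n : ℝ)) * (ε / 8) :=
            sum_le_sum fun n hn => mul_le_mul_of_nonneg_left (hbeg n (mem_Icc.1 hn).2) (by positivity)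
        _ ≤ ∑ n ∈ Icc 1 N, (1 / (n : ℝ)) * (ε / 8) := by
            apply sum_le_sum_of_subset_of_nonneg
            · exact Icc_subset_Icc_right hCH
            · intro n _ _; positivity
        _ = ε / 8 * ∑ n ∈ Icc 1 N, 1 / (n : ℝ) := by rw [← sum_mul, mul_comm]
        _ ≤ _ := mul_le_mul_of_nonneg_left hsum (by positivity)
    have h3 : (1 + 1 / (C : ℝ)) * (S s' N + 1) ≤ S s' N + 1 + ε / 8 * (2 + Real.log N) := by
      have h4 : 1 / (C : ℝ) * (S s' N + 1) ≤ ε / 8 * (2 + Real.log N) :=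
        mul_le_mul hCe (by linarith) (by linarith) (by positivity)
      linarith
    have h4 : ε / 8 * ∑ n ∈ Icc 1 N, 1 / (n : ℝ) ≤ ε / 8 * (1 + Real.log N) :=
      mul_le_mul_of_nonneg_left hsum (by positivity)
    have h1' : ∑ n ∈ Ioc (C * H) N, (1 / (n : ℝ)) * s n ≤ (1 + 1 / (C : ℝ)) * (S s' N + 1) +
        ε / 8 * ∑ n ∈ Icc 1 N, 1 / (n : ℝ) := h1
    rw [e1]
    nlinarith
  · have h2 : S s N ≤ ε / 8 * (1 + Real.log N) := by
      calc S s N ≤ ∑ n ∈ Icc 1 N, (1 / (n : ℝ)) * (ε / 8) :=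
            sum_le_sum fun n hn => mul_le_mul_of_nonneg_left (hbeg n ((mem_Icc.1 hn).2.trans hCH)) (by positivity)
        _ = ε / 8 * ∑ n ∈ Icc 1 N, 1 / (n : ℝ) := by rw [← sum_mul, mul_comm]
        _ ≤ _ := mul_le_mul_of_nonneg_left hsum (by positivity)
    nlinarith

/-- **First finite statement.** -/
theorem fin1 (hLS : LS f) (hD : DispAll f) (κ : ℝ) (hκ0 : 0 ≤ κ) (hκ1 : κ ≤ 1) (hκ : UD (ext f) κ)
    (E : Set UnitAddCircle) (hE : IsClosed E) (ε : ℝ) (hε : 0 < ε) : ∃ H₀ : ℕ, ∀ N H : ℕ, H₀ ≤ H → H ≤ N →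
      S (fun n => SS (ext f) E H n ^ 4) N ≤ (κ ^ 3 * (volume E).toReal + ε) * Real.log N := by
  have hF := ext_le hf
  set δ : ℝ := min 1 (ε / 4) with hδ
  have hδ0 : 0 < δ := lt_min one_pos (by positivity)
  have hδ1 : δ ≤ 1 := min_le_left _ _
  have hδ2 : δ ≤ ε / 4 := min_le_right _ _
  obtain ⟨L₁, N₁, h1⟩ := lim_contra (fun L n => SS (ext f) E L n ^ 4) (fun L n => by
      rw [abs_of_nonneg (pow_nonneg (SS_nonneg _ _ _ _) 4)]
      exact pow_le_one₀ (SS_nonneg _ _ _ _) (SS_le_one _ hF _ _ _)) (κ ^ 3 * (volume E).toReal + δ)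
    (fun U hU => first (toIM (eeLM (lmLM U hU))) (ext f) hF (hD U hU) κ hκ0 hκ1 hκ E hE δ hδ0 hδ1) δ hδ0
  obtain ⟨H₀, h2⟩ := transfer hf hLS E L₁ (ε / 4) (by positivity)
  refine ⟨H₀ + N₁ + 3, fun N H hH hN => ?_⟩
  obtain ⟨L, hL, hL1, h3⟩ := h1 N (by omega)
  have h4 := h2 N H (by omega) hN L hL hL1
  have hlog : 1 ≤ Real.log N := Pool.Agent.TH833.BL.one_le_log (by omega : 3 ≤ N)
  unfold avg at h3
  rw [div_mul_eq_mul_div, one_mul, div_le_iff₀ (by linarith)] at h3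
  refine h4.trans ((add_le_add h3 le_rfl).trans ?_)
  have h5 : (κ ^ 3 * (volume E).toReal + δ + δ) * Real.log N + ε / 4 * Real.log N =
      (κ ^ 3 * (volume E).toReal + (2 * δ + ε / 4)) * Real.log N := by ring
  rw [h5]
  exact mul_le_mul_of_nonneg_right (by linarith) (by linarith)

/-- **Second finite statement.** -/
theorem fin2 (hLS : LS f) (hD : DispAll f) (E : Set UnitAddCircle) (hE : MeasurableSet E) (K : ℕ) (hK : 1 ≤ K)
    (ε : ℝ) (hε : 0 < ε) : ∃ H₀ : ℕ, ∀ N H : ℕ, H₀ ≤ H → H ≤ N →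
      (volume E).toReal * S (fun n => SS (ext f) Set.univ H n ^ 4) N ≤
        S (fun n => SS (ext f) E K n ^ 2) N + ε * Real.log N := by
  have hF := ext_le hf
  set δ : ℝ := min 1 (ε / 8) with hδ
  have hδ0 : 0 < δ := lt_min one_pos (by positivity)
  have hδ1 : δ ≤ 1 := min_le_left _ _
  have hδ2 : δ ≤ ε / 8 := min_le_right _ _
  obtain ⟨E', hE'1, hE'2, hE'3⟩ : ∃ E' : Set UnitAddCircle, E' ⊆ E ∧ IsClosed E' ∧
      (volume E).toReal - δ ≤ (volume E').toReal := by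
    obtain ⟨E', h1, h2, h3⟩ := hE.exists_isClosed_sdiff_lt (μ := (volume : Measure UnitAddCircle)) (measure_ne_top _ _)
      (ε := ENNReal.ofReal δ) (by simpa using hδ0)
    refine ⟨E', h1, h2, ?_⟩
    have h4 := measure_sdiff_add_inter (μ := (volume : Measure UnitAddCircle)) E h2.measurableSet
    rw [Set.inter_eq_self_of_subset_right h1] at h4
    have h5 : (volume E).toReal = (volume (E \ E')).toReal + (volume E').toReal := by
      rw [← h4, ENNReal.toReal_add (measure_ne_top _ _) (measure_ne_top _ _)]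
    have h6 : (volume (E \ E')).toReal ≤ δ := ENNReal.toReal_le_of_le_ofReal hδ0.le h3.le
    linarith
  have hv1 := vol_le_one E
  have hv0 : 0 ≤ (volume E).toReal := ENNReal.toReal_nonneg
  have hv0' : 0 ≤ (volume E').toReal := ENNReal.toReal_nonneg
  have hv1' := vol_le_one E'
  have hu0 : ∀ (L : ℕ) (n : ℤ), 0 ≤ SS (ext f) Set.univ L n ^ 4 := fun L n => pow_nonneg (SS_nonneg _ _ _ _) 4
  have hu1 : ∀ (L : ℕ) (n : ℤ), SS (ext f) Set.univ L n ^ 4 ≤ 1 := fun L n =>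
    pow_le_one₀ (SS_nonneg _ _ _ _) (SS_le_one _ hF _ _ _)
  have he0 : ∀ n : ℤ, 0 ≤ SS (ext f) E' K n ^ 2 := fun n => pow_nonneg (SS_nonneg _ _ _ _) 2
  have he1 : ∀ n : ℤ, SS (ext f) E' K n ^ 2 ≤ 1 := fun n =>
    pow_le_one₀ (SS_nonneg _ _ _ _) (SS_le_one _ hF _ _ _)
  obtain ⟨L₁, N₁, h1⟩ := lim_contra (fun L n => (volume E').toReal * SS (ext f) Set.univ L n ^ 4 - SS (ext f) E' K n ^ 2)
    (fun L n => by
      rw [abs_le]
      constructor
      · have := mul_nonneg hv0' (hu0 L n)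
        linarith [he1 n]
      · have := mul_le_one₀ hv1' (hu0 L n) (hu1 L n)
        linarith [he0 n]) δ
    (fun U hU => by
      obtain ⟨L, hL, h2⟩ := second (toIM (eeLM (lmLM U hU))) (ext f) hF (hD U hU) E' hE'2 K hK δ hδ0 hδ1
      refine ⟨L, hL, ?_⟩
      have b1 := SS_pow_bd (ext f) hF Set.univ L 4
      have b2 := SS_pow_bd (ext f) hF E' K 2
      rw [(toIM (eeLM (lmLM U hU))).sub (b1.cmul _) b2, (toIM (eeLM (lmLM U hU))).smul _ _ b1]
      linarith) δ hδ0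
  obtain ⟨H₀, h2⟩ := transfer hf hLS Set.univ L₁ (ε / 4) (by positivity)
  refine ⟨H₀ + N₁ + 3, fun N H hH hN => ?_⟩
  obtain ⟨L, hL, hL1, h3⟩ := h1 N (by omega)
  have h4 := h2 N H (by omega) hN L hL hL1
  have hlog : 1 ≤ Real.log N := Pool.Agent.TH833.BL.one_le_log (by omega : 3 ≤ N)
  unfold avg at h3
  rw [div_mul_eq_mul_div, one_mul, div_le_iff₀ (by linarith)] at h3
  have e1 : S (fun n : ℕ => (volume E').toReal * SS (ext f) Set.univ L n ^ 4 - SS (ext f) E' K n ^ 2) N =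
      (volume E').toReal * S (fun n => SS (ext f) Set.univ L n ^ 4) N - S (fun n => SS (ext f) E' K n ^ 2) N := by
    unfold S
    rw [mul_sum, ← sum_sub_distrib]
    refine sum_congr rfl fun n _ => ?_
    ring
  have h3' : S (fun n : ℕ => (volume E').toReal * SS (ext f) Set.univ L n ^ 4 - SS (ext f) E' K n ^ 2) N ≤
      (δ + δ) * Real.log N := h3
  rw [e1] at h3'
  set A : ℝ := S (fun n => SS (ext f) Set.univ H n ^ 4) N with hA
  set B : ℝ := S (fun n => SS (ext f) Set.univ L n ^ 4) N with hB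
  set C : ℝ := S (fun n => SS (ext f) E' K n ^ 2) N with hC
  have hA1 : A ≤ 1 + Real.log N := S_le_log (fun n => hu1 H n) N
  have hA0 : 0 ≤ A := Pool.Agent.TH833.BL.S_nonneg (fun n => hu0 H n) N
  have hB0 : 0 ≤ B := Pool.Agent.TH833.BL.S_nonneg (fun n => hu0 L n) N
  have hCE : C ≤ S (fun n => SS (ext f) E K n ^ 2) N := by
    unfold C S
    refine sum_le_sum fun n _ => mul_le_mul_of_nonneg_left ?_ (by positivity)
    exact pow_le_pow_left₀ (SS_nonneg _ _ _ _) (SS_mono (ext f) hF hE'1 K n) 2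
  have h5 : (volume E).toReal * A ≤ (volume E').toReal * A + δ * (1 + Real.log N) := by
    have : ((volume E).toReal - (volume E').toReal) * A ≤ δ * (1 + Real.log N) := by
      rcases le_total ((volume E).toReal - (volume E').toReal) 0 with h | h
      · have h6 : ((volume E).toReal - (volume E').toReal) * A ≤ 0 := mul_nonpos_of_nonpos_of_nonneg h hA0
        have : 0 ≤ δ * (1 + Real.log N) := by positivity
        linarith
      · exact mul_le_mul (by linarith) hA1 hA0 hδ0.le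
    linarith
  have h6 : (volume E').toReal * A ≤ (volume E').toReal * B + ε / 4 * Real.log N := by
    have h7 := mul_le_mul_of_nonneg_left h4 hv0'
    have h8 : (volume E').toReal * (ε / 4 * Real.log N) ≤ 1 * (ε / 4 * Real.log N) :=
      mul_le_mul_of_nonneg_right hv1' (by positivity)
    linarith
  have h7 : δ * (1 + Real.log N) ≤ δ * (2 * Real.log N) := mul_le_mul_of_nonneg_left (by linarith) hδ0.le
  have h8 : δ * Real.log N ≤ ε / 8 * Real.log N := mul_le_mul_of_nonneg_right hδ2 (by linarith)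
  linarith

end fin

end Pool.Agent.Helper47.Freq
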