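import Mathlib

/-!
# Shift invariant means on bounded functions on the integers (helper47)
-/

set_option autoImplicit false

namespace Pool.Agent.Helper47.Freq

open Finset

/-- bounded -/
def BZ (f : ℤ → ℝ) : Prop := ∃ C : ℝ, ∀ n, |f n| ≤ C

/-- a shift invariant mean -/
structure IM where
  m : (ℤ → ℝ) → ℝ
  add : ∀ f g, BZ f → BZ g → m (fun n => f n + g n) = m f + m g
  smul : ∀ (c : ℝ) (f), BZ f → m (fun n => c * f n) = c * m f
  nonneg : ∀ f, BZ f → (∀ n, 0 ≤ f n) → 0 ≤ m f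
  one : m (fun _ => 1) = 1
  shift : ∀ (t : ℤ) (f), BZ f → m (fun n => f (n + t)) = m f

lemma BZ.add {f g : ℤ → ℝ} (hf : BZ f) (hg : BZ g) : BZ (fun n => f n + g n) := by
  obtain ⟨C, hC⟩ := hf
  obtain ⟨D, hD⟩ := hg
  exact ⟨C + D, fun n => (abs_add_le _ _).trans (add_le_add (hC n) (hD n))⟩

lemma BZ.mul {f g : ℤ → ℝ} (hf : BZ f) (hg : BZ g) : BZ (fun n => f n * g n) := by
  obtain ⟨C, hC⟩ := hf
  obtain ⟨D, hD⟩ := hg
  refine ⟨C * D, fun n => ?_⟩
  rw [abs_mul]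
  exact mul_le_mul (hC n) (hD n) (abs_nonneg _) ((abs_nonneg _).trans (hC n))

lemma BZ.cmul {f : ℤ → ℝ} (c : ℝ) (hf : BZ f) : BZ (fun n => c * f n) := by
  obtain ⟨C, hC⟩ := hf
  refine ⟨|c| * C, fun n => ?_⟩
  rw [abs_mul]
  exact mul_le_mul_of_nonneg_left (hC n) (abs_nonneg c)

lemma BZ.const (c : ℝ) : BZ (fun _ => c) := ⟨|c|, fun _ => le_rfl⟩

lemma BZ.abs {f : ℤ → ℝ} (hf : BZ f) : BZ (fun n => |f n|) := by
  obtain ⟨C, hC⟩ := hf
  exact ⟨C, fun n => by rw [abs_abs]; exact hC n⟩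

lemma BZ.comp {f : ℤ → ℝ} (hf : BZ f) (g : ℤ → ℤ) : BZ (fun n => f (g n)) := by
  obtain ⟨C, hC⟩ := hf
  exact ⟨C, fun n => hC _⟩

lemma BZ.sum {ι : Type*} (s : Finset ι) {f : ι → ℤ → ℝ} (h : ∀ i ∈ s, BZ (f i)) :
    BZ (fun n => ∑ i ∈ s, f i n) := by
  classical
  induction s using Finset.induction_on with
  | empty => simpa using BZ.const 0
  | insert i s hi ih =>
    simp only [sum_insert hi]
    exact (h i (mem_insert_self _ _)).add (ih fun j hj => h j (mem_insert_of_mem hj))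

lemma BZ.of_le {f : ℤ → ℝ} (C : ℝ) (h : ∀ n, |f n| ≤ C) : BZ f := ⟨C, h⟩

lemma BZ.sub {f g : ℤ → ℝ} (hf : BZ f) (hg : BZ g) : BZ (fun n => f n - g n) := by
  have := hf.add (hg.cmul (-1))
  simpa [sub_eq_add_neg] using this

namespace IM

variable (μ : IM)

lemma zero : μ.m (fun _ => 0) = 0 := by
  have := μ.smul 0 (fun _ => 1) (BZ.const 1)
  simpa using this

lemma neg {f : ℤ → ℝ} (h : BZ f) : μ.m (fun n => - f n) = - μ.m f := by
  have := μ.smul (-1) f h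
  simpa using this

lemma sub {f g : ℤ → ℝ} (h1 : BZ f) (h2 : BZ g) : μ.m (fun n => f n - g n) = μ.m f - μ.m g := by
  have h3 : BZ (fun n => - g n) := by simpa using h2.cmul (-1)
  have := μ.add f (fun n => - g n) h1 h3
  rw [μ.neg h2] at this
  simpa [sub_eq_add_neg] using this

lemma mono {f g : ℤ → ℝ} (h1 : BZ f) (h2 : BZ g) (h : ∀ n, f n ≤ g n) : μ.m f ≤ μ.m g := by
  have h4 := μ.nonneg (fun n => g n - f n) (h2.sub h1) (fun n => sub_nonneg.2 (h n))
  rw [μ.sub h2 h1] at h4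
  linarith

lemma sum {ι : Type*} (s : Finset ι) {f : ι → ℤ → ℝ} (h : ∀ i ∈ s, BZ (f i)) :
    μ.m (fun n => ∑ i ∈ s, f i n) = ∑ i ∈ s, μ.m (f i) := by
  classical
  induction s using Finset.induction_on with
  | empty => simpa using μ.zero
  | insert i s hi ih =>
    simp only [sum_insert hi]
    have h1 : ∀ j ∈ s, BZ (f j) := fun j hj => h j (mem_insert_of_mem hj)
    rw [μ.add (f i) (fun n => ∑ j ∈ s, f j n) (h i (mem_insert_self _ _)) (BZ.sum s h1), ih h1]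

lemma const (c : ℝ) : μ.m (fun _ => c) = c := by
  have := μ.smul c (fun _ => 1) (BZ.const 1)
  rw [μ.one] at this
  simpa using this

lemma le_const {f : ℤ → ℝ} (hf : BZ f) (c : ℝ) (h : ∀ n, f n ≤ c) : μ.m f ≤ c := by
  have := μ.mono hf (BZ.const c) h
  rwa [μ.const] at this

lemma abs_le_const {f : ℤ → ℝ} (c : ℝ) (h : ∀ n, |f n| ≤ c) : |μ.m f| ≤ c := by
  have hf : BZ f := ⟨c, h⟩
  rw [abs_le]
  constructor
  · have := μ.mono (BZ.const (-c)) hf (fun n => (abs_le.1 (h n)).1)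
    rwa [μ.const] at this
  · exact μ.le_const hf c fun n => (abs_le.1 (h n)).2

end IM

/-! ## Displaced parallelograms -/

/-- four factors, at the points `p, q, r, s` -/
def X4 (F : ℤ → ℝ) (p q r s : ℤ) (n : ℤ) : ℝ := F (n + p) * F (n + q) * F (n + r) * F (n + s)

section disp

variable (μ : IM) (F : ℤ → ℝ) (hF : ∀ n, |F n| ≤ 1)
include hF

lemma X4_le (p q r s n : ℤ) : |X4 F p q r s n| ≤ 1 := by
  unfold X4
  rw [abs_mul, abs_mul, abs_mul]
  exact mul_le_one₀ (mul_le_one₀ (mul_le_one₀ (hF _) (abs_nonneg _) (hF _)) (abs_nonneg _) (hF _))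
    (abs_nonneg _) (hF _)

lemma X4_bd (p q r s : ℤ) : BZ (X4 F p q r s) := ⟨1, X4_le F hF p q r s⟩

lemma X4_abs (p q r s : ℤ) : |μ.m (X4 F p q r s)| ≤ 1 := μ.abs_le_const 1 (X4_le F hF p q r s)

lemma X4_shift (p q r s t : ℤ) : μ.m (X4 F (p + t) (q + t) (r + t) (s + t)) = μ.m (X4 F p q r s) := by
  rw [← μ.shift t _ (X4_bd F hF p q r s)]
  congr 1
  funext n
  unfold X4
  congr 1
  · congr 1
    · congr 1
      · congr 1; ring
      · congr 1; ring
    · congr 1; ring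
  · congr 1; ring

end disp

/-- the size of the average over displaced parallelograms with sides `s`, `y` and displacement `Δ` -/
noncomputable def GG (μ : IM) (F : ℤ → ℝ) (s y Δ : ℤ) : ℝ := |μ.m (X4 F 0 s y (s + y + Δ))|

/-- displaced parallelograms are small on average -/
def DispZ (μ : IM) (F : ℤ → ℝ) : Prop := ∀ Δ : ℤ, Δ ≠ 0 → ∀ ε : ℝ, 0 < ε → ∃ A₀ : ℕ, ∀ A : ℕ, A₀ ≤ A →
  ∑ s ∈ range A, ∑ y ∈ range A, GG μ F s y Δ ≤ ε * (A : ℝ) ^ 2

section disp2

variable (μ : IM) (F : ℤ → ℝ) (hF : ∀ n, |F n| ≤ 1)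
include hF

omit hF in
lemma GG_nonneg (s y Δ : ℤ) : 0 ≤ GG μ F s y Δ := abs_nonneg _

lemma GG_le (s y Δ : ℤ) : GG μ F s y Δ ≤ 1 := X4_abs μ F hF _ _ _ _

lemma GG_base (p s y Δ : ℤ) : |μ.m (X4 F p (p + s) (p + y) (p + (s + y + Δ)))| = GG μ F s y Δ := by
  unfold GG
  rw [← X4_shift μ F hF 0 s y (s + y + Δ) p]
  congr 3
  · ring
  · ring
  · ring
  · ring

omit hF in
lemma GG_symm (s y Δ : ℤ) : GG μ F s y Δ = GG μ F y s Δ := by
  unfold GG
  congr 2
  funext n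
  unfold X4
  rw [show y + s + Δ = s + y + Δ by ring]
  ring

lemma GG_neg1 (s y Δ : ℤ) : GG μ F (-s) y Δ = GG μ F s (y + Δ) (-Δ) := by
  unfold GG
  rw [← X4_shift μ F hF 0 (-s) y (-s + y + Δ) s]
  congr 2
  funext n
  unfold X4
  rw [show -s + s = 0 by ring, show -s + y + Δ + s = y + Δ by ring, show 0 + s = s by ring,
    show s + (y + Δ) + -Δ = y + s by ring]
  ring

lemma GG_neg2 (s y Δ : ℤ) : GG μ F s (-y) Δ = GG μ F (s + Δ) y (-Δ) := by
  rw [GG_symm, GG_neg1 μ F hF, GG_symm]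

lemma GG_neg12 (s y Δ : ℤ) : GG μ F (-s) (-y) Δ = GG μ F (s - Δ) (y - Δ) Δ := by
  rw [GG_neg1 μ F hF, show -y + Δ = -(y - Δ) by ring, GG_neg2 μ F hF, neg_neg]
  rfl

omit hF in
/-- shift of a sum over an interval -/
lemma sum_shift_le (g : ℤ → ℝ) (h0 : ∀ x, 0 ≤ g x) (h1 : ∀ x, g x ≤ 1) (A : ℕ) (t : ℤ) :
    ∑ y ∈ range A, g (y + t) ≤ ∑ y ∈ range A, g y + |(t : ℝ)| := by
  have e1 : ∑ y ∈ range A, g (y + t) = ∑ x ∈ Ico t (A + t), g x := by
    rw [← sum_image (s := range A) (f := g) (g := fun y : ℕ => (y : ℤ) + t) (by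
      intro a _ b _ h
      have : (a : ℤ) = b := by simpa using h
      exact_mod_cast this)]
    congr 1
    ext x
    simp only [mem_image, mem_range, mem_Ico]
    constructor
    · rintro ⟨a, ha, rfl⟩
      constructor <;> omega
    · rintro ⟨ha, hb⟩
      exact ⟨(x - t).toNat, by omega, by omega⟩
  have e2 : ∑ y ∈ range A, g y = ∑ x ∈ Ico (0 : ℤ) A, g x := by
    rw [← sum_image (s := range A) (f := g) (g := fun y : ℕ => (y : ℤ)) (by
      intro a _ b _ h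
      simpa using h)]
    congr 1
    ext x
    simp only [mem_image, mem_range, mem_Ico]
    constructor
    · rintro ⟨a, ha, rfl⟩
      constructor <;> omega
    · rintro ⟨ha, hb⟩
      exact ⟨x.toNat, by omega, by omega⟩
  rw [e1, e2]
  have h2 : ∑ x ∈ Ico t (A + t), g x ≤ ∑ x ∈ Ico (0 : ℤ) A ∪ (Ico t (A + t) \ Ico (0 : ℤ) A), g x := by
    apply sum_le_sum_of_subset_of_nonneg
    · intro x hx
      rw [mem_union, mem_sdiff]
      by_cases h : x ∈ Ico (0 : ℤ) A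
      · exact Or.inl h
      · exact Or.inr ⟨hx, h⟩
    · intro x _ _
      exact h0 x
  rw [sum_union disjoint_sdiff] at h2
  refine h2.trans (add_le_add le_rfl ?_)
  refine (sum_le_card_nsmul _ _ 1 fun x _ => h1 x).trans ?_
  rw [nsmul_eq_mul, mul_one]
  have h3 : (Ico t (A + t) \ Ico (0 : ℤ) A).card ≤ t.natAbs := by
    rcases le_total 0 t with h | h
    · have hsub : Ico t (A + t) \ Ico (0 : ℤ) A ⊆ Ico (A : ℤ) (A + t) := by
        intro x hx
        rw [mem_sdiff, mem_Ico, mem_Ico] at hx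
        rw [mem_Ico]
        omega
      refine (card_le_card hsub).trans ?_
      rw [Int.card_Ico]
      omega
    · have hsub : Ico t (A + t) \ Ico (0 : ℤ) A ⊆ Ico t 0 := by
        intro x hx
        rw [mem_sdiff, mem_Ico, mem_Ico] at hx
        rw [mem_Ico]
        omega
      refine (card_le_card hsub).trans ?_
      rw [Int.card_Ico]
      omega
  calc (((Ico t (A + t) \ Ico (0 : ℤ) A).card : ℕ) : ℝ) ≤ (t.natAbs : ℝ) := by exact_mod_cast h3
    _ = |(t : ℝ)| := by rw [← Int.cast_abs, Int.abs_eq_natAbs]; simp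

end disp2

end Pool.Agent.Helper47.Freq
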