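import Pool.Agent.Helper47.Freq.Exp

/-!
# Local Fourier coefficients: the upper bound by the filtered correlations (helper47)
-/

set_option autoImplicit false

namespace Pool.Agent.Helper47.Freq

open Finset
open scoped ComplexConjugate

/-- the local Fourier coefficient at `θ` of the window of length `L` at `n` -/
noncomputable def cc (F : ℤ → ℝ) (L : ℕ) (n : ℤ) (θ : UnitAddCircle) : ℂ :=
  (1 / (L : ℂ)) * ∑ m ∈ range L, (F (n + m) : ℂ) * fourier (-(m : ℤ)) θ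

/-- the transfer function of the filter -/
noncomputable def PP (φ : ℕ → ℂ) (J : ℕ) (θ : UnitAddCircle) : ℂ := ∑ j ∈ range J, φ j * fourier (-(j : ℤ)) θ

lemma nf (k : ℤ) (θ : UnitAddCircle) : ‖fourier k θ‖ = 1 := by
  rw [fourier_apply]
  exact Circle.norm_coe _

lemma fmul (k l : ℤ) (θ : UnitAddCircle) : (fourier k θ : ℂ) * fourier l θ = fourier (k + l) θ := fourier_add.symm

lemma shift_norm (g : ℤ → ℂ) (hg : ∀ x, ‖g x‖ ≤ 1) (L k : ℕ) :
    ‖∑ m ∈ range L, g (m + k) - ∑ m ∈ range L, g m‖ ≤ 2 * k := by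
  induction k with
  | zero => simp
  | succ k ih =>
    have h1 : ∑ m ∈ range L, g (m + ((k + 1 : ℕ) : ℤ)) = ∑ m ∈ range L, g (m + k) + (g (L + k) - g k) := by
      have e1 := sum_range_succ (fun m : ℕ => g ((m : ℤ) + k)) L
      have e2 := sum_range_succ' (fun m : ℕ => g ((m : ℤ) + k)) L
      have e3 : ∑ m ∈ range L, g (m + ((k + 1 : ℕ) : ℤ)) = ∑ m ∈ range L, g (((m + 1 : ℕ) : ℤ) + k) := by
        refine sum_congr rfl fun m _ => ?_
        congr 1
        push_cast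
        ring
      rw [e3]
      have e4 : g (((0 : ℕ) : ℤ) + k) = g k := by simp
      rw [e4] at e2
      have e5 := e1.symm.trans e2
      linear_combination -e5
    rw [h1, show ∑ m ∈ range L, g (m + k) + (g (L + k) - g k) - ∑ m ∈ range L, g m =
      (∑ m ∈ range L, g (m + k) - ∑ m ∈ range L, g m) + (g (L + k) - g k) by ring]
    refine (norm_add_le _ _).trans ?_
    have h2 : ‖g (L + k) - g k‖ ≤ 2 := (norm_sub_le _ _).trans (by linarith [hg (L + k), hg k])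
    push_cast
    linarith

section key

variable (F : ℤ → ℝ) (hF : ∀ n, |F n| ≤ 1)
include hF

lemma nF (x : ℤ) (k : ℤ) (θ : UnitAddCircle) : ‖(F x : ℂ) * fourier k θ‖ ≤ 1 := by
  rw [norm_mul, nf, mul_one, Complex.norm_real]
  exact hF x

lemma cc_le (L : ℕ) (n : ℤ) (θ : UnitAddCircle) : ‖cc F L n θ‖ ≤ 1 := by
  unfold cc
  rcases Nat.eq_zero_or_pos L with h0 | h0
  · subst h0; simp
  · have hL : (0 : ℝ) < L := by exact_mod_cast h0
    rw [norm_mul, norm_div, norm_one, Complex.norm_natCast, one_div, inv_mul_le_iff₀ hL]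
    refine (norm_sum_le _ _).trans ((sum_le_sum fun m _ => nF F hF _ _ _).trans ?_)
    simp

omit hF in
lemma PP_le (φ : ℕ → ℂ) (J : ℕ) (θ : UnitAddCircle) : ‖PP φ J θ‖ ≤ ∑ j ∈ range J, ‖φ j‖ := by
  unfold PP
  refine (norm_sum_le _ _).trans (sum_le_sum fun j _ => ?_)
  rw [norm_mul, nf, mul_one]

/-- translation of the window -/
lemma cc_shift (L k : ℕ) (hL : 1 ≤ L) (n : ℤ) (θ : UnitAddCircle) :
    ‖(fourier (-(k : ℤ)) θ : ℂ) * ((1 / (L : ℂ)) * ∑ m ∈ range L, (F (n + m + k) : ℂ) * fourier (-(m : ℤ)) θ) -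
      cc F L n θ‖ ≤ 2 * k / L := by
  have hL0 : (0 : ℝ) < L := by exact_mod_cast hL
  have h1 := shift_norm (fun x : ℤ => (F (n + x) : ℂ) * fourier (-x) θ) (fun x => nF F hF _ _ _) L k
  have e1 : (fourier (-(k : ℤ)) θ : ℂ) * ((1 / (L : ℂ)) * ∑ m ∈ range L, (F (n + m + k) : ℂ) * fourier (-(m : ℤ)) θ) -
      cc F L n θ = (1 / (L : ℂ)) * (∑ m ∈ range L, (F (n + (m + k)) : ℂ) * fourier (-((m : ℤ) + k)) θ -
        ∑ m ∈ range L, (F (n + m) : ℂ) * fourier (-(m : ℤ)) θ) := by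
    unfold cc
    rw [mul_sub]
    congr 1
    rw [mul_left_comm]
    congr 1
    rw [mul_sum]
    refine sum_congr rfl fun m _ => ?_
    rw [mul_left_comm, fmul, show -(k : ℤ) + -(m : ℤ) = -((m : ℤ) + k) by ring,
      show n + (m : ℤ) + k = n + (m + k) by ring]
  rw [e1, norm_mul, norm_div, norm_one, Complex.norm_natCast, one_div, inv_mul_le_iff₀ hL0]
  refine h1.trans (le_of_eq ?_)
  field_simp

/-- the conjugate form -/
lemma cc_shift' (L k : ℕ) (hL : 1 ≤ L) (n : ℤ) (θ : UnitAddCircle) :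
    ‖(fourier (k : ℤ) θ : ℂ) * ((1 / (L : ℂ)) * ∑ m ∈ range L, (F (n + m + k) : ℂ) * fourier (m : ℤ) θ) -
      conj (cc F L n θ)‖ ≤ 2 * k / L := by
  have h1 := cc_shift F hF L k hL n θ
  rw [← Complex.norm_conj] at h1
  have e1 : conj ((fourier (-(k : ℤ)) θ : ℂ) * ((1 / (L : ℂ)) * ∑ m ∈ range L, (F (n + m + k) : ℂ) *
      fourier (-(m : ℤ)) θ) - cc F L n θ) = (fourier (k : ℤ) θ : ℂ) * ((1 / (L : ℂ)) * ∑ m ∈ range L,
        (F (n + m + k) : ℂ) * fourier (m : ℤ) θ) - conj (cc F L n θ) := by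
    rw [map_sub, map_mul, map_mul, map_sum, ← fourier_neg, neg_neg]
    congr 2
    congr 1
    · simp
    · refine sum_congr rfl fun m _ => ?_
      rw [map_mul, Complex.conj_ofReal, ← fourier_neg, neg_neg]
  rwa [e1] at h1

/-- the filtered sequence -/
lemma vv_shift (φ : ℕ → ℂ) (J L H h : ℕ) (hL : 1 ≤ L) (hh : h < H) (n : ℤ) (θ : UnitAddCircle) :
    ‖(fourier (h : ℤ) θ : ℂ) * ((1 / (L : ℂ)) * ∑ m ∈ range L, vv φ J F (n + m + h) * fourier (m : ℤ) θ) -
      PP φ J θ * conj (cc F L n θ)‖ ≤ (∑ j ∈ range J, ‖φ j‖) * (2 * (H + J) / L) := by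
  have hL0 : (0 : ℝ) < L := by exact_mod_cast hL
  have e1 : (fourier (h : ℤ) θ : ℂ) * ((1 / (L : ℂ)) * ∑ m ∈ range L, vv φ J F (n + m + h) * fourier (m : ℤ) θ) -
      PP φ J θ * conj (cc F L n θ) = ∑ j ∈ range J, φ j * fourier (-(j : ℤ)) θ *
        ((fourier ((h + j : ℕ) : ℤ) θ : ℂ) * ((1 / (L : ℂ)) * ∑ m ∈ range L, (F (n + m + (h + j : ℕ)) : ℂ) *
          fourier (m : ℤ) θ) - conj (cc F L n θ)) := by
    unfold PP vv
    rw [sum_mul]
    simp only [mul_sub, sum_sub_distrib]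
    congr 1
    rw [show (∑ m ∈ range L, (∑ j ∈ range J, φ j * (F (n + m + h + j) : ℂ)) * fourier (m : ℤ) θ) =
      ∑ j ∈ range J, φ j * ∑ m ∈ range L, (F (n + m + (h + j : ℕ)) : ℂ) * fourier (m : ℤ) θ from by
        simp only [sum_mul, mul_sum]
        rw [sum_comm]
        refine sum_congr rfl fun j _ => sum_congr rfl fun m _ => ?_
        rw [show n + (m : ℤ) + ((h + j : ℕ) : ℤ) = n + m + h + j by push_cast; ring]
        ring]
    rw [mul_sum, mul_sum]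
    refine sum_congr rfl fun j _ => ?_
    have e2 : (fourier (h : ℤ) θ : ℂ) = fourier (-(j : ℤ)) θ * fourier ((h + j : ℕ) : ℤ) θ := by
      rw [fmul]
      congr 2
      push_cast
      ring
    rw [e2]
    ring
  rw [e1]
  refine (norm_sum_le _ _).trans ?_
  rw [sum_mul]
  refine sum_le_sum fun j hj => ?_
  rw [mem_range] at hj
  rw [norm_mul, norm_mul, nf, mul_one]
  refine mul_le_mul_of_nonneg_left ((cc_shift' F hF L (h + j) hL n θ).trans ?_) (norm_nonneg _)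
  refine div_le_div_of_nonneg_right ?_ hL0.le
  have h1 : (h : ℝ) ≤ H := by exact_mod_cast hh.le
  have h2 : (j : ℝ) ≤ J := by exact_mod_cast hj.le
  push_cast
  linarith

/-- the local Fourier coefficients are bounded by the filtered correlations -/
theorem key1 (φ : ℕ → ℂ) (J L H : ℕ) (hL : 1 ≤ L) (hH : 1 ≤ H) (n : ℤ) (θ : UnitAddCircle) :
    ‖cc F L n θ‖ ^ 4 * ‖PP φ J θ‖ ^ 2 ≤ QQ F φ J L H n + 8 * (∑ j ∈ range J, ‖φ j‖) ^ 2 * ((H + J) / L) := by
  have hL0 : (0 : ℝ) < L := by exact_mod_cast hL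
  have hH0 : (0 : ℝ) < H := by exact_mod_cast hH
  have hLc : (L : ℂ) ≠ 0 := by exact_mod_cast hL0.ne'
  have hHc : (H : ℂ) ≠ 0 := by exact_mod_cast hH0.ne'
  set N1 : ℝ := ∑ j ∈ range J, ‖φ j‖ with hN1
  have hN1' : 0 ≤ N1 := sum_nonneg fun _ _ => norm_nonneg _
  set c := cc F L n θ with hc
  set P := PP φ J θ with hP
  have hc1 : ‖c‖ ≤ 1 := cc_le F hF L n θ
  have hP1 : ‖P‖ ≤ N1 := PP_le φ J θ
  set A : ℕ → ℂ := fun h => (1 / (L : ℂ)) * ∑ m ∈ range L, (F (n + m + h) : ℂ) * fourier (-(m : ℤ)) θ with hA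
  set V : ℕ → ℂ := fun h => (1 / (L : ℂ)) * ∑ m ∈ range L, vv φ J F (n + m + h) * fourier (m : ℤ) θ with hV
  set z : ℂ := (1 / (H : ℂ)) * ∑ h ∈ range H, A h * V h with hz
  set η : ℝ := 4 * N1 * ((H + J) / L) with hη
  have hη0 : 0 ≤ η := by positivity
  -- the correlation of the two transforms
  have h1 : ∀ h ∈ range H, ‖A h * V h - c * (P * conj c)‖ ≤ η := by
    intro h hh
    rw [mem_range] at hh
    have e1 : A h * V h = ((fourier (-(h : ℤ)) θ : ℂ) * A h) * ((fourier (h : ℤ) θ : ℂ) * V h) := by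
      have : (fourier (-(h : ℤ)) θ : ℂ) * fourier (h : ℤ) θ = 1 := by
        rw [fmul]
        simp
      linear_combination -(A h * V h) * this
    have a1 := cc_shift F hF L h hL n θ
    have a2 := vv_shift F hF φ J L H h hL hh n θ
    have a3 : ‖(fourier (h : ℤ) θ : ℂ) * V h‖ ≤ N1 := by
      rw [norm_mul, nf, one_mul, hV]
      simp only
      rw [norm_mul, norm_div, norm_one, Complex.norm_natCast, one_div, inv_mul_le_iff₀ hL0]
      refine (norm_sum_le _ _).trans ((sum_le_sum (g := fun _ => N1) fun m _ => ?_).trans ?_)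
      · rw [norm_mul, nf, mul_one]
        unfold vv
        refine (norm_sum_le _ _).trans (sum_le_sum fun j _ => ?_)
        rw [norm_mul, Complex.norm_real]
        exact mul_le_of_le_one_right (norm_nonneg _) (hF _)
      · rw [sum_const, card_range, nsmul_eq_mul]
    rw [e1]
    have e2 : ((fourier (-(h : ℤ)) θ : ℂ) * A h) * ((fourier (h : ℤ) θ : ℂ) * V h) - c * (P * conj c) =
        ((fourier (-(h : ℤ)) θ : ℂ) * A h - c) * ((fourier (h : ℤ) θ : ℂ) * V h) +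
          c * ((fourier (h : ℤ) θ : ℂ) * V h - P * conj c) := by ring
    rw [e2]
    refine (norm_add_le _ _).trans ?_
    rw [norm_mul (_ - c) _, norm_mul c _]
    have a4 : ‖(fourier (-(h : ℤ)) θ : ℂ) * A h - c‖ ≤ 2 * (H + J) / L := by
      refine a1.trans (div_le_div_of_nonneg_right ?_ hL0.le)
      have : (h : ℝ) ≤ H := by exact_mod_cast hh.le
      have : (0 : ℝ) ≤ J := Nat.cast_nonneg J
      linarith
    have a5 : ‖(fourier (-(h : ℤ)) θ : ℂ) * A h - c‖ * ‖(fourier (h : ℤ) θ : ℂ) * V h‖ ≤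
        2 * (H + J) / L * N1 := mul_le_mul a4 a3 (norm_nonneg _) (by positivity)
    have a6 : ‖c‖ * ‖(fourier (h : ℤ) θ : ℂ) * V h - P * conj c‖ ≤ 1 * (N1 * (2 * (H + J) / L)) :=
      mul_le_mul hc1 a2 (norm_nonneg _) zero_le_one
    refine (add_le_add a5 a6).trans (le_of_eq ?_)
    rw [hη]
    ring
  have h2 : ‖z - c * (P * conj c)‖ ≤ η := by
    have e1 : z - c * (P * conj c) = (1 / (H : ℂ)) * ∑ h ∈ range H, (A h * V h - c * (P * conj c)) := by
      rw [sum_sub_distrib, sum_const, card_range, nsmul_eq_mul, mul_sub, hz]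
      congr 1
      field_simp
    rw [e1, norm_mul, norm_div, norm_one, Complex.norm_natCast, one_div, inv_mul_le_iff₀ hH0]
    refine (norm_sum_le _ _).trans ((sum_le_sum h1).trans ?_)
    rw [sum_const, card_range, nsmul_eq_mul]
  -- Cauchy-Schwarz
  have h3 : ‖z‖ ^ 2 ≤ QQ F φ J L H n := by
    have e1 : z = (1 / (L : ℂ) ^ 2) * ∑ q ∈ range L ×ˢ range L, (fourier (-(q.1 : ℤ)) θ * fourier (q.2 : ℤ) θ) *
        ((1 / (H : ℂ)) * ∑ h ∈ range H, (F (n + q.1 + h) : ℂ) * vv φ J F (n + q.2 + h)) := by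
      rw [sum_product, hz]
      simp only [hA, hV, mul_sum, sum_mul]
      rw [sum_comm]
      refine (sum_congr rfl fun y _ => sum_comm).trans ?_
      rw [sum_comm]
      refine sum_congr rfl fun x _ => sum_congr rfl fun i _ => sum_congr rfl fun y _ => ?_
      ring
    rw [e1, norm_mul, norm_div, norm_one, norm_pow, Complex.norm_natCast, mul_pow]
    have h4 : ‖∑ q ∈ range L ×ˢ range L, (fourier (-(q.1 : ℤ)) θ * fourier (q.2 : ℤ) θ) *
        ((1 / (H : ℂ)) * ∑ h ∈ range H, (F (n + q.1 + h) : ℂ) * vv φ J F (n + q.2 + h))‖ ^ 2 ≤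
        (L : ℝ) ^ 2 * ∑ q ∈ range L ×ˢ range L,
          ‖(1 / (H : ℂ)) * ∑ h ∈ range H, (F (n + q.1 + h) : ℂ) * vv φ J F (n + q.2 + h)‖ ^ 2 := by
      have h5 := norm_sum_le (range L ×ˢ range L) (fun q => ((fourier (-(q.1 : ℤ)) θ : ℂ) * fourier (q.2 : ℤ) θ) *
        ((1 / (H : ℂ)) * ∑ h ∈ range H, (F (n + q.1 + h) : ℂ) * vv φ J F (n + q.2 + h)))
      have h6 := sq_sum_le_card_mul_sum_sq (s := range L ×ˢ range L) (f := fun q =>
        ‖((fourier (-(q.1 : ℤ)) θ : ℂ) * fourier (q.2 : ℤ) θ) *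
        ((1 / (H : ℂ)) * ∑ h ∈ range H, (F (n + q.1 + h) : ℂ) * vv φ J F (n + q.2 + h))‖)
      refine (pow_le_pow_left₀ (norm_nonneg _) h5 2).trans (h6.trans (le_of_eq ?_))
      rw [card_product, card_range]
      push_cast
      rw [← sq]
      congr 1
      refine sum_congr rfl fun q _ => ?_
      rw [norm_mul, norm_mul, nf, nf, one_mul, one_mul]
    unfold QQ
    rw [← sum_product']
    calc (1 / (L : ℝ) ^ 2) ^ 2 * ‖∑ q ∈ range L ×ˢ range L, (fourier (-(q.1 : ℤ)) θ * fourier (q.2 : ℤ) θ) *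
        ((1 / (H : ℂ)) * ∑ h ∈ range H, (F (n + q.1 + h) : ℂ) * vv φ J F (n + q.2 + h))‖ ^ 2 ≤
        (1 / (L : ℝ) ^ 2) ^ 2 * ((L : ℝ) ^ 2 * ∑ q ∈ range L ×ˢ range L,
          ‖(1 / (H : ℂ)) * ∑ h ∈ range H, (F (n + q.1 + h) : ℂ) * vv φ J F (n + q.2 + h)‖ ^ 2) :=
          mul_le_mul_of_nonneg_left h4 (by positivity)
      _ = _ := by
          field_simp
  -- conclusion
  have h4 : ‖c‖ ^ 4 * ‖P‖ ^ 2 = ‖c * (P * conj c)‖ ^ 2 := by
    rw [norm_mul, norm_mul, Complex.norm_conj]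
    ring
  rw [h4]
  set x := ‖c * (P * conj c)‖ with hx
  have hx1 : x ≤ N1 := by
    rw [hx, norm_mul, norm_mul, Complex.norm_conj]
    calc ‖c‖ * (‖P‖ * ‖c‖) ≤ 1 * (N1 * 1) := by gcongr
      _ = N1 := by ring
  have hx0 : 0 ≤ x := norm_nonneg _
  have hxz : x ≤ ‖z‖ + η := by
    have : x ≤ ‖z‖ + ‖z - c * (P * conj c)‖ := by
      rw [hx]
      have := norm_sub_le z (z - c * (P * conj c))
      rwa [sub_sub_cancel] at this
    linarith
  have hz0 : 0 ≤ ‖z‖ := norm_nonneg _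
  have h5 : x ^ 2 ≤ ‖z‖ ^ 2 + 2 * N1 * η := by
    rcases le_total x ‖z‖ with h | h
    · have : x ^ 2 ≤ ‖z‖ ^ 2 := pow_le_pow_left₀ hx0 h 2
      have : 0 ≤ 2 * N1 * η := by positivity
      linarith
    · nlinarith
  calc x ^ 2 ≤ ‖z‖ ^ 2 + 2 * N1 * η := h5
    _ ≤ QQ F φ J L H n + 8 * N1 ^ 2 * ((H + J) / L) := by
      rw [hη]
      have e : 2 * N1 * (4 * N1 * (((H : ℝ) + J) / L)) = 8 * N1 ^ 2 * ((H + J) / L) := by ring
      linarith

/-- long windows and short windows -/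
theorem subwin (H K : ℕ) (hH : 1 ≤ H) (hK : 1 ≤ K) (n : ℤ) (θ : UnitAddCircle) :
    ‖cc F H n θ‖ ≤ (1 / (H : ℝ)) * ∑ i ∈ range H, ‖cc F K (n + i) θ‖ + 2 * K / H := by
  have hH0 : (0 : ℝ) < H := by exact_mod_cast hH
  have hK0 : (0 : ℝ) < K := by exact_mod_cast hK
  have hHc : (H : ℂ) ≠ 0 := by exact_mod_cast hH0.ne'
  have hKc : (K : ℂ) ≠ 0 := by exact_mod_cast hK0.ne'
  set g : ℤ → ℂ := fun x => (F (n + x) : ℂ) * fourier (-x) θ with hg
  have h1 : ∀ k ∈ range K, ‖∑ i ∈ range H, g (i + k) - ∑ i ∈ range H, g i‖ ≤ 2 * K := by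
    intro k hk
    rw [mem_range] at hk
    refine (shift_norm g (fun x => nF F hF _ _ _) H k).trans ?_
    have : (k : ℝ) ≤ K := by exact_mod_cast hk.le
    linarith
  have e1 : (H : ℂ) * cc F H n θ = ∑ i ∈ range H, g i := by
    unfold cc
    rw [← mul_assoc, mul_one_div_cancel hHc, one_mul]
  have e2 : ∑ i ∈ range H, (fourier (-(i : ℤ)) θ : ℂ) * cc F K (n + i) θ =
      (1 / (K : ℂ)) * ∑ k ∈ range K, ∑ i ∈ range H, g (i + k) := by
    unfold cc
    simp only [mul_sum]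
    rw [sum_comm]
    refine sum_congr rfl fun k _ => sum_congr rfl fun i _ => ?_
    rw [hg]
    simp only
    rw [show -((i : ℤ) + k) = -(i : ℤ) + -(k : ℤ) by ring, ← fmul, show n + ((i : ℤ) + k) = n + i + k by ring]
    ring
  have h2 : ‖∑ i ∈ range H, (fourier (-(i : ℤ)) θ : ℂ) * cc F K (n + i) θ - (H : ℂ) * cc F H n θ‖ ≤ 2 * K := by
    have e3 : ∑ i ∈ range H, (fourier (-(i : ℤ)) θ : ℂ) * cc F K (n + i) θ - (H : ℂ) * cc F H n θ =
        (1 / (K : ℂ)) * ∑ k ∈ range K, (∑ i ∈ range H, g (i + k) - ∑ i ∈ range H, g i) := by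
      rw [e1, e2, sum_sub_distrib, sum_const, card_range, nsmul_eq_mul, mul_sub]
      congr 1
      field_simp
    rw [e3, norm_mul, norm_div, norm_one, Complex.norm_natCast, one_div, inv_mul_le_iff₀ hK0]
    refine (norm_sum_le _ _).trans ((sum_le_sum h1).trans ?_)
    rw [sum_const, card_range, nsmul_eq_mul]
  have h3 : ‖(H : ℂ) * cc F H n θ‖ ≤ ∑ i ∈ range H, ‖cc F K (n + i) θ‖ + 2 * K := by
    have h4 := norm_sub_norm_le ((H : ℂ) * cc F H n θ) (∑ i ∈ range H, (fourier (-(i : ℤ)) θ : ℂ) * cc F K (n + i) θ)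
    rw [norm_sub_rev] at h4
    have h5 : ‖∑ i ∈ range H, (fourier (-(i : ℤ)) θ : ℂ) * cc F K (n + i) θ‖ ≤ ∑ i ∈ range H, ‖cc F K (n + i) θ‖ := by
      refine (norm_sum_le _ _).trans (le_of_eq ?_)
      refine sum_congr rfl fun i _ => ?_
      rw [norm_mul, nf, one_mul]
    linarith
  rw [norm_mul, Complex.norm_natCast] at h3
  rw [one_div, ← div_eq_inv_mul, ← add_div, le_div_iff₀ hH0]
  linarith

/-- the local Fourier coefficients are equicontinuous -/
lemma cc_cont (K : ℕ) (hK : 1 ≤ K) (ε : ℝ) (hε : 0 < ε) : ∃ η : ℝ, 0 < η ∧ ∀ θ θ' : UnitAddCircle,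
    dist θ θ' < η → ∀ n : ℤ, ‖cc F K n θ - cc F K n θ'‖ ≤ ε := by
  have hK0 : (0 : ℝ) < K := by exact_mod_cast hK
  have h1 : Continuous (fun θ : UnitAddCircle => fun m : Fin K => (fourier (-(m : ℤ)) θ : ℂ)) :=
    continuous_pi fun m => ContinuousMap.continuous _
  have h2 := CompactSpace.uniformContinuous_of_continuous h1
  rw [Metric.uniformContinuous_iff] at h2
  obtain ⟨η, hη, h3⟩ := h2 ε hε
  refine ⟨η, hη, fun θ θ' hd n => ?_⟩
  have h4 := h3 hd
  have e1 : cc F K n θ - cc F K n θ' = (1 / (K : ℂ)) * ∑ m ∈ range K, (F (n + m) : ℂ) *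
      (fourier (-(m : ℤ)) θ - fourier (-(m : ℤ)) θ') := by
    unfold cc
    rw [← mul_sub, ← sum_sub_distrib]
    simp only [mul_sub]
  rw [e1, norm_mul, norm_div, norm_one, Complex.norm_natCast, one_div, inv_mul_le_iff₀ hK0]
  refine (norm_sum_le _ _).trans ((sum_le_sum (g := fun _ => ε) fun m hm => ?_).trans ?_)
  · rw [mem_range] at hm
    rw [norm_mul, Complex.norm_real]
    have h5 : ‖(fourier (-(m : ℤ)) θ : ℂ) - fourier (-(m : ℤ)) θ'‖ ≤ ε := by
      have := dist_le_pi_dist (fun m : Fin K => (fourier (-(m : ℤ)) θ : ℂ)) (fun m : Fin K => (fourier (-(m : ℤ)) θ' : ℂ))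
        ⟨m, hm⟩
      rw [dist_eq_norm] at this
      exact this.trans h4.le
    calc ‖F (n + m)‖ * ‖(fourier (-(m : ℤ)) θ : ℂ) - fourier (-(m : ℤ)) θ'‖ ≤ 1 * ε :=
          mul_le_mul (hF _) h5 (norm_nonneg _) zero_le_one
      _ = ε := one_mul _
  · rw [sum_const, card_range, nsmul_eq_mul]

end key

end Pool.Agent.Helper47.Freq
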