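import Pool.Agent.Helper47.Freq.Long
import Pool.Agent.Y956.CB.Fin
import Pool.Agent.Y956.CM.Furst

/-!
# Displaced parallelograms for logarithmic means (helper47)
-/

set_option autoImplicit false

namespace Pool.Agent.Helper47.Freq

open Finset Filter
open Pool.Agent.TH112.BL (LM)
open Pool.Agent.TH823.MRS (ExpoSmall)
open Pool.Agent.Y956.CB (Mu eeLM corr Z MR vt mc LPer)

lemma BZ.toBd {f : ℤ → ℝ} (h : BZ f) : Pool.Agent.TH112.BL.Bd (fun n : ℕ => f n) := by
  obtain ⟨C, hC⟩ := h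
  exact ⟨C, fun n => hC _⟩

/-- from means on the natural numbers to means on the integers -/
noncomputable def toIM (μ : LM) : IM where
  m := fun f => μ.m (fun n : ℕ => f n)
  add := fun f g hf hg => μ.add _ _ hf.toBd hg.toBd
  smul := fun c f hf => μ.smul c _ hf.toBd
  nonneg := fun f hf h => μ.nonneg _ hf.toBd fun n => h n
  one := μ.one
  shift := by
    intro t f hf
    obtain ⟨k, hk | hk⟩ := t.eq_nat_or_neg
    · subst hk
      have h1 := μ.shiftk k (φ := fun n : ℕ => f n) hf.toBd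
      rw [← h1]
      congr 1
    · subst hk
      have h1 := μ.shiftk k (φ := fun n : ℕ => f ((n : ℤ) + -(k : ℤ))) (hf.comp (fun n => n + -(k : ℤ))).toBd
      rw [← h1]
      congr 1
      funext n
      congr 1
      push_cast
      ring

lemma ext_cast (f : ℕ → ℝ) (x : ℤ) (m : ℕ) (h : x = m) : ext f x = f m := by
  rw [h, ext_nat]

lemma GG_nat (μ : LM) {f : ℕ → ℝ} (hf : ∀ n, |f n| ≤ 1) (s y a b : ℕ) :
    GG (toIM μ) (ext f) s y ((a : ℤ) - b) =
      |μ.m (fun n => f (n + b) * f (n + b + s) * f (n + b + y) * f (n + a + (s + y)))| := by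
  unfold GG
  rw [← X4_shift (toIM μ) (ext f) (ext_le hf) _ _ _ _ b]
  congr 1
  show μ.m _ = μ.m _
  congr 1
  funext n
  unfold X4
  rw [ext_cast f _ (n + b) (by push_cast; ring), ext_cast f _ (n + b + s) (by push_cast; ring),
    ext_cast f _ (n + b + y) (by push_cast; ring), ext_cast f _ (n + a + (s + y)) (by push_cast; ring)]

lemma prod2 (G : Finset (Fin 2) → ℝ) : ∏ t ∈ (univ : Finset (Finset (Fin 2))).erase univ, G t =
    G ∅ * G {0} * G {1} := by
  have h : (univ : Finset (Finset (Fin 2))).erase univ = {∅, {0}, {1}} := by decide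
  rw [h, prod_insert (by decide), prod_insert (by decide), prod_singleton]
  ring

lemma sum2 (H : ℕ) (G : ℕ → ℕ → ℝ) : ∑ h : Fin 2 → Fin H, G (h 0) (h 1) = ∑ s ∈ range H, ∑ y ∈ range H, G s y := by
  rw [Fintype.sum_equiv (finTwoArrowEquiv (Fin H)) (fun h => G (h 0) (h 1)) (fun p => G p.1 p.2) (fun h => by simp),
    Fintype.sum_prod_type, ← Fin.sum_univ_eq_sum_range (fun s => ∑ y ∈ range H, G s y) H]
  refine sum_congr rfl fun s _ => ?_
  rw [← Fin.sum_univ_eq_sum_range (fun y => G s y) H]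

lemma split_int (Δ : ℤ) (hΔ : Δ ≠ 0) : ∃ a b : ℕ, a ≠ b ∧ Δ = (a : ℤ) - b := by
  refine ⟨Δ.toNat, (-Δ).toNat, ?_, ?_⟩ <;> omega

/-- displaced parallelograms for the Liouville and Möbius functions -/
theorem disp_Z (μ : LM) (F : ℕ → ℤ) (hF : Mu F) (hE : ExpoSmall (fun n => ((F n : ℤ) : ℂ))) :
    DispZ (toIM (eeLM μ)) (ext (fun n => (F n : ℝ))) := by
  have hf : ∀ n, |((F n : ℤ) : ℝ)| ≤ 1 := fun n => Pool.Agent.Y956.CB.R1 hF n
  intro Δ hΔ ε hε
  obtain ⟨a, b, hab, rfl⟩ := split_int Δ hΔ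
  obtain ⟨H₂, _, h2⟩ := Pool.Agent.Y956.CB.mean_Z μ F hF hE 2 (by norm_num) a b hab ε hε
  refine ⟨H₂ + 1, fun H hH => ?_⟩
  have hH0 : (0 : ℝ) < H := by exact_mod_cast (by omega : 0 < H)
  have h3 := h2 H (by omega)
  set g : ℕ → ℕ → ℕ → ℝ := fun s y n => (F (n + b) : ℝ) * (F (n + b + s) : ℝ) * (F (n + b + y) : ℝ) *
    (F (n + a + (s + y)) : ℝ) with hg
  have hg1 : ∀ s y n, |g s y n| ≤ 1 := by
    intro s y n
    rw [hg]
    simp only
    rw [abs_mul, abs_mul, abs_mul]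
    exact mul_le_one₀ (mul_le_one₀ (mul_le_one₀ (hf _) (abs_nonneg _) (hf _)) (abs_nonneg _) (hf _))
      (abs_nonneg _) (hf _)
  have hgb : ∀ s y, Pool.Agent.TH112.BL.Bd (g s y) := fun s y => ⟨1, hg1 s y⟩
  have heb : ∀ s y, Pool.Agent.TH112.BL.Bd (Pool.Agent.Y956.CB.ee (g s y)) := fun s y =>
    Pool.Agent.Y956.CB.ee_bd (hgb s y)
  have hcorr : ∀ (h : Fin 2 → ℕ) (x : ℕ), corr F 2 a b h x = (1 / (x : ℝ)) * ∑ n ∈ Icc 1 x, g (h 0) (h 1) n := by
    intro h x
    unfold corr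
    congr 1
    refine sum_congr rfl fun n _ => ?_
    rw [prod2]
    simp only [sum_empty, sum_singleton, Fin.sum_univ_two, hg]
    ring_nf
  have hce : ∀ (s y x : ℕ), 1 ≤ x → |Pool.Agent.Y956.CB.ee (g s y) x| ≤
      |(1 / (x : ℝ)) * ∑ n ∈ Icc 1 x, g s y n| + 2 / x := by
    intro s y x hx
    have hx0 : (0 : ℝ) < x := by exact_mod_cast hx
    unfold Pool.Agent.Y956.CB.ee
    have e3 : ∑ n ∈ Icc 1 x, g s y n = ∑ n ∈ range x, g s y (n + 1) := by
      rw [range_eq_Ico, sum_Ico_add' (g s y) 0 x 1]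
      rfl
    have e1 := sum_range_succ (g s y) x
    have e2 := sum_range_succ' (g s y) x
    have e4 : (1 / (x : ℝ)) * ∑ n ∈ range x, g s y n = (1 / (x : ℝ)) * ∑ n ∈ Icc 1 x, g s y n +
        (1 / (x : ℝ)) * (g s y 0 - g s y x) := by
      rw [e3, ← mul_add]
      congr 1
      linarith
    rw [e4]
    refine (abs_add_le _ _).trans (add_le_add le_rfl ?_)
    rw [abs_mul, abs_of_nonneg (by positivity : (0 : ℝ) ≤ 1 / (x : ℝ))]
    have h5 : |g s y 0 - g s y x| ≤ 2 := (abs_sub _ _).trans (by linarith [hg1 s y 0, hg1 s y x])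
    calc 1 / (x : ℝ) * |g s y 0 - g s y x| ≤ 1 / (x : ℝ) * 2 := mul_le_mul_of_nonneg_left h5 (by positivity)
      _ = 2 / x := by ring
  have hGG : ∀ s y : ℕ, GG (toIM (eeLM μ)) (ext (fun n => (F n : ℝ))) s y ((a : ℤ) - b) ≤
      μ.m (fun x => |Pool.Agent.Y956.CB.ee (g s y) x|) := by
    intro s y
    rw [GG_nat (eeLM μ) hf]
    show |μ.m (Pool.Agent.Y956.CB.ee (g s y))| ≤ _
    exact μ.abs_le (heb s y)
  have habs : ∀ s ∈ range H, ∀ y ∈ range H, Pool.Agent.TH112.BL.Bd (fun x => |Pool.Agent.Y956.CB.ee (g s y) x|) :=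
    fun s _ y _ => (heb s y).abs
  calc ∑ s ∈ range H, ∑ y ∈ range H, GG (toIM (eeLM μ)) (ext (fun n => (F n : ℝ))) s y ((a : ℤ) - b)
      ≤ ∑ s ∈ range H, ∑ y ∈ range H, μ.m (fun x => |Pool.Agent.Y956.CB.ee (g s y) x|) :=
        sum_le_sum fun s _ => sum_le_sum fun y _ => hGG s y
    _ = μ.m (fun x => ∑ s ∈ range H, ∑ y ∈ range H, |Pool.Agent.Y956.CB.ee (g s y) x|) := by
        rw [μ.sum _ fun s hs => Pool.Agent.TH112.BL.Bd.sum _ fun y hy => habs s hs y hy]
        refine sum_congr rfl fun s hs => ?_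
        rw [μ.sum _ fun y hy => habs s hs y hy]
    _ ≤ ε * (H : ℝ) ^ 2 := by
        have hb1 : Pool.Agent.TH112.BL.Bd (fun x => ∑ s ∈ range H, ∑ y ∈ range H, |Pool.Agent.Y956.CB.ee (g s y) x|) :=
          Pool.Agent.TH112.BL.Bd.sum _ fun s hs => Pool.Agent.TH112.BL.Bd.sum _ fun y hy => habs s hs y hy
        have hZb : Pool.Agent.TH112.BL.Bd (Z F 2 a b H) := Pool.Agent.Y956.CB.Z_bd hF 2 a b H
        have hb2 : Pool.Agent.TH112.BL.Bd (fun x => (H : ℝ) ^ 2 * Z F 2 a b H x) := hZb.cmul _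
        have h4 := Pool.Agent.Y956.CB.lm_small_le μ
          (φ := fun x => (∑ s ∈ range H, ∑ y ∈ range H, |Pool.Agent.Y956.CB.ee (g s y) x|) - (H : ℝ) ^ 2 * Z F 2 a b H x)
          (K := 2 * (H : ℝ) ^ 2) (Pool.Agent.Y956.CB.Bd.sub' hb1 hb2) (by positivity) 0 (by
            intro x hx
            have hx0 : (0 : ℝ) < x := by exact_mod_cast hx
            have e1 : (H : ℝ) ^ 2 * Z F 2 a b H x = ∑ s ∈ range H, ∑ y ∈ range H,
                |(1 / (x : ℝ)) * ∑ n ∈ Icc 1 x, g s y n| := by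
              unfold Z
              rw [← mul_assoc, mul_one_div_cancel (by positivity), one_mul]
              rw [← sum2 H (fun s y => |(1 / (x : ℝ)) * ∑ n ∈ Icc 1 x, g s y n|)]
              refine sum_congr rfl fun h _ => ?_
              rw [hcorr]
            rw [e1, ← sum_sub_distrib]
            have h5 : ∀ s ∈ range H, (∑ y ∈ range H, |Pool.Agent.Y956.CB.ee (g s y) x| -
                ∑ y ∈ range H, |(1 / (x : ℝ)) * ∑ n ∈ Icc 1 x, g s y n|) ≤ H * (2 / x) := by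
              intro s _
              rw [← sum_sub_distrib]
              refine (sum_le_sum (g := fun _ => 2 / (x : ℝ)) fun y _ => ?_).trans ?_
              · linarith [hce s y x hx]
              · rw [sum_const, card_range, nsmul_eq_mul]
            refine (sum_le_sum h5).trans (le_of_eq ?_)
            rw [sum_const, card_range, nsmul_eq_mul]
            ring)
        rw [μ.sub hb1 hb2, μ.smul _ _ hZb] at h4
        have h5 : (H : ℝ) ^ 2 * μ.m (Z F 2 a b H) ≤ (H : ℝ) ^ 2 * ε := mul_le_mul_of_nonneg_left h3 (by positivity)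
        linarith

/-- displaced parallelograms for aperiodic real multiplicative functions -/
theorem disp_R (μ : LM) (hμ : Pool.Agent.Y956.CM.Dom (eeLM μ)) (v : ℕ → ℝ) (hv : MR v)
    (ha : Pool.Agent.Y956.CM.AperR v) : DispZ (toIM (eeLM μ)) (ext v) := by
  intro Δ hΔ ε hε
  obtain ⟨a, b, hab, rfl⟩ := split_int Δ hΔ
  have hg : ∀ _j : Unit, Pool.Agent.Y956.CB.Mult1 (fun n => ((v n : ℝ) : ℂ)) := by
    intro _
    refine ⟨fun n => ?_, fun m n hm hn hc => ?_⟩
    · rw [Complex.norm_real]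
      exact hv.1 n
    · show ((v (m * n) : ℝ) : ℂ) = ((v m : ℝ) : ℂ) * ((v n : ℝ) : ℂ)
      rw [hv.2 m n hm hn hc]
      push_cast
      rfl
  obtain ⟨H₂, h2⟩ := Pool.Agent.Y956.CM.mean_R μ hμ (fun _ : Unit => fun n => ((v n : ℝ) : ℂ)) hg v hv ha 2
    (by norm_num) 1 le_rfl a b hab univ (fun _ => ()) (fun _ => 1)
    ⟨fun n => by simp, fun ε' hε' => ⟨1, le_rfl, fun _ => 1, fun n => by simp, fun n => rfl, 0, fun x _ hx => by
      simp
      exact hε'.le⟩⟩ ε hε
  refine ⟨H₂ + 1, fun H hH => ?_⟩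
  have hH0 : (0 : ℝ) < H := by exact_mod_cast (by omega : 0 < H)
  have h3 := h2 H (by omega)
  have e1 : ∀ h : Fin 2 → Fin H, ‖mc (eeLM μ) (vt (fun _ => 1) univ (fun _ => fun n => ((v n : ℝ) : ℂ)) v 1 a b
      (fun i => (h i : ℕ)))‖ = GG (toIM (eeLM μ)) (ext v) ((h 0 : ℕ) : ℤ) ((h 1 : ℕ) : ℤ) ((a : ℤ) - b) := by
    intro h
    rw [GG_nat (eeLM μ) hv.1]
    have e2 : vt (fun _ => 1) univ (fun _ => fun n => ((v n : ℝ) : ℂ)) v 1 a b (fun i => (h i : ℕ)) =
        fun n => ((v (n + b) * v (n + b + (h 0 : ℕ)) * v (n + b + (h 1 : ℕ)) * v (n + a + ((h 0 : ℕ) + (h 1 : ℕ))) : ℝ) : ℂ) := by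
      funext n
      unfold vt
      rw [one_mul, one_mul, Fin.sum_univ_two]
      have h5 : (univ : Finset (Finset (Fin 2))).erase univ = {∅, {0}, {1}} := by decide
      rw [h5, prod_insert (by decide), prod_insert (by decide), prod_singleton]
      simp only [sum_empty, sum_singleton]
      push_cast
      ring_nf
    rw [e2]
    unfold mc
    simp only [Complex.ofReal_re, Complex.ofReal_im]
    rw [(eeLM μ).zero, Complex.ofReal_zero, zero_mul, add_zero, Complex.norm_real, Real.norm_eq_abs]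
  simp only [e1] at h3
  rw [sum2 H (fun s y => GG (toIM (eeLM μ)) (ext v) s y ((a : ℤ) - b)), one_div, inv_mul_le_iff₀ (by positivity)] at h3
  linarith

end Pool.Agent.Helper47.Freq
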