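import Pool.Agent.Helper47.Freq.Main
import Pool.Agent.TH823.MRS.Circ2

/-!
# Long sums (helper47)
-/

set_option autoImplicit false

namespace Pool.Agent.Helper47.Freq

open Finset
open Pool.Agent.H807R2.Dav (ee norm_ee)
open Pool.Agent.TH823.MRS (ExpoSmall)

/-- extension by zero to the integers -/
noncomputable def ext (f : ℕ → ℝ) (x : ℤ) : ℝ := if 0 ≤ x then f x.toNat else 0

lemma ext_nat (f : ℕ → ℝ) (n : ℕ) : ext f n = f n := by
  unfold ext
  rw [if_pos (Int.natCast_nonneg n), Int.toNat_natCast]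

lemma ext_le {f : ℕ → ℝ} (hf : ∀ n, |f n| ≤ 1) (x : ℤ) : |ext f x| ≤ 1 := by
  unfold ext
  split_ifs
  · exact hf _
  · simp

/-- the exponential sums of `f` are small, uniformly in the frequency -/
def LS (f : ℕ → ℝ) : Prop := ∀ ε : ℝ, 0 < ε → ∃ X₀ : ℕ, ∀ X : ℕ, X₀ ≤ X → ∀ θ : UnitAddCircle,
  ‖∑ m ∈ range X, (f m : ℂ) * fourier (-(m : ℤ)) θ‖ ≤ ε * X

/-- the trapezoidal weight -/
noncomputable def trap (X : ℕ) (H : ℝ) (n : ℕ) : ℝ := max 0 (min H ((X : ℝ) + H - n))

lemma trap_nonneg (X : ℕ) (H : ℝ) (n : ℕ) : 0 ≤ trap X H n := le_max_left _ _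

lemma trap_le (X : ℕ) (H : ℝ) (hH : 0 ≤ H) (n : ℕ) : trap X H n ≤ H := max_le hH (min_le_left _ _)

lemma trap_lip (X : ℕ) (H : ℝ) (n m : ℕ) : |trap X H n - trap X H m| ≤ 1 * |(n : ℝ) - m| := by
  unfold trap
  have h1 := abs_max_sub_max_le_abs (min H ((X : ℝ) + H - n)) (min H ((X : ℝ) + H - m)) 0
  rw [max_comm _ 0, max_comm _ 0] at h1
  have h2 := abs_min_sub_min_le_max H ((X : ℝ) + H - n) H ((X : ℝ) + H - m)
  rw [sub_self, abs_zero, max_eq_right (abs_nonneg _)] at h2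
  have e : ((X : ℝ) + H - n) - ((X : ℝ) + H - m) = -((n : ℝ) - m) := by ring
  rw [e, abs_neg] at h2
  rw [one_mul]
  exact h1.trans h2

lemma ls_of_expo {h : ℕ → ℤ} (hb : ∀ n, |h n| ≤ 1) (hE : ExpoSmall (fun n => ((h n : ℤ) : ℂ))) :
    LS (fun n => (h n : ℝ)) := by
  intro ε hε
  obtain ⟨H₀, X₀, hX⟩ := hE (ε / 4) (by positivity) 1 zero_le_one
  set H : ℝ := max H₀ 1 with hH
  have hH1 : 1 ≤ H := le_max_right _ _
  have hH0 : 0 < H := by linarith
  obtain ⟨M, hM⟩ := exists_nat_ge (4 * (H + 3) / ε + H)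
  refine ⟨X₀ + M + 1, fun X hXX θ => ?_⟩
  obtain ⟨t, rfl⟩ := QuotientAddGroup.mk_surjective θ
  have hXM : 4 * (H + 3) / ε + H ≤ X := hM.trans (by exact_mod_cast (by omega : M ≤ X))
  have hX0 : (0 : ℝ) < X := by exact_mod_cast (by omega : 0 < X)
  have hXH : H ≤ X := by
    have : 0 ≤ 4 * (H + 3) / ε := by positivity
    linarith
  have hXe : 4 * (H + 3) ≤ ε * X := by
    have : 4 * (H + 3) / ε ≤ X := by linarith
    rw [div_le_iff₀ hε] at this
    linarith
  have h1 := hX X (by omega) H (le_max_left _ _) hXH (fun n => ((trap X H n : ℝ) : ℂ)) (fun n => by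
      rw [Complex.norm_real, Real.norm_of_nonneg (trap_nonneg _ _ _)]
      exact trap_le X H hH0.le n) (fun n m => by
      rw [← Complex.ofReal_sub, Complex.norm_real]
      exact trap_lip X H n m) (fun n hn => by
      have hn' : (3 : ℝ) * X < n := by exact_mod_cast hn
      have : trap X H n = 0 := by
        unfold trap
        apply max_eq_left
        exact (min_le_right _ _).trans (by linarith)
      rw [this]
      simp) (-t)
  set g : ℕ → ℂ := fun n => ((h n : ℤ) : ℂ) * ee ((n : ℝ) * -t) with hg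
  have hg1 : ∀ n, ‖g n‖ ≤ 1 := by
    intro n
    rw [hg]
    simp only
    rw [norm_mul, norm_ee, mul_one, Complex.norm_intCast]
    exact_mod_cast hb n
  -- the sharp sum
  have h2 : ‖(H : ℂ) * ∑ n ∈ range X, g n - ∑ n ∈ Icc 1 (3 * X), g n * ((trap X H n : ℝ) : ℂ)‖ ≤ H * (H + 3) := by
    have e1 : ∑ n ∈ Icc 1 (3 * X), g n * ((trap X H n : ℝ) : ℂ) = ∑ n ∈ range (3 * X + 1), g n * ((trap X H n : ℝ) : ℂ) -
        g 0 * ((trap X H 0 : ℝ) : ℂ) := by
      rw [range_eq_Ico, sum_eq_sum_Ico_succ_bot (by omega)]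
      have : Icc 1 (3 * X) = Ico (0 + 1) (3 * X + 1) := by
        ext x
        simp only [mem_Icc, mem_Ico]
        omega
      rw [this]
      ring
    have e2 : ∑ n ∈ range (3 * X + 1), g n * ((trap X H n : ℝ) : ℂ) = (H : ℂ) * ∑ n ∈ range X, g n +
        ∑ n ∈ Ico X (3 * X + 1), g n * ((trap X H n : ℝ) : ℂ) := by
      rw [range_eq_Ico, ← sum_Ico_consecutive _ (Nat.zero_le X) (by omega : X ≤ 3 * X + 1), mul_sum]
      congr 1
      rw [← range_eq_Ico]
      refine sum_congr rfl fun n hn => ?_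
      rw [mem_range] at hn
      have : trap X H n = H := by
        unfold trap
        have hn' : (n : ℝ) ≤ X := by exact_mod_cast hn.le
        rw [min_eq_left (by linarith), max_eq_right hH0.le]
      rw [this, mul_comm]
    rw [e1, e2]
    have e3 : (H : ℂ) * ∑ n ∈ range X, g n - ((H : ℂ) * ∑ n ∈ range X, g n +
        ∑ n ∈ Ico X (3 * X + 1), g n * ((trap X H n : ℝ) : ℂ) - g 0 * ((trap X H 0 : ℝ) : ℂ)) =
        g 0 * ((trap X H 0 : ℝ) : ℂ) - ∑ n ∈ Ico X (3 * X + 1), g n * ((trap X H n : ℝ) : ℂ) := by ring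
    rw [e3]
    refine (norm_sub_le _ _).trans ?_
    have b1 : ∀ n, ‖g n * ((trap X H n : ℝ) : ℂ)‖ ≤ trap X H n := by
      intro n
      rw [norm_mul, Complex.norm_real, Real.norm_of_nonneg (trap_nonneg _ _ _)]
      exact mul_le_of_le_one_left (trap_nonneg _ _ _) (hg1 n)
    have b2 : ‖∑ n ∈ Ico X (3 * X + 1), g n * ((trap X H n : ℝ) : ℂ)‖ ≤ H * (H + 2) := by
      refine (norm_sum_le _ _).trans ((sum_le_sum fun n _ => b1 n).trans ?_)
      set m : ℕ := ⌈H⌉₊ + 1 with hm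
      have b3 : ∀ n ∈ Ico X (3 * X + 1), trap X H n ≤ if n < X + m then H else 0 := by
        intro n hn
        rw [mem_Ico] at hn
        split_ifs with h3
        · exact trap_le X H hH0.le n
        · unfold trap
          apply max_le le_rfl
          refine (min_le_right _ _).trans ?_
          have h4 : ((X + m : ℕ) : ℝ) ≤ n := by exact_mod_cast not_lt.1 h3
          rw [hm] at h4
          push_cast at h4
          have := Nat.le_ceil H
          linarith
      refine (sum_le_sum b3).trans ?_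
      rw [← sum_filter, sum_const, nsmul_eq_mul]
      have b4 : ((Ico X (3 * X + 1)).filter (fun n => n < X + m)).card ≤ m := by
        have hsub : (Ico X (3 * X + 1)).filter (fun n => n < X + m) ⊆ Ico X (X + m) := by
          intro n hn
          rw [mem_filter, mem_Ico] at hn
          rw [mem_Ico]
          omega
        refine (card_le_card hsub).trans ?_
        rw [Nat.card_Ico]
        omega
      have b5 : ((((Ico X (3 * X + 1)).filter (fun n => n < X + m)).card : ℕ) : ℝ) ≤ H + 2 := by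
        have b6 : (m : ℝ) ≤ H + 2 := by
          rw [hm]
          push_cast
          have := Nat.ceil_lt_add_one hH0.le
          linarith
        exact le_trans (by exact_mod_cast b4) b6
      nlinarith
    have b7 := (b1 0).trans (trap_le X H hH0.le 0)
    linarith
  have h3 : ‖(H : ℂ) * ∑ n ∈ range X, g n‖ ≤ ε / 4 * H * X + H * (H + 3) := by
    have h4 := norm_sub_norm_le ((H : ℂ) * ∑ n ∈ range X, g n) (∑ n ∈ Icc 1 (3 * X), g n * ((trap X H n : ℝ) : ℂ))
    linarith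
  rw [norm_mul, Complex.norm_real, Real.norm_of_nonneg hH0.le] at h3
  have h4 : ‖∑ n ∈ range X, g n‖ ≤ ε / 4 * X + (H + 3) := by
    have : H * ‖∑ n ∈ range X, g n‖ ≤ H * (ε / 4 * X + (H + 3)) := by linarith
    exact le_of_mul_le_mul_left this hH0
  have e5 : ∑ m ∈ range X, ((((h m : ℤ) : ℝ)) : ℂ) * fourier (-(m : ℤ)) ((t : ℝ) : UnitAddCircle) = ∑ n ∈ range X, g n := by
    refine sum_congr rfl fun m _ => ?_
    rw [hg]
    simp only
    rw [fourier_coe_apply]
    unfold ee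
    push_cast
    congr 2
    ring
  show ‖∑ m ∈ range X, ((((h m : ℤ) : ℝ)) : ℂ) * fourier (-(m : ℤ)) ((t : ℝ) : UnitAddCircle)‖ ≤ ε * X
  rw [e5]
  linarith

/-- short windows at the beginning -/
lemma ls_cc {f : ℕ → ℝ} (hf : ∀ n, |f n| ≤ 1) (hL : LS f) (C : ℕ) (ε : ℝ) (hε : 0 < ε) :
    ∃ H₀ : ℕ, ∀ H : ℕ, H₀ ≤ H → ∀ n : ℕ, n ≤ C * H → ∀ θ : UnitAddCircle, ‖cc (ext f) H n θ‖ ≤ ε := by
  obtain ⟨X₀, hX⟩ := hL (ε / (4 * (C + 1))) (by positivity)
  obtain ⟨M, hM⟩ := exists_nat_ge (4 * X₀ / ε)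
  refine ⟨M + 1, fun H hH n hn θ => ?_⟩
  have hH0 : (0 : ℝ) < H := by exact_mod_cast (by omega : 0 < H)
  have hHM : 4 * (X₀ : ℝ) ≤ ε * H := by
    have h1 := hM.trans (by exact_mod_cast (by omega : M ≤ H) : (M : ℝ) ≤ H)
    rw [div_le_iff₀ hε] at h1
    linarith
  set δ : ℝ := ε / (4 * (C + 1)) with hδ
  have hδ0 : 0 < δ := by positivity
  -- sums up to X
  have h1 : ∀ X : ℕ, ‖∑ m ∈ range X, (f m : ℂ) * fourier (-(m : ℤ)) θ‖ ≤ δ * X + X₀ := by
    intro X
    rcases le_total X₀ X with h | h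
    · have := hX X h θ
      have : (0 : ℝ) ≤ X₀ := Nat.cast_nonneg _
      linarith
    · have h2 : ‖∑ m ∈ range X, (f m : ℂ) * fourier (-(m : ℤ)) θ‖ ≤ X := by
        refine (norm_sum_le _ _).trans ((sum_le_sum (g := fun _ => (1 : ℝ)) fun m _ => ?_).trans (by simp))
        rw [norm_mul, nf, mul_one, Complex.norm_real]
        exact hf m
      have h3 : (X : ℝ) ≤ X₀ := by exact_mod_cast h
      have : 0 ≤ δ * X := by positivity
      linarith
  have e1 : cc (ext f) H n θ = (1 / (H : ℂ)) * (fourier (n : ℤ) θ * (∑ m ∈ range (n + H), (f m : ℂ) * fourier (-(m : ℤ)) θ -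
      ∑ m ∈ range n, (f m : ℂ) * fourier (-(m : ℤ)) θ)) := by
    unfold cc
    congr 1
    rw [sum_range_add_sub_sum_range (fun m => (f m : ℂ) * fourier (-(m : ℤ)) θ) n H, mul_sum]
    refine sum_congr rfl fun m _ => ?_
    have e2 : ext f ((n : ℤ) + m) = f (n + m) := by
      have := ext_nat f (n + m)
      rw [← this]
      congr 1
    rw [e2, mul_left_comm, fmul]
    congr 3
    push_cast
    ring
  rw [e1, norm_mul, norm_mul, nf, one_mul, norm_div, norm_one, Complex.norm_natCast, one_div, inv_mul_le_iff₀ hH0]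
  refine (norm_sub_le _ _).trans ((add_le_add (h1 _) (h1 _)).trans ?_)
  have hn' : (n : ℝ) ≤ C * H := by exact_mod_cast hn
  have h2 : δ * (2 * (C + 1)) = ε / 2 := by
    rw [hδ]
    field_simp
    norm_num
  push_cast
  have h3 : δ * n ≤ δ * (C * H) := mul_le_mul_of_nonneg_left hn' hδ0.le
  nlinarith

end Pool.Agent.Helper47.Freq
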