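import Pool.Agent.Helper47.Freq.Poly

/-!
# The two inequalities for an invariant mean (helper47)
-/

set_option autoImplicit false

namespace Pool.Agent.Helper47.Freq

open Finset MeasureTheory Metric
open scoped NNReal Topology ComplexConjugate

/-- the supremum of the local Fourier coefficients over a set of frequencies -/
noncomputable def SS (F : ℤ → ℝ) (E : Set UnitAddCircle) (L : ℕ) (n : ℤ) : ℝ := ⨆ θ : E, ‖cc F L n θ‖

/-- the upper mean value of `|F|` in all long windows is at most `κ` -/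
def UD (F : ℤ → ℝ) (κ : ℝ) : Prop := ∀ ε : ℝ, 0 < ε → ∃ H₀ : ℕ, ∀ H : ℕ, H₀ ≤ H → ∀ n : ℤ,
  (1 / (H : ℝ)) * ∑ h ∈ range H, |F (n + h)| ≤ κ + ε

lemma vol_le_one (E : Set UnitAddCircle) : (volume E).toReal ≤ 1 := by
  have h : volume E ≤ 1 := (measure_mono (Set.subset_univ E)).trans (le_of_eq UnitAddCircle.measure_univ)
  exact ENNReal.toReal_le_of_le_ofReal zero_le_one (by simpa using h)

section main

variable (μ : IM) (F : ℤ → ℝ) (hF : ∀ n, |F n| ≤ 1)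
include hF

lemma SS_bdd (E : Set UnitAddCircle) (L : ℕ) (n : ℤ) : BddAbove (Set.range fun θ : E => ‖cc F L n θ‖) := by
  refine ⟨1, ?_⟩
  rintro _ ⟨θ, rfl⟩
  exact cc_le F hF L n θ

lemma le_SS (E : Set UnitAddCircle) (L : ℕ) (n : ℤ) {θ : UnitAddCircle} (hθ : θ ∈ E) : ‖cc F L n θ‖ ≤ SS F E L n :=
  le_ciSup (SS_bdd F hF E L n) (⟨θ, hθ⟩ : E)

omit hF in
lemma SS_nonneg (E : Set UnitAddCircle) (L : ℕ) (n : ℤ) : 0 ≤ SS F E L n := Real.iSup_nonneg fun _ => norm_nonneg _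

lemma SS_le_one (E : Set UnitAddCircle) (L : ℕ) (n : ℤ) : SS F E L n ≤ 1 :=
  Real.iSup_le (fun θ => cc_le F hF L n θ) zero_le_one

omit hF in
lemma SS_le (E : Set UnitAddCircle) (L : ℕ) (n : ℤ) {b : ℝ} (hb : 0 ≤ b) (h : ∀ θ ∈ E, ‖cc F L n θ‖ ≤ b) :
    SS F E L n ≤ b := Real.iSup_le (fun θ => h θ θ.2) hb

lemma SS_mono {E E' : Set UnitAddCircle} (h : E ⊆ E') (L : ℕ) (n : ℤ) : SS F E L n ≤ SS F E' L n :=
  SS_le F E L n (SS_nonneg F E' L n) fun _ hθ => le_SS F hF E' L n (h hθ)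

omit hF in
/-- a power of the supremum -/
lemma SS_pow (E : Set UnitAddCircle) (L : ℕ) (n : ℤ) (p : ℕ) (hp : p ≠ 0) {b : ℝ} (hb : 0 ≤ b)
    (h : ∀ θ ∈ E, ‖cc F L n θ‖ ^ p ≤ b) : SS F E L n ^ p ≤ b := by
  have hp0 : (0 : ℝ) < p := by exact_mod_cast Nat.pos_of_ne_zero hp
  have h1 : SS F E L n ≤ b ^ ((p : ℝ)⁻¹) := by
    apply SS_le F E L n (by positivity)
    intro θ hθ
    rw [Real.le_rpow_inv_iff_of_pos (norm_nonneg _) hb hp0, Real.rpow_natCast]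
    exact h θ hθ
  calc SS F E L n ^ p ≤ (b ^ ((p : ℝ)⁻¹)) ^ p := pow_le_pow_left₀ (SS_nonneg F E L n) h1 p
    _ = b := Real.rpow_inv_natCast_pow hb hp

lemma SS_pow_bd (E : Set UnitAddCircle) (L p : ℕ) : BZ (fun n => SS F E L n ^ p) :=
  ⟨1, fun n => by
    rw [abs_of_nonneg (pow_nonneg (SS_nonneg F E L n) p)]
    exact pow_le_one₀ (SS_nonneg F E L n) (SS_le_one F hF E L n)⟩

/-- the trivial filter -/
noncomputable def tr : ℕ → ℂ := fun _ => 1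

omit hF in
lemma QQ_tr_nonneg (φ : ℕ → ℂ) (J L H : ℕ) (n : ℤ) : 0 ≤ QQ F φ J L H n := by
  unfold QQ
  positivity

lemma TT_tr (L H : ℕ) : TT μ F L H 0 0 = μ.m (QQ F tr 1 L H) := by
  rw [m_QQ μ F hF]
  simp [tr]

lemma TT_nonneg (L H : ℕ) : 0 ≤ TT μ F L H 0 0 := by
  rw [TT_tr μ F hF]
  exact μ.nonneg _ (QQ_bd F hF _ _ _ _) (QQ_tr_nonneg F _ _ _ _)

/-- pointwise bound for the trivial filter -/
lemma QQ_tr_le (L H : ℕ) (hL : 1 ≤ L) (hH : 1 ≤ H) (b : ℝ)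
    (hb : ∀ n : ℤ, (1 / (H : ℝ)) * ∑ h ∈ range H, |F (n + h)| ≤ b)
    (hb' : ∀ n : ℤ, (1 / (L : ℝ)) * ∑ h ∈ range L, |F (n + h)| ≤ b) (n : ℤ) : QQ F tr 1 L H n ≤ b ^ 3 := by
  have hL0 : (0 : ℝ) < L := by exact_mod_cast hL
  have hH0 : (0 : ℝ) < H := by exact_mod_cast hH
  have hb0 : 0 ≤ b := le_trans (by positivity) (hb 0)
  unfold QQ
  have h1 : ∀ m m' : ℕ, ‖(1 / (H : ℂ)) * ∑ h ∈ range H, (F (n + m + h) : ℂ) * vv tr 1 F (n + m' + h)‖ ^ 2 ≤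
      b * ((1 / (H : ℝ)) * ∑ h ∈ range H, |F (n + m + h)| * |F (n + m' + h)|) := by
    intro m m'
    have e1 : (1 / (H : ℂ)) * ∑ h ∈ range H, (F (n + m + h) : ℂ) * vv tr 1 F (n + m' + h) =
        (((1 / (H : ℝ)) * ∑ h ∈ range H, F (n + m + h) * F (n + m' + h) : ℝ) : ℂ) := by
      push_cast
      congr 1
      refine sum_congr rfl fun h _ => ?_
      unfold vv tr
      simp
    rw [e1, Complex.norm_real, Real.norm_eq_abs]
    set X : ℝ := (1 / (H : ℝ)) * ∑ h ∈ range H, |F (n + m + h)| * |F (n + m' + h)| with hX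
    have h2 : |(1 / (H : ℝ)) * ∑ h ∈ range H, F (n + m + h) * F (n + m' + h)| ≤ X := by
      rw [abs_mul, abs_of_nonneg (by positivity : (0 : ℝ) ≤ 1 / (H : ℝ)), hX]
      refine mul_le_mul_of_nonneg_left ((abs_sum_le_sum_abs _ _).trans (le_of_eq ?_)) (by positivity)
      exact sum_congr rfl fun h _ => abs_mul _ _
    have h3 : X ≤ b := by
      refine le_trans ?_ (hb (n + m))
      rw [hX]
      refine mul_le_mul_of_nonneg_left (sum_le_sum fun h _ => ?_) (by positivity)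
      exact mul_le_of_le_one_right (abs_nonneg _) (hF _)
    have hX0 : 0 ≤ X := by positivity
    calc |(1 / (H : ℝ)) * ∑ h ∈ range H, F (n + m + h) * F (n + m' + h)| ^ 2 ≤ X ^ 2 :=
          pow_le_pow_left₀ (abs_nonneg _) h2 2
      _ = X * X := sq X
      _ ≤ b * X := mul_le_mul_of_nonneg_right h3 hX0
  have h2 : ∑ m ∈ range L, ∑ m' ∈ range L, ∑ h ∈ range H, |F (n + m + h)| * |F (n + m' + h)| ≤
      H * ((L * b) * (L * b)) := by
    have e1 : ∑ m ∈ range L, ∑ m' ∈ range L, ∑ h ∈ range H, |F (n + m + h)| * |F (n + m' + h)| =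
        ∑ h ∈ range H, (∑ m ∈ range L, |F (n + m + h)|) * ∑ m' ∈ range L, |F (n + m' + h)| := by
      simp only [sum_mul_sum]
      rw [show (∑ m ∈ range L, ∑ m' ∈ range L, ∑ h ∈ range H, |F (n + m + h)| * |F (n + m' + h)|) =
        ∑ m ∈ range L, ∑ h ∈ range H, ∑ m' ∈ range L, |F (n + m + h)| * |F (n + m' + h)| from
          sum_congr rfl fun m _ => sum_comm]
      rw [sum_comm]
    have h3 : ∀ h ∈ range H, (∑ m ∈ range L, |F (n + m + h)|) * ∑ m' ∈ range L, |F (n + m' + h)| ≤ (L * b) * (L * b) := by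
      intro h _
      have h4 := hb' (n + h)
      rw [one_div, inv_mul_le_iff₀ hL0] at h4
      have e2 : ∑ m ∈ range L, |F (n + m + h)| = ∑ m ∈ range L, |F (n + h + m)| :=
        sum_congr rfl fun m _ => by rw [add_right_comm]
      rw [e2]
      exact mul_le_mul h4 h4 (sum_nonneg fun _ _ => abs_nonneg _) (by positivity)
    rw [e1]
    refine (sum_le_sum h3).trans ?_
    rw [sum_const, card_range, nsmul_eq_mul]
  calc (1 / (L : ℝ) ^ 2) * ∑ m ∈ range L, ∑ m' ∈ range L,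
      ‖(1 / (H : ℂ)) * ∑ h ∈ range H, (F (n + m + h) : ℂ) * vv tr 1 F (n + m' + h)‖ ^ 2 ≤
      (1 / (L : ℝ) ^ 2) * ∑ m ∈ range L, ∑ m' ∈ range L,
        b * ((1 / (H : ℝ)) * ∑ h ∈ range H, |F (n + m + h)| * |F (n + m' + h)|) :=
        mul_le_mul_of_nonneg_left (sum_le_sum fun m _ => sum_le_sum fun m' _ => h1 m m') (by positivity)
    _ = (1 / (L : ℝ) ^ 2) * (b * ((1 / (H : ℝ)) * ∑ m ∈ range L, ∑ m' ∈ range L,
        ∑ h ∈ range H, |F (n + m + h)| * |F (n + m' + h)|)) := by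
        simp only [← mul_sum]
    _ ≤ (1 / (L : ℝ) ^ 2) * (b * ((1 / (H : ℝ)) * (H * ((L * b) * (L * b))))) := by gcongr
    _ = b ^ 3 := by
        field_simp

lemma TT_le (L H : ℕ) (hL : 1 ≤ L) (hH : 1 ≤ H) (b : ℝ)
    (hb : ∀ n : ℤ, (1 / (H : ℝ)) * ∑ h ∈ range H, |F (n + h)| ≤ b)
    (hb' : ∀ n : ℤ, (1 / (L : ℝ)) * ∑ h ∈ range L, |F (n + h)| ≤ b) : TT μ F L H 0 0 ≤ b ^ 3 := by
  rw [TT_tr μ F hF]
  exact μ.le_const (QQ_bd F hF _ _ _ _) _ (QQ_tr_le F hF L H hL hH b hb hb')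

lemma win_le_one (H : ℕ) (hH : 1 ≤ H) (n : ℤ) : (1 / (H : ℝ)) * ∑ h ∈ range H, |F (n + h)| ≤ 1 := by
  have hH0 : (0 : ℝ) < H := by exact_mod_cast hH
  rw [one_div, inv_mul_le_iff₀ hH0, mul_one]
  exact (sum_le_sum (g := fun _ => (1 : ℝ)) fun h _ => hF _).trans (by simp)

lemma TT_le_one (L H : ℕ) (hL : 1 ≤ L) (hH : 1 ≤ H) : TT μ F L H 0 0 ≤ 1 := by
  have := TT_le μ F hF L H hL hH 1 (win_le_one F hF H hH) (win_le_one F hF L hL)
  simpa using this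

omit hF in
lemma ratio (R H J : ℕ) (hR : 1 ≤ R) (hH : 1 ≤ H) (hJ : J ≤ H) :
    ((H : ℝ) + J) / ((R * H : ℕ) : ℝ) ≤ 2 / R := by
  have hR0 : (0 : ℝ) < R := by exact_mod_cast hR
  have hH0 : (0 : ℝ) < H := by exact_mod_cast hH
  have hJ' : (J : ℝ) ≤ H := by exact_mod_cast hJ
  push_cast
  rw [div_le_div_iff₀ (by positivity) hR0]
  nlinarith

/-- **First inequality.** -/
theorem first (hD : DispZ μ F) (κ : ℝ) (hκ0 : 0 ≤ κ) (hκ1 : κ ≤ 1) (hκ : UD F κ) (E : Set UnitAddCircle)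
    (hE : IsClosed E) (ε : ℝ) (hε : 0 < ε) (hε1 : ε ≤ 1) :
    ∃ L : ℕ, 1 ≤ L ∧ μ.m (fun n => SS F E L n ^ 4) ≤ κ ^ 3 * (volume E).toReal + ε := by
  obtain ⟨J, φ, hφE, hφ2⟩ := filt1 E hE (ε / 8) (by positivity)
  set N1 : ℝ := ∑ j ∈ range J, ‖φ j‖ with hN1
  set N2 : ℝ := ∑ j ∈ range J, ‖φ j‖ ^ 2 with hN2
  have hN2' : 0 ≤ N2 := sum_nonneg fun _ _ => by positivity
  obtain ⟨R₀, hR₀⟩ := exists_nat_ge (128 * N1 ^ 2 / ε)
  set R : ℕ := R₀ + 1 with hR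
  have hR1 : 1 ≤ R := by omega
  have hR0 : (0 : ℝ) < R := by exact_mod_cast hR1
  have hRb : 128 * N1 ^ 2 ≤ ε * R := by
    have : (R₀ : ℝ) ≤ R := by exact_mod_cast (by omega : R₀ ≤ R)
    have h1 := hR₀.trans this
    rw [div_le_iff₀ hε] at h1
    linarith
  obtain ⟨H₁, hH₁, h1⟩ := exp_main μ F hF hD φ J R hR1 (ε / 8) (by positivity)
  obtain ⟨H₂, h2⟩ := hκ (ε / 64) (by positivity)
  set H : ℕ := H₁ + H₂ + J with hH
  have hH1 : 1 ≤ H := by omega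
  have hH0 : (0 : ℝ) < H := by exact_mod_cast hH1
  have hL1 : 1 ≤ R * H := Nat.mul_pos hR1 hH1
  refine ⟨R * H, hL1, ?_⟩
  have h3 := h1 H (by omega)
  have hLH : H ≤ R * H := Nat.le_mul_of_pos_left _ hR1
  have h4 := TT_le μ F hF (R * H) H hL1 hH1 (κ + ε / 64) (h2 H (by omega)) (h2 (R * H) (by omega))
  have h5 := TT_nonneg μ F hF (R * H) H
  have hr := ratio R H J hR1 hH1 (by omega)
  have herr : 8 * N1 ^ 2 * (((H : ℝ) + J) / ((R * H : ℕ) : ℝ)) ≤ ε / 8 := by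
    calc 8 * N1 ^ 2 * (((H : ℝ) + J) / ((R * H : ℕ) : ℝ)) ≤ 8 * N1 ^ 2 * (2 / R) :=
          mul_le_mul_of_nonneg_left hr (by positivity)
      _ ≤ ε / 8 := by
          rw [← mul_div_assoc, div_le_iff₀ hR0]
          linarith
  have h6 : ∀ n, SS F E (R * H) n ^ 4 ≤ QQ F φ J (R * H) H n + ε / 8 := by
    intro n
    apply SS_pow F E (R * H) n 4 (by norm_num)
    · have := QQ_tr_nonneg F φ J (R * H) H n
      linarith
    · intro θ hθ
      have h7 := key1 F hF φ J (R * H) H hL1 hH1 n θ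
      have h8 : 1 ≤ ‖PP φ J θ‖ ^ 2 := one_le_pow₀ (hφE θ hθ)
      calc ‖cc F (R * H) n θ‖ ^ 4 ≤ ‖cc F (R * H) n θ‖ ^ 4 * ‖PP φ J θ‖ ^ 2 :=
            le_mul_of_one_le_right (by positivity) h8
        _ ≤ QQ F φ J (R * H) H n + ε / 8 := h7.trans (add_le_add le_rfl herr)
  have h7 := μ.mono (SS_pow_bd F hF E (R * H) 4) ((QQ_bd F hF φ J (R * H) H).add (BZ.const (ε / 8))) h6
  rw [μ.add _ _ (QQ_bd F hF φ J (R * H) H) (BZ.const _), μ.const] at h7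
  have h8 : μ.m (QQ F φ J (R * H) H) ≤ N2 * TT μ F (R * H) H 0 0 + ε / 8 := by
    have := (abs_le.1 h3).2
    linarith
  have h9 : N2 * TT μ F (R * H) H 0 0 ≤ ((volume E).toReal + ε / 8) * (κ + ε / 64) ^ 3 :=
    mul_le_mul hφ2 h4 h5 (by positivity)
  have hv : (volume E).toReal ≤ 1 := vol_le_one E
  have hv0 : 0 ≤ (volume E).toReal := ENNReal.toReal_nonneg
  have h10 : (κ + ε / 64) ^ 3 ≤ κ ^ 3 + ε / 8 := by
    have e : (κ + ε / 64) ^ 3 = κ ^ 3 + (ε / 64) * (3 * κ ^ 2 + 3 * κ * (ε / 64) + (ε / 64) ^ 2) := by ring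
    have k1 : κ ^ 2 ≤ 1 := pow_le_one₀ hκ0 hκ1
    have k2 : κ * (ε / 64) ≤ 1 := mul_le_one₀ hκ1 (by positivity) (by linarith)
    have k3 : (ε / 64) ^ 2 ≤ 1 := pow_le_one₀ (by positivity) (by linarith)
    rw [e]
    nlinarith
  have h11 : ((volume E).toReal + ε / 8) * (κ + ε / 64) ^ 3 ≤ κ ^ 3 * (volume E).toReal + ε / 2 := by
    calc ((volume E).toReal + ε / 8) * (κ + ε / 64) ^ 3 ≤ ((volume E).toReal + ε / 8) * (κ ^ 3 + ε / 8) :=
          mul_le_mul_of_nonneg_left h10 (by positivity)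
      _ ≤ κ ^ 3 * (volume E).toReal + ε / 2 := by
          have hk2 : κ ^ 3 ≤ 1 := pow_le_one₀ hκ0 hκ1
          nlinarith
  linarith

/-- **Second inequality.** -/
theorem second (hD : DispZ μ F) (E : Set UnitAddCircle) (hE : IsClosed E) (K : ℕ) (hK : 1 ≤ K)
    (ε : ℝ) (hε : 0 < ε) (hε1 : ε ≤ 1) :
    ∃ L : ℕ, 1 ≤ L ∧ (volume E).toReal * μ.m (fun n => SS F Set.univ L n ^ 4) ≤
      μ.m (fun n => SS F E K n ^ 2) + ε := by
  have hv : (volume E).toReal ≤ 1 := vol_le_one E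
  have hv0 : 0 ≤ (volume E).toReal := ENNReal.toReal_nonneg
  set δ : ℝ := ε / 32 with hδ
  have hδ0 : 0 < δ := by positivity
  obtain ⟨η, hη, hcc⟩ := cc_cont F hF K hK δ hδ0
  obtain ⟨J, φ, hφ1, hφ2, hφ3⟩ := filt2 E hE η hη δ hδ0
  set N2 : ℝ := ∑ j ∈ range J, ‖φ j‖ ^ 2 with hN2
  have hN2' : 0 ≤ N2 := sum_nonneg fun _ _ => by positivity
  obtain ⟨R₀, hR₀⟩ := exists_nat_ge (16 / δ)
  set R : ℕ := R₀ + 1 with hR
  have hR1 : 1 ≤ R := by omega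
  have hR0 : (0 : ℝ) < R := by exact_mod_cast hR1
  have hRb : 16 / (R : ℝ) ≤ δ := by
    have : (R₀ : ℝ) ≤ R := by exact_mod_cast (by omega : R₀ ≤ R)
    have h1 := hR₀.trans this
    rw [div_le_iff₀ hδ0] at h1
    rw [div_le_iff₀ hR0]
    linarith
  obtain ⟨H₁, hH₁, h1⟩ := exp_main μ F hF hD φ J R hR1 δ hδ0
  obtain ⟨H₂, hH₂⟩ := exists_nat_ge (2 * K / δ)
  set H : ℕ := H₁ + H₂ + J + 1 with hH
  have hH1 : 1 ≤ H := by omega
  have hH0 : (0 : ℝ) < H := by exact_mod_cast hH1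
  have hHK : 2 * K / (H : ℝ) ≤ δ := by
    have : (H₂ : ℝ) ≤ H := by exact_mod_cast (by omega : H₂ ≤ H)
    have h1 := hH₂.trans this
    rw [div_le_iff₀ hδ0] at h1
    rw [div_le_iff₀ hH0]
    linarith
  have hL1 : 1 ≤ R * H := Nat.mul_pos hR1 hH1
  set L : ℕ := R * H with hL
  have hL0 : (0 : ℝ) < L := by exact_mod_cast hL1
  refine ⟨L, hL1, ?_⟩
  have h3 := h1 H (by omega)
  have h4 := TT_le_one μ F hF L H hL1 hH1
  have h5 := TT_nonneg μ F hF L H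
  have hr := ratio R H J hR1 hH1 (by omega)
  have hr1 := ratio R H 1 hR1 hH1 (by omega)
  -- the left side
  have h6 : ∀ n, SS F Set.univ L n ^ 4 ≤ QQ F tr 1 L H n + δ := by
    intro n
    apply SS_pow F Set.univ L n 4 (by norm_num)
    · have := QQ_tr_nonneg F tr 1 L H n
      linarith
    · intro θ _
      have h7 := key1 F hF tr 1 L H hL1 hH1 n θ
      have e1 : ‖PP tr 1 θ‖ = 1 := by
        unfold PP tr
        simp
      rw [e1] at h7
      have e2 : (∑ j ∈ range 1, ‖tr j‖) = 1 := by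
        simp [tr]
      rw [e2] at h7
      have h8 : 8 * (1 : ℝ) ^ 2 * (((H : ℝ) + (1 : ℕ)) / (L : ℝ)) ≤ δ := by
        calc 8 * (1 : ℝ) ^ 2 * (((H : ℝ) + (1 : ℕ)) / (L : ℝ)) ≤ 8 * (2 / R) := by
              rw [one_pow, mul_one]
              exact mul_le_mul_of_nonneg_left hr1 (by norm_num)
          _ = 16 / R := by ring
          _ ≤ δ := hRb
      calc ‖cc F L n θ‖ ^ 4 = ‖cc F L n θ‖ ^ 4 * 1 ^ 2 := by ring
        _ ≤ QQ F tr 1 L H n + δ := h7.trans (add_le_add le_rfl h8)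
  have h7 := μ.mono (SS_pow_bd F hF Set.univ L 4) ((QQ_bd F hF tr 1 L H).add (BZ.const δ)) h6
  rw [μ.add _ _ (QQ_bd F hF tr 1 L H) (BZ.const _), μ.const, ← TT_tr μ F hF] at h7
  -- the right side
  set W : ℤ → ℝ := fun x => (1 / (H : ℝ)) * ∑ i ∈ range H, SS F E K (x + i) ^ 2 + 6 * δ with hW
  have hWs : ∀ i ∈ range H, BZ (fun x : ℤ => SS F E K (x + i) ^ 2) := fun i _ =>
    (SS_pow_bd F hF E K 2).comp (fun x => x + i)
  have hWb : BZ (fun x => (1 / (H : ℝ)) * ∑ i ∈ range H, SS F E K (x + i) ^ 2) := BZ.cmul _ (BZ.sum _ hWs)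
  have hW0 : ∀ x, 0 ≤ (1 / (H : ℝ)) * ∑ i ∈ range H, SS F E K (x + i) ^ 2 := fun x => by positivity
  have hδ1 : δ ≤ 1 / 32 := by rw [hδ]; linarith
  have hcW : ∀ (x : ℤ) (θ : UnitAddCircle), ‖cc F H x θ‖ ^ 2 * ‖PP φ J θ‖ ^ 2 ≤ W x + δ := by
    intro x θ
    have hc1 := cc_le F hF H x θ
    by_cases hθ : θ ∈ thickening η E
    · have a1 := hφ1 θ hθ
      rw [mem_thickening_iff] at hθ
      obtain ⟨θ', hθ', hd⟩ := hθ
      have a2 := subwin F hF H K hH1 hK x θ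
      set a : ℝ := (1 / (H : ℝ)) * ∑ i ∈ range H, SS F E K (x + i) with ha
      have ha0 : 0 ≤ a := mul_nonneg (by positivity) (sum_nonneg fun i _ => SS_nonneg F _ _ _)
      have a3 : (1 / (H : ℝ)) * ∑ i ∈ range H, ‖cc F K (x + i) θ‖ ≤ a + δ := by
        have : ∀ i ∈ range H, ‖cc F K (x + i) θ‖ ≤ SS F E K (x + i) + δ := by
          intro i _
          have b1 := hcc θ θ' hd (x + i)
          have b2 := le_SS F hF E K (x + i) hθ'
          have b3 := norm_sub_norm_le (cc F K (x + i) θ) (cc F K (x + i) θ')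
          linarith
        have b4 := sum_le_sum this
        rw [sum_add_distrib, sum_const, card_range, nsmul_eq_mul] at b4
        rw [ha, one_div, inv_mul_le_iff₀ hH0, mul_add, ← mul_assoc, mul_inv_cancel₀ hH0.ne', one_mul]
        exact b4
      have ha1 : a ≤ 1 := by
        rw [ha, one_div, inv_mul_le_iff₀ hH0, mul_one]
        refine (sum_le_sum (g := fun _ => (1 : ℝ)) fun (i : ℕ) _ => SS_le_one F hF E K (x + i)).trans ?_
        simp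
      have a4 : ‖cc F H x θ‖ ≤ a + 2 * δ := by linarith
      have a5 : a ^ 2 ≤ (1 / (H : ℝ)) * ∑ i ∈ range H, SS F E K (x + i) ^ 2 := by
        have b5 := sq_sum_le_card_mul_sum_sq (s := range H) (f := fun i => SS F E K (x + i))
        rw [card_range] at b5
        rw [ha, mul_pow]
        calc (1 / (H : ℝ)) ^ 2 * (∑ i ∈ range H, SS F E K (x + i)) ^ 2 ≤
            (1 / (H : ℝ)) ^ 2 * (H * ∑ i ∈ range H, SS F E K (x + i) ^ 2) :=
              mul_le_mul_of_nonneg_left b5 (by positivity)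
          _ = (1 / (H : ℝ)) * ∑ i ∈ range H, SS F E K (x + i) ^ 2 := by
              field_simp
      have a6 : ‖cc F H x θ‖ ^ 2 ≤ a ^ 2 + 6 * δ := by
        calc ‖cc F H x θ‖ ^ 2 ≤ (a + 2 * δ) ^ 2 := pow_le_pow_left₀ (norm_nonneg _) a4 2
          _ ≤ a ^ 2 + 6 * δ := by nlinarith
      have a7 : ‖cc F H x θ‖ ^ 2 ≤ 1 := pow_le_one₀ (norm_nonneg _) hc1
      calc ‖cc F H x θ‖ ^ 2 * ‖PP φ J θ‖ ^ 2 ≤ ‖cc F H x θ‖ ^ 2 * (1 + δ) :=
            mul_le_mul_of_nonneg_left a1 (by positivity)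
        _ ≤ (a ^ 2 + 6 * δ) + δ := by nlinarith
        _ ≤ W x + δ := by rw [hW]; simp only; linarith
    · have a1 := hφ2 θ hθ
      calc ‖cc F H x θ‖ ^ 2 * ‖PP φ J θ‖ ^ 2 ≤ 1 * δ :=
            mul_le_mul (pow_le_one₀ (norm_nonneg _) hc1) a1 (by positivity) zero_le_one
        _ ≤ W x + δ := by
            rw [hW]
            simp only
            linarith [hW0 x]
  have h8 : ∀ n, QQ F φ J L H n ≤ (((L : ℝ) + H + J) / (L : ℝ) ^ 2) * ∑ m ∈ range L, (W (n + m) + δ) :=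
    key2 F hF φ J L H hL1 W δ hcW
  have hWB : BZ W := hWb.add (BZ.const _)
  have hWB2 : ∀ m ∈ range L, BZ (fun n => W (n + m) + δ) := fun m _ => (hWB.comp (fun n => n + m)).add (BZ.const _)
  have h9 := μ.mono (QQ_bd F hF φ J L H) (BZ.cmul _ (BZ.sum _ hWB2)) h8
  rw [μ.smul _ _ (BZ.sum _ hWB2), μ.sum _ hWB2] at h9
  have e3 : ∀ m ∈ range L, μ.m (fun n => W (n + m) + δ) = μ.m (fun n => SS F E K n ^ 2) + 7 * δ := by
    intro m _
    rw [μ.add _ _ (hWB.comp (fun n => n + m)) (BZ.const _), μ.const, μ.shift m W hWB]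
    have e4 : μ.m W = μ.m (fun n => SS F E K n ^ 2) + 6 * δ := by
      rw [hW, μ.add _ _ hWb (BZ.const _), μ.const, μ.smul _ _ (BZ.sum _ hWs), μ.sum _ hWs]
      have e5 : ∀ i ∈ range H, μ.m (fun x => SS F E K (x + i) ^ 2) = μ.m (fun n => SS F E K n ^ 2) := fun i _ =>
        μ.shift i (fun n => SS F E K n ^ 2) (SS_pow_bd F hF E K 2)
      rw [sum_congr rfl e5, sum_const, card_range, nsmul_eq_mul]
      field_simp
    rw [e4]
    ring
  rw [sum_congr rfl e3, sum_const, card_range, nsmul_eq_mul] at h9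
  set S2 : ℝ := μ.m (fun n => SS F E K n ^ 2) with hS2
  have hS20 : 0 ≤ S2 := μ.nonneg _ (SS_pow_bd F hF E K 2) fun n => by positivity
  have hS21 : S2 ≤ 1 := μ.le_const (SS_pow_bd F hF E K 2) 1 fun n => pow_le_one₀ (SS_nonneg F E K n) (SS_le_one F hF E K n)
  have h10 : μ.m (QQ F φ J L H) ≤ (1 + δ) * (S2 + 7 * δ) := by
    refine h9.trans ?_
    have e6 : ((L : ℝ) + H + J) / (L : ℝ) ^ 2 * (L * (S2 + 7 * δ)) = (1 + ((H : ℝ) + J) / L) * (S2 + 7 * δ) := by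
      field_simp
      ring
    rw [e6]
    refine mul_le_mul_of_nonneg_right ?_ (by positivity)
    have : 2 / (R : ℝ) ≤ δ := by
      refine le_trans ?_ hRb
      exact div_le_div_of_nonneg_right (by norm_num) hR0.le
    linarith
  have h11 : N2 * TT μ F L H 0 0 ≤ μ.m (QQ F φ J L H) + δ := by
    have := (abs_le.1 h3).1
    linarith
  have h12 : (volume E).toReal * TT μ F L H 0 0 ≤ (N2 + δ) * TT μ F L H 0 0 :=
    mul_le_mul_of_nonneg_right (by linarith) h5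
  have h13 : (volume E).toReal * μ.m (fun n => SS F Set.univ L n ^ 4) ≤ (volume E).toReal * (TT μ F L H 0 0 + δ) :=
    mul_le_mul_of_nonneg_left h7 hv0
  have h14 : (1 + δ) * (S2 + 7 * δ) ≤ S2 + 9 * δ := by nlinarith
  have h15 : ε = 32 * δ := by rw [hδ]; ring
  nlinarith

end main

end Pool.Agent.Helper47.Freq
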