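import Pool.Agent.Helper47.Freq.Key

/-!
# The Parseval bound for the filtered correlations (helper47)
-/

set_option autoImplicit false

namespace Pool.Agent.Helper47.Freq

open Finset MeasureTheory
open scoped ComplexConjugate

lemma vol_eq : (volume : Measure UnitAddCircle) = AddCircle.haarAddCircle := by
  rw [AddCircle.volume_eq_smul_haarAddCircle]
  simp

lemma int_fourier (k : ℤ) : ∫ θ : UnitAddCircle, (fourier k θ : ℂ) = if k = 0 then 1 else 0 := by
  have h1 := congrFun (fourierCoeff_fourier (T := 1) k) 0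
  unfold fourierCoeff at h1
  rw [vol_eq]
  simp only [neg_zero, fourier_zero, one_smul] at h1
  rw [h1, Pi.single_apply]
  by_cases h : k = 0
  · rw [if_pos h, if_pos h.symm]
  · rw [if_neg h, if_neg (Ne.symm h)]

lemma nsq_c {ι : Type*} (s : Finset ι) (a : ι → ℂ) :
    ‖∑ i ∈ s, a i‖ ^ 2 = ∑ i ∈ s, ∑ i' ∈ s, (a i * conj (a i')).re := by
  have h1 := nsq s a (fun _ => 1)
  simpa using h1

lemma cont_int {f : UnitAddCircle → ℂ} (hf : Continuous f) : Integrable f :=
  hf.integrable_of_hasCompactSupport (HasCompactSupport.of_compactSpace f)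

lemma cont_int_r {f : UnitAddCircle → ℝ} (hf : Continuous f) : Integrable f :=
  hf.integrable_of_hasCompactSupport (HasCompactSupport.of_compactSpace f)

/-- Parseval -/
lemma parseval (I : Finset ℤ) (b : ℤ → ℂ) :
    ∫ θ : UnitAddCircle, ‖∑ k ∈ I, b k * fourier k θ‖ ^ 2 = ∑ k ∈ I, ‖b k‖ ^ 2 := by
  have e1 : ∀ θ : UnitAddCircle, ‖∑ k ∈ I, b k * fourier k θ‖ ^ 2 =
      (∑ k ∈ I, ∑ l ∈ I, (b k * conj (b l)) * fourier (k - l) θ).re := by
    intro θ
    rw [nsq_c, Complex.re_sum]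
    refine sum_congr rfl fun k _ => ?_
    rw [Complex.re_sum]
    refine sum_congr rfl fun l _ => ?_
    congr 1
    rw [map_mul, ← fourier_neg, sub_eq_add_neg, ← fmul]
    ring
  have hc : Continuous (fun θ : UnitAddCircle => ∑ k ∈ I, ∑ l ∈ I, (b k * conj (b l)) * (fourier (k - l) θ : ℂ)) :=
    continuous_finsetSum _ fun k _ => continuous_finsetSum _ fun l _ =>
      continuous_const.mul (ContinuousMap.continuous _)
  simp only [e1]
  have e2 : ∫ θ : UnitAddCircle, (∑ k ∈ I, ∑ l ∈ I, (b k * conj (b l)) * (fourier (k - l) θ : ℂ)).re =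
      (∫ θ : UnitAddCircle, ∑ k ∈ I, ∑ l ∈ I, (b k * conj (b l)) * (fourier (k - l) θ : ℂ)).re := by
    have := (Complex.reCLM.integral_comp_comm (cont_int hc))
    simpa using this
  have hi1 : ∀ k ∈ I, Integrable (fun θ : UnitAddCircle => ∑ l ∈ I, (b k * conj (b l)) * (fourier (k - l) θ : ℂ)) :=
    fun k _ => cont_int (continuous_finsetSum _ fun l _ => continuous_const.mul (ContinuousMap.continuous _))
  have hi2 : ∀ k : ℤ, ∀ l ∈ I, Integrable (fun θ : UnitAddCircle => (b k * conj (b l)) * (fourier (k - l) θ : ℂ)) :=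
    fun k l _ => cont_int (continuous_const.mul (ContinuousMap.continuous _))
  rw [e2, integral_finsetSum _ hi1, Complex.re_sum]
  refine sum_congr rfl fun k hk => ?_
  rw [integral_finsetSum _ (hi2 k)]
  rw [sum_eq_single k]
  · rw [integral_const_mul, int_fourier, if_pos (sub_self k), mul_one, Complex.mul_conj, Complex.ofReal_re,
      Complex.normSq_eq_norm_sq]
  · intro l _ hl
    rw [integral_const_mul, int_fourier, if_neg (sub_ne_zero.2 (Ne.symm hl)), mul_zero]
  · intro h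
    exact absurd hk h

/-- Bessel's inequality for trigonometric polynomials with repeated frequencies -/
lemma bessel {ι : Type*} [DecidableEq ι] (Q : Finset ι) (κ : ι → ℤ) (w : ι → ℂ) (S : Finset ℤ) :
    ∑ k ∈ S, ‖∑ q ∈ Q with κ q = k, w q‖ ^ 2 ≤ ∫ θ : UnitAddCircle, ‖∑ q ∈ Q, w q * fourier (κ q) θ‖ ^ 2 := by
  have e1 : ∀ θ : UnitAddCircle, ∑ q ∈ Q, w q * fourier (κ q) θ =
      ∑ k ∈ S ∪ Q.image κ, (∑ q ∈ Q with κ q = k, w q) * fourier k θ := by
    intro θ
    rw [← sum_fiberwise_of_maps_to (t := S ∪ Q.image κ) (g := κ)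
      (fun q hq => mem_union_right _ (mem_image_of_mem κ hq))]
    refine sum_congr rfl fun k _ => ?_
    rw [sum_mul]
    refine sum_congr rfl fun q hq => ?_
    rw [(mem_filter.1 hq).2]
  simp only [e1]
  rw [parseval]
  apply sum_le_sum_of_subset_of_nonneg subset_union_left
  intro k _ _
  positivity

section key2

variable (F : ℤ → ℝ) (hF : ∀ n, |F n| ≤ 1)

/-- the third factor -/
lemma GZ (hF : ∀ n, |F n| ≤ 1) (Z : ℕ) (n : ℤ) :
    ∫ θ : UnitAddCircle, ‖∑ z ∈ range Z, (F (n + z) : ℂ) * fourier (z : ℤ) θ‖ ^ 2 ≤ Z := by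
  have h1 := parseval ((range Z).image (fun z : ℕ => (z : ℤ))) (fun x => (F (n + x) : ℂ))
  have e1 : ∀ f : ℤ → ℂ, ∑ k ∈ (range Z).image (fun z : ℕ => (z : ℤ)), f k = ∑ z ∈ range Z, f z := by
    intro f
    rw [sum_image]
    intro a _ b _ h
    simpa using h
  have e2 : ∀ f : ℤ → ℝ, ∑ k ∈ (range Z).image (fun z : ℕ => (z : ℤ)), f k = ∑ z ∈ range Z, f z := by
    intro f
    rw [sum_image]
    intro a _ b _ h
    simpa using h
  simp only [e1, e2] at h1
  rw [h1]
  refine (sum_le_sum (g := fun _ => (1 : ℝ)) fun z _ => ?_).trans (by simp)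
  rw [Complex.norm_real]
  exact pow_le_one₀ (norm_nonneg _) (hF _)

/-- one row of the correlations -/
lemma row (φ : ℕ → ℂ) (J L H : ℕ) (n m : ℤ) :
    ∑ m' ∈ range L, ‖(1 / (H : ℂ)) * ∑ h ∈ range H, (F (n + m + h) : ℂ) * vv φ J F (n + m' + h)‖ ^ 2 ≤
      ∫ θ : UnitAddCircle, ‖cc F H (n + m) θ * PP φ J θ *
        ∑ z ∈ range (L + H + J), (F (n + z) : ℂ) * fourier (z : ℤ) θ‖ ^ 2 := by
  classical
  set Q : Finset (ℕ × ℕ × ℕ) := range H ×ˢ range J ×ˢ range (L + H + J) with hQ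
  set κ : ℕ × ℕ × ℕ → ℤ := fun q => (q.2.2 : ℤ) - q.1 - q.2.1 with hκ
  set w : ℕ × ℕ × ℕ → ℂ := fun q => (1 / (H : ℂ)) * (F (n + m + q.1) : ℂ) * φ q.2.1 * (F (n + q.2.2) : ℂ) with hw
  have h1 := bessel Q κ w ((range L).image (fun z : ℕ => (z : ℤ)))
  rw [sum_image (fun a _ b _ h => by simpa using h)] at h1
  have e1 : ∀ θ : UnitAddCircle, ∑ q ∈ Q, w q * fourier (κ q) θ = cc F H (n + m) θ * PP φ J θ *
        ∑ z ∈ range (L + H + J), (F (n + z) : ℂ) * fourier (z : ℤ) θ := by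
    intro θ
    have e0 : ∀ (a b c : ℕ → ℂ) (Z : ℕ), (∑ h ∈ range H, a h) * (∑ j ∈ range J, b j) * (∑ z ∈ range Z, c z) =
        ∑ h ∈ range H, ∑ j ∈ range J, ∑ z ∈ range Z, a h * b j * c z := by
      intro a b c Z
      rw [sum_mul_sum, sum_mul]
      refine sum_congr rfl fun h _ => ?_
      rw [sum_mul]
      refine sum_congr rfl fun j _ => ?_
      rw [mul_sum]
    rw [hQ, sum_product]
    unfold cc PP
    rw [mul_assoc (1 / (H : ℂ)), mul_assoc (1 / (H : ℂ)), e0, mul_sum]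
    refine sum_congr rfl fun h _ => ?_
    rw [sum_product, mul_sum]
    refine sum_congr rfl fun j _ => ?_
    rw [mul_sum]
    refine sum_congr rfl fun z _ => ?_
    rw [hw, hκ]
    simp only
    rw [show (z : ℤ) - h - j = -(h : ℤ) + -(j : ℤ) + z by ring, ← fmul, ← fmul]
    ring
  simp only [e1] at h1
  refine le_trans (sum_le_sum fun m' hm' => ?_) h1
  rw [mem_range] at hm'
  apply le_of_eq
  congr 2
  rw [sum_filter, hQ, sum_product, mul_sum]
  refine sum_congr rfl fun h hh => ?_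
  rw [mem_range] at hh
  unfold vv
  rw [sum_product, mul_sum, mul_sum]
  refine sum_congr rfl fun j hj => ?_
  rw [mem_range] at hj
  rw [sum_eq_single (m' + h + j)]
  · rw [if_pos (by rw [hκ]; simp only; push_cast; ring)]
    rw [hw]
    simp only
    rw [show n + ((m' + h + j : ℕ) : ℤ) = n + m' + h + j by push_cast; ring]
    ring
  · intro z _ hz
    rw [if_neg]
    rw [hκ]
    simp only
    intro h2
    apply hz
    omega
  · intro h2
    exfalso
    apply h2
    rw [mem_range]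
    omega

/-- the filtered correlations are bounded by the local Fourier coefficients where the filter is large -/
theorem key2 (hF : ∀ n, |F n| ≤ 1) (φ : ℕ → ℂ) (J L H : ℕ) (hL : 1 ≤ L) (W : ℤ → ℝ) (δ : ℝ)
    (hW : ∀ (x : ℤ) (θ : UnitAddCircle), ‖cc F H x θ‖ ^ 2 * ‖PP φ J θ‖ ^ 2 ≤ W x + δ) (n : ℤ) :
    QQ F φ J L H n ≤ (((L : ℝ) + H + J) / (L : ℝ) ^ 2) * ∑ m ∈ range L, (W (n + m) + δ) := by
  have hL0 : (0 : ℝ) < L := by exact_mod_cast hL
  unfold QQ
  have h1 : ∀ m : ℕ, ∑ m' ∈ range L, ‖(1 / (H : ℂ)) * ∑ h ∈ range H, (F (n + m + h) : ℂ) * vv φ J F (n + m' + h)‖ ^ 2 ≤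
      (W (n + m) + δ) * ((L : ℝ) + H + J) := by
    intro m
    refine (row F φ J L H n m).trans ?_
    have hc : Continuous (fun θ : UnitAddCircle => ‖∑ z ∈ range (L + H + J), (F (n + z) : ℂ) * fourier (z : ℤ) θ‖ ^ 2) :=
      (continuous_finsetSum _ fun z _ => continuous_const.mul (ContinuousMap.continuous _)).norm.pow 2
    have hc2 : Continuous (fun θ : UnitAddCircle => ‖cc F H (n + m) θ * PP φ J θ *
        ∑ z ∈ range (L + H + J), (F (n + z) : ℂ) * fourier (z : ℤ) θ‖ ^ 2) := by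
      unfold cc PP
      exact (((continuous_const.mul (continuous_finsetSum _ fun z _ => continuous_const.mul
        (ContinuousMap.continuous _))).mul (continuous_finsetSum _ fun z _ => continuous_const.mul
        (ContinuousMap.continuous _))).mul (continuous_finsetSum _ fun z _ => continuous_const.mul
        (ContinuousMap.continuous _))).norm.pow 2
    have hWd : 0 ≤ W (n + m) + δ := le_trans (by positivity) (hW (n + m) 0)
    calc ∫ θ : UnitAddCircle, ‖cc F H (n + m) θ * PP φ J θ *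
        ∑ z ∈ range (L + H + J), (F (n + z) : ℂ) * fourier (z : ℤ) θ‖ ^ 2
        ≤ ∫ θ : UnitAddCircle, (W (n + m) + δ) *
          ‖∑ z ∈ range (L + H + J), (F (n + z) : ℂ) * fourier (z : ℤ) θ‖ ^ 2 := by
          apply integral_mono (cont_int_r hc2) ((cont_int_r hc).const_mul _)
          intro θ
          simp only
          rw [norm_mul, norm_mul, mul_pow, mul_pow]
          exact mul_le_mul_of_nonneg_right (hW _ _) (by positivity)
      _ = (W (n + m) + δ) * ∫ θ : UnitAddCircle,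
          ‖∑ z ∈ range (L + H + J), (F (n + z) : ℂ) * fourier (z : ℤ) θ‖ ^ 2 := integral_const_mul _ _
      _ ≤ (W (n + m) + δ) * ((L : ℝ) + H + J) := by
          refine mul_le_mul_of_nonneg_left ((GZ F hF _ n).trans (le_of_eq ?_)) hWd
          push_cast
          ring
  calc (1 / (L : ℝ) ^ 2) * ∑ m ∈ range L, ∑ m' ∈ range L,
      ‖(1 / (H : ℂ)) * ∑ h ∈ range H, (F (n + m + h) : ℂ) * vv φ J F (n + m' + h)‖ ^ 2
      ≤ (1 / (L : ℝ) ^ 2) * ∑ m ∈ range L, (W (n + m) + δ) * ((L : ℝ) + H + J) :=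
        mul_le_mul_of_nonneg_left (sum_le_sum fun m _ => h1 m) (by positivity)
    _ = _ := by
        rw [← sum_mul]
        ring

end key2

end Pool.Agent.Helper47.Freq
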