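import Pool.Agent.Helper47.Freq.Pars

/-!
# Filters adapted to a closed set of frequencies (helper47)
-/

set_option autoImplicit false

namespace Pool.Agent.Helper47.Freq

open Finset MeasureTheory Metric
open scoped NNReal Topology

/-- trigonometric approximation -/
lemma trig_approx (g : UnitAddCircle → ℝ) (hg : Continuous g) (hg0 : ∀ θ, 0 ≤ g θ) (δ : ℝ) (hδ : 0 < δ) :
    ∃ (J : ℕ) (φ : ℕ → ℂ), ∀ θ, |‖PP φ J θ‖ - g θ| ≤ δ := by
  set G : C(UnitAddCircle, ℂ) := ⟨fun θ => (g θ : ℂ), Complex.continuous_ofReal.comp hg⟩ with hG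
  have h1 : G ∈ (Submodule.span ℂ (Set.range (@fourier 1))).topologicalClosure := by
    rw [span_fourier_closure_eq_top]
    trivial
  have h2 : G ∈ closure ((Submodule.span ℂ (Set.range (@fourier 1)) : Submodule ℂ C(UnitAddCircle, ℂ)) :
      Set C(UnitAddCircle, ℂ)) := h1
  rw [Metric.mem_closure_iff] at h2
  obtain ⟨p, hp, hpd⟩ := h2 δ hδ
  have hp' : p ∈ Submodule.span ℂ (Set.range (@fourier 1)) := hp
  rw [Finsupp.mem_span_range_iff_exists_finsupp] at hp'
  obtain ⟨c, hc⟩ := hp'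
  obtain ⟨J₀, hk⟩ : ∃ J₀ : ℕ, ∀ k ∈ c.support, k.natAbs ≤ J₀ := ⟨∑ k ∈ c.support, k.natAbs, fun k hk =>
    single_le_sum (f := fun k : ℤ => k.natAbs) (fun _ _ => Nat.zero_le _) hk⟩
  refine ⟨2 * J₀ + 1, fun j => c ((J₀ : ℤ) - j), fun θ => ?_⟩
  have e1 : PP (fun j => c ((J₀ : ℤ) - j)) (2 * J₀ + 1) θ = fourier (-(J₀ : ℤ)) θ * p θ := by
    have e2 : p θ = ∑ k ∈ c.support, c k * fourier k θ := by
      rw [← hc, Finsupp.sum]
      rw [ContinuousMap.coe_sum, Finset.sum_apply]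
      refine sum_congr rfl fun k _ => ?_
      simp
    have e3 : ∑ k ∈ c.support, c k * (fourier k θ : ℂ) =
        ∑ k ∈ (range (2 * J₀ + 1)).image (fun j : ℕ => (J₀ : ℤ) - j), c k * (fourier k θ : ℂ) := by
      apply sum_subset
      · intro k hk'
        have := hk k hk'
        rw [mem_image]
        exact ⟨((J₀ : ℤ) - k).toNat, by rw [mem_range]; omega, by omega⟩
      · intro k _ hk'
        rw [Finsupp.notMem_support_iff] at hk'
        rw [hk', zero_mul]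
    rw [e2, e3, sum_image (fun a _ b _ h => by
      have : (a : ℤ) = b := by simpa using h
      exact_mod_cast this), mul_sum]
    unfold PP
    apply sum_congr rfl
    intro j _
    rw [mul_left_comm, fmul]
    congr 3
    ring
  rw [e1, norm_mul, nf, one_mul]
  have h3 : ‖p θ - G θ‖ ≤ δ := by
    have h4 := ContinuousMap.norm_coe_le_norm (p - G) θ
    rw [dist_comm, dist_eq_norm] at hpd
    exact h4.trans hpd.le
  have h5 : ‖G θ‖ = g θ := by
    rw [hG]
    simp only [ContinuousMap.coe_mk]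
    rw [Complex.norm_real, Real.norm_of_nonneg (hg0 θ)]
  rw [← h5]
  exact (abs_norm_sub_norm_le _ _).trans h3

/-- the energy of the filter -/
lemma energy (φ : ℕ → ℂ) (J : ℕ) : ∑ j ∈ range J, ‖φ j‖ ^ 2 = ∫ θ : UnitAddCircle, ‖PP φ J θ‖ ^ 2 := by
  have h1 := parseval ((range J).image (fun z : ℕ => -(z : ℤ))) (fun x => φ (-x).toNat)
  have e1 : ∀ f : ℤ → ℂ, ∑ k ∈ (range J).image (fun z : ℕ => -(z : ℤ)), f k = ∑ z ∈ range J, f (-(z : ℤ)) := by
    intro f
    rw [sum_image]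
    intro a _ b _ h
    simpa using h
  have e2 : ∀ f : ℤ → ℝ, ∑ k ∈ (range J).image (fun z : ℕ => -(z : ℤ)), f k = ∑ z ∈ range J, f (-(z : ℤ)) := by
    intro f
    rw [sum_image]
    intro a _ b _ h
    simpa using h
  simp only [e1, e2, neg_neg, Int.toNat_natCast] at h1
  rw [← h1]
  rfl

lemma PP_cont (φ : ℕ → ℂ) (J : ℕ) : Continuous (PP φ J) := by
  unfold PP
  exact continuous_finsetSum _ fun z _ => continuous_const.mul (ContinuousMap.continuous _)

/-- a continuous function between the indicator functions -/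
lemma bump (E : Set UnitAddCircle) (η : ℝ) (hη : 0 < η) : ∃ g : UnitAddCircle → ℝ, Continuous g ∧
    (∀ θ, 0 ≤ g θ) ∧ (∀ θ, g θ ≤ 1) ∧ (∀ θ ∈ E, g θ = 1) ∧ (∀ θ, θ ∉ thickening η E → g θ = 0) := by
  refine ⟨fun θ => (thickenedIndicator hη E θ : ℝ), ?_, fun θ => NNReal.coe_nonneg _, fun θ => ?_, fun θ hθ => ?_,
    fun θ hθ => ?_⟩
  · exact NNReal.continuous_coe.comp (thickenedIndicator hη E).continuous
  · exact_mod_cast thickenedIndicator_le_one hη E θ
  · show ((thickenedIndicator hη E θ : ℝ≥0) : ℝ) = 1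
    rw [thickenedIndicator_one hη E hθ]
    rfl
  · show ((thickenedIndicator hη E θ : ℝ≥0) : ℝ) = 0
    rw [thickenedIndicator_zero hη E hθ]
    rfl

lemma thick_meas (E : Set UnitAddCircle) (hE : IsClosed E) (ε : ℝ) (hε : 0 < ε) :
    ∃ η : ℝ, 0 < η ∧ (volume (thickening η E)).toReal ≤ (volume E).toReal + ε := by
  have h1 : Filter.Tendsto (fun r => volume (thickening r E)) (𝓝[>] (0 : ℝ)) (𝓝 (volume E)) :=
    tendsto_measure_thickening_of_isClosed ⟨1, one_pos, measure_ne_top _ _⟩ hE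
  have h2 : Filter.Tendsto (fun r => (volume (thickening r E)).toReal) (𝓝[>] (0 : ℝ)) (𝓝 (volume E).toReal) :=
    (ENNReal.tendsto_toReal (measure_ne_top _ _)).comp h1
  have h3 := (h2.eventually_lt_const (show (volume E).toReal < (volume E).toReal + ε by linarith)).and
    self_mem_nhdsWithin
  obtain ⟨r, hr1, hr2⟩ := h3.exists
  exact ⟨r, hr2, hr1.le⟩

/-- filters which are large on a closed set and have small energy -/
theorem filt1 (E : Set UnitAddCircle) (hE : IsClosed E) (ε : ℝ) (hε : 0 < ε) :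
    ∃ (J : ℕ) (φ : ℕ → ℂ), (∀ θ ∈ E, 1 ≤ ‖PP φ J θ‖) ∧ ∑ j ∈ range J, ‖φ j‖ ^ 2 ≤ (volume E).toReal + ε := by
  obtain ⟨η, hη, h1⟩ := thick_meas E hE (ε / 4) (by positivity)
  obtain ⟨g, gc, g0, g1, gE, gO⟩ := bump E η hη
  set δ : ℝ := min 1 (ε / 16) with hδ
  have hδ0 : 0 < δ := lt_min one_pos (by positivity)
  have hδ1 : δ ≤ 1 := min_le_left _ _
  have hδ2 : δ ≤ ε / 16 := min_le_right _ _
  obtain ⟨J, φ, h2⟩ := trig_approx (fun θ => (1 + δ) * g θ) (continuous_const.mul gc)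
    (fun θ => mul_nonneg (by linarith) (g0 θ)) δ hδ0
  refine ⟨J, φ, fun θ hθ => ?_, ?_⟩
  · have := (abs_le.1 (h2 θ)).1
    rw [gE θ hθ] at this
    linarith
  · rw [energy]
    have h3 : ∀ θ, ‖PP φ J θ‖ ^ 2 ≤ (thickening η E).indicator (fun _ => (1 : ℝ)) θ + 9 * δ := by
      intro θ
      have h4 := (abs_le.1 (h2 θ)).2
      have h5 : ‖PP φ J θ‖ ≤ (1 + δ) * g θ + δ := by linarith
      by_cases hθ : θ ∈ thickening η E
      · rw [Set.indicator_of_mem hθ]
        have h6 : ‖PP φ J θ‖ ≤ 1 + 2 * δ := h5.trans (by nlinarith [g1 θ, g0 θ])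
        calc ‖PP φ J θ‖ ^ 2 ≤ (1 + 2 * δ) ^ 2 := pow_le_pow_left₀ (norm_nonneg _) h6 2
          _ ≤ 1 + 9 * δ := by nlinarith
      · rw [Set.indicator_of_notMem hθ]
        rw [gO θ hθ, mul_zero, zero_add] at h5
        calc ‖PP φ J θ‖ ^ 2 ≤ δ ^ 2 := pow_le_pow_left₀ (norm_nonneg _) h5 2
          _ ≤ 0 + 9 * δ := by nlinarith
    have hI : Integrable ((thickening η E).indicator (fun _ => (1 : ℝ))) (volume : Measure UnitAddCircle) :=
      (integrable_const 1).indicator isOpen_thickening.measurableSet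
    calc ∫ θ : UnitAddCircle, ‖PP φ J θ‖ ^ 2 ≤ ∫ θ : UnitAddCircle, ((thickening η E).indicator (fun _ => (1 : ℝ)) θ + 9 * δ) :=
          integral_mono (cont_int_r ((PP_cont φ J).norm.pow 2)) (hI.add (integrable_const _)) h3
      _ = (volume (thickening η E)).toReal + 9 * δ := by
          rw [integral_add hI (integrable_const _), integral_indicator isOpen_thickening.measurableSet]
          simp [Measure.real]
      _ ≤ (volume E).toReal + ε := by linarith

/-- filters which are small outside a closed set and have large energy -/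
theorem filt2 (E : Set UnitAddCircle) (hE : IsClosed E) (η : ℝ) (hη : 0 < η) (δ : ℝ) (hδ : 0 < δ) :
    ∃ (J : ℕ) (φ : ℕ → ℂ), (∀ θ ∈ thickening η E, ‖PP φ J θ‖ ^ 2 ≤ 1 + δ) ∧
      (∀ θ, θ ∉ thickening η E → ‖PP φ J θ‖ ^ 2 ≤ δ) ∧ (volume E).toReal - δ ≤ ∑ j ∈ range J, ‖φ j‖ ^ 2 := by
  obtain ⟨g, gc, g0, g1, gE, gO⟩ := bump E η hη
  set δ₁ : ℝ := min 1 (δ / 3) with hδ₁
  have hδ0 : 0 < δ₁ := lt_min one_pos (by positivity)
  have hδ1 : δ₁ ≤ 1 := min_le_left _ _
  have hδ2 : δ₁ ≤ δ / 3 := min_le_right _ _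
  obtain ⟨J, φ, h2⟩ := trig_approx g gc g0 δ₁ hδ0
  refine ⟨J, φ, fun θ hθ => ?_, fun θ hθ => ?_, ?_⟩
  · have h4 := (abs_le.1 (h2 θ)).2
    have h6 : ‖PP φ J θ‖ ≤ 1 + δ₁ := by linarith [g1 θ]
    calc ‖PP φ J θ‖ ^ 2 ≤ (1 + δ₁) ^ 2 := pow_le_pow_left₀ (norm_nonneg _) h6 2
      _ ≤ 1 + δ := by nlinarith
  · have h4 := (abs_le.1 (h2 θ)).2
    rw [gO θ hθ, sub_zero] at h4
    calc ‖PP φ J θ‖ ^ 2 ≤ δ₁ ^ 2 := pow_le_pow_left₀ (norm_nonneg _) h4 2
      _ ≤ δ := by nlinarith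
  · rw [energy]
    have h3 : ∀ θ, E.indicator (fun _ => (1 : ℝ)) θ - 2 * δ₁ ≤ ‖PP φ J θ‖ ^ 2 := by
      intro θ
      by_cases hθ : θ ∈ E
      · rw [Set.indicator_of_mem hθ]
        have h4 := (abs_le.1 (h2 θ)).1
        rw [gE θ hθ] at h4
        have h5 : 1 - δ₁ ≤ ‖PP φ J θ‖ := by linarith
        calc 1 - 2 * δ₁ ≤ (1 - δ₁) ^ 2 := by nlinarith
          _ ≤ ‖PP φ J θ‖ ^ 2 := pow_le_pow_left₀ (by linarith) h5 2
      · rw [Set.indicator_of_notMem hθ]
        have : 0 ≤ ‖PP φ J θ‖ ^ 2 := by positivity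
        linarith
    have hI : Integrable (E.indicator (fun _ => (1 : ℝ))) (volume : Measure UnitAddCircle) :=
      (integrable_const 1).indicator hE.measurableSet
    calc (volume E).toReal - δ ≤ (volume E).toReal - 2 * δ₁ := by linarith
      _ = ∫ θ : UnitAddCircle, (E.indicator (fun _ => (1 : ℝ)) θ - 2 * δ₁) := by
          rw [integral_sub hI (integrable_const _), integral_indicator hE.measurableSet]
          simp [Measure.real]
      _ ≤ ∫ θ : UnitAddCircle, ‖PP φ J θ‖ ^ 2 :=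
          integral_mono (hI.sub (integrable_const _)) (cont_int_r ((PP_cont φ J).norm.pow 2)) h3

end Pool.Agent.Helper47.Freq
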