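import Pool.Agent.Helper47.Freq.IM

/-!
# Sums over displaced parallelograms with sides of both signs (helper47)
-/

set_option autoImplicit false

namespace Pool.Agent.Helper47.Freq

open Finset

section quad

variable (μ : IM) (F : ℤ → ℝ) (hF : ∀ n, |F n| ≤ 1)
include hF

/-- all signs of the sides -/
lemma quad (hD : DispZ μ F) (Δ : ℤ) (hΔ : Δ ≠ 0) (ε : ℝ) (hε : 0 < ε) : ∃ A₀ : ℕ, ∀ A : ℕ, A₀ ≤ A →
    ∑ s ∈ range A, ∑ y ∈ range A, (GG μ F s y Δ + GG μ F (-s) y Δ + GG μ F s (-y) Δ + GG μ F (-s) (-y) Δ) ≤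
      ε * (A : ℝ) ^ 2 := by
  obtain ⟨A₁, h1⟩ := hD Δ hΔ (ε / 8) (by positivity)
  obtain ⟨A₂, h2⟩ := hD (-Δ) (neg_ne_zero.2 hΔ) (ε / 8) (by positivity)
  obtain ⟨A₃, h3⟩ := exists_nat_ge (8 * |(Δ : ℝ)| / ε)
  refine ⟨A₁ + A₂ + A₃, fun A hA => ?_⟩
  have g1 := h1 A (by omega)
  have g2 := h2 A (by omega)
  have hA3 : 8 * |(Δ : ℝ)| ≤ ε * A := by
    have : (A₃ : ℝ) ≤ A := by exact_mod_cast (by omega : A₃ ≤ A)
    have h4 := h3.trans this
    rw [div_le_iff₀ hε] at h4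
    linarith
  have hA0 : (0 : ℝ) ≤ A := Nat.cast_nonneg A
  have k2 : ∑ s ∈ range A, ∑ y ∈ range A, GG μ F (-s) y Δ ≤ ε / 8 * (A : ℝ) ^ 2 + A * |(Δ : ℝ)| := by
    calc ∑ s ∈ range A, ∑ y ∈ range A, GG μ F (-s) y Δ =
        ∑ s ∈ range A, ∑ y ∈ range A, GG μ F s (y + Δ) (-Δ) := by
          refine sum_congr rfl fun s _ => sum_congr rfl fun y _ => GG_neg1 μ F hF _ _ _
      _ ≤ ∑ s ∈ range A, (∑ y ∈ range A, GG μ F s y (-Δ) + |(Δ : ℝ)|) :=
          sum_le_sum fun s _ => sum_shift_le (fun y => GG μ F s y (-Δ)) (fun _ => GG_nonneg μ F _ _ _)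
            (fun _ => GG_le μ F hF _ _ _) A Δ
      _ ≤ ε / 8 * (A : ℝ) ^ 2 + A * |(Δ : ℝ)| := by
          rw [sum_add_distrib, sum_const, card_range, nsmul_eq_mul]
          exact add_le_add g2 le_rfl
  have k3 : ∑ s ∈ range A, ∑ y ∈ range A, GG μ F s (-y) Δ ≤ ε / 8 * (A : ℝ) ^ 2 + A * |(Δ : ℝ)| := by
    rw [sum_comm]
    calc ∑ y ∈ range A, ∑ s ∈ range A, GG μ F s (-y) Δ =
        ∑ y ∈ range A, ∑ s ∈ range A, GG μ F (s + Δ) y (-Δ) := by
          refine sum_congr rfl fun s _ => sum_congr rfl fun y _ => GG_neg2 μ F hF _ _ _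
      _ ≤ ∑ y ∈ range A, (∑ s ∈ range A, GG μ F s y (-Δ) + |(Δ : ℝ)|) :=
          sum_le_sum fun y _ => sum_shift_le (fun s => GG μ F s y (-Δ)) (fun _ => GG_nonneg μ F _ _ _)
            (fun _ => GG_le μ F hF _ _ _) A Δ
      _ ≤ ε / 8 * (A : ℝ) ^ 2 + A * |(Δ : ℝ)| := by
          rw [sum_add_distrib, sum_const, card_range, nsmul_eq_mul, sum_comm]
          exact add_le_add g2 le_rfl
  have k4 : ∑ s ∈ range A, ∑ y ∈ range A, GG μ F (-s) (-y) Δ ≤ ε / 8 * (A : ℝ) ^ 2 + 2 * (A * |(Δ : ℝ)|) := by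
    calc ∑ s ∈ range A, ∑ y ∈ range A, GG μ F (-s) (-y) Δ =
        ∑ s ∈ range A, ∑ y ∈ range A, GG μ F (s - Δ) (y + -Δ) Δ := by
          refine sum_congr rfl fun s _ => sum_congr rfl fun y _ => GG_neg12 μ F hF _ _ _
      _ ≤ ∑ s ∈ range A, (∑ y ∈ range A, GG μ F (s - Δ) y Δ + |((-Δ : ℤ) : ℝ)|) :=
          sum_le_sum fun s _ => sum_shift_le (fun y => GG μ F (s - Δ) y Δ) (fun _ => GG_nonneg μ F _ _ _)
            (fun _ => GG_le μ F hF _ _ _) A (-Δ)
      _ = ∑ y ∈ range A, ∑ s ∈ range A, GG μ F (s + -Δ) y Δ + A * |(Δ : ℝ)| := by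
          rw [sum_add_distrib, sum_const, card_range, nsmul_eq_mul, sum_comm, Int.cast_neg, abs_neg]
          rfl
      _ ≤ ∑ y ∈ range A, (∑ s ∈ range A, GG μ F s y Δ + |((-Δ : ℤ) : ℝ)|) + A * |(Δ : ℝ)| :=
          add_le_add (sum_le_sum fun y _ => sum_shift_le (fun s => GG μ F s y Δ) (fun _ => GG_nonneg μ F _ _ _)
            (fun _ => GG_le μ F hF _ _ _) A (-Δ)) le_rfl
      _ ≤ ε / 8 * (A : ℝ) ^ 2 + 2 * (A * |(Δ : ℝ)|) := by
          rw [sum_add_distrib, sum_const, card_range, nsmul_eq_mul, sum_comm, Int.cast_neg, abs_neg]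
          linarith
  simp only [sum_add_distrib]
  nlinarith

omit hF in
/-- sums over pairs -/
lemma pair_sum (g : ℤ → ℝ) (h0 : ∀ x, 0 ≤ g x) (L A : ℕ) (j : ℤ) (hA : (L : ℤ) + |j| ≤ A) :
    ∑ m ∈ range L, ∑ m' ∈ range L, g (m' - m + j) ≤ L * ∑ i ∈ range A, (g i + g (-i)) := by
  have h1 : ∀ m ∈ range L, ∑ m' ∈ range L, g (m' - m + j) ≤ ∑ i ∈ range A, (g i + g (-i)) := by
    intro m hm
    rw [mem_range] at hm
    have e1 : ∑ m' ∈ range L, g (m' - m + j) = ∑ x ∈ (range L).image (fun m' : ℕ => (m' : ℤ) - m + j), g x := by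
      rw [sum_image]
      intro a _ b _ h
      have : (a : ℤ) = b := by linarith
      exact_mod_cast this
    have e2 : ∑ x ∈ Ioo (-(A : ℤ)) A, g x ≤ ∑ i ∈ range A, (g i + g (-i)) := by
      rw [sum_add_distrib]
      have e3 : ∑ i ∈ range A, g i = ∑ x ∈ (range A).image (fun i : ℕ => (i : ℤ)), g x := by
        rw [sum_image]
        intro a _ b _ h
        simpa using h
      have e4 : ∑ i ∈ range A, g (-i) = ∑ x ∈ (range A).image (fun i : ℕ => -(i : ℤ)), g x := by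
        rw [sum_image]
        intro a _ b _ h
        simpa using h
      rw [e3, e4]
      refine le_trans ?_ (sum_union_inter (s₁ := (range A).image (fun i : ℕ => (i : ℤ)))
        (s₂ := (range A).image (fun i : ℕ => -(i : ℤ))) (f := g)).le
      refine le_trans ?_ (le_add_of_nonneg_right (sum_nonneg fun x _ => h0 x))
      apply sum_le_sum_of_subset_of_nonneg
      · intro x hx
        rw [mem_Ioo] at hx
        rw [mem_union, mem_image, mem_image]
        rcases le_total 0 x with h | h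
        · exact Or.inl ⟨x.toNat, by rw [mem_range]; omega, by omega⟩
        · exact Or.inr ⟨(-x).toNat, by rw [mem_range]; omega, by omega⟩
      · intro x _ _
        exact h0 x
    rw [e1]
    refine le_trans ?_ e2
    apply sum_le_sum_of_subset_of_nonneg
    · intro x hx
      rw [mem_image] at hx
      obtain ⟨m', hm', rfl⟩ := hx
      rw [mem_range] at hm'
      rw [mem_Ioo]
      have := abs_le.1 (le_refl |j|)
      constructor <;> omega
    · intro x _ _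
      exact h0 x
  refine (sum_le_sum h1).trans ?_
  rw [sum_const, card_range, nsmul_eq_mul]

/-- all the parallelograms in a window, the displacements are different -/
lemma T_bound (hD : DispZ μ F) (j j' : ℤ) (hj : j ≠ j') (ε : ℝ) (hε : 0 < ε) : ∃ A₀ : ℕ, ∀ A L H : ℕ, A₀ ≤ A →
    (L : ℤ) + |j| ≤ A → H ≤ A →
    ∑ m ∈ range L, ∑ m' ∈ range L, ∑ h ∈ range H, ∑ h' ∈ range H,
      |μ.m (X4 F (m + h) (m + h') (m' + h + j) (m' + h' + j'))| ≤ L * H * (ε * (A : ℝ) ^ 2) := by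
  obtain ⟨A₀, h0⟩ := quad μ F hF hD (j' - j) (sub_ne_zero.2 (Ne.symm hj)) ε hε
  refine ⟨A₀, fun A L H hA hL hH => ?_⟩
  have h1 := h0 A hA
  have e1 : ∀ m m' h h' : ℕ, |μ.m (X4 F (m + h) (m + h') (m' + h + j) (m' + h' + j'))| =
      GG μ F (h' - h + 0) (m' - m + j) (j' - j) := by
    intro m m' h h'
    rw [← GG_base μ F hF (m + h)]
    congr 3
    · ring
    · ring
    · ring
  simp only [e1]
  calc ∑ m ∈ range L, ∑ m' ∈ range L, ∑ h ∈ range H, ∑ h' ∈ range H, GG μ F (h' - h + 0) (m' - m + j) (j' - j)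
      ≤ ∑ m ∈ range L, ∑ m' ∈ range L, (H * ∑ i ∈ range A, (GG μ F i (m' - m + j) (j' - j) +
        GG μ F (-i) (m' - m + j) (j' - j))) := by
        refine sum_le_sum fun m _ => sum_le_sum fun m' _ => ?_
        exact pair_sum (fun x => GG μ F x (m' - m + j) (j' - j)) (fun _ => GG_nonneg μ F _ _ _) H A 0
          (by rw [abs_zero]; omega)
    _ = H * ∑ i ∈ range A, ∑ m ∈ range L, ∑ m' ∈ range L, (fun x : ℤ => GG μ F i x (j' - j) +
        GG μ F (-i) x (j' - j)) (m' - m + j) := by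
        simp only [← mul_sum]
        congr 1
        rw [sum_comm]
        rw [show (∑ i ∈ range A, ∑ m ∈ range L, ∑ m' ∈ range L, (GG μ F i (m' - m + j) (j' - j) +
          GG μ F (-i) (m' - m + j) (j' - j))) = ∑ m ∈ range L, ∑ i ∈ range A, ∑ m' ∈ range L,
            (GG μ F i (m' - m + j) (j' - j) + GG μ F (-i) (m' - m + j) (j' - j)) from sum_comm]
        rw [sum_comm]
        refine sum_congr rfl fun m _ => ?_
        rw [sum_comm]
    _ ≤ H * ∑ i ∈ range A, (L * ∑ y ∈ range A, ((GG μ F i y (j' - j) + GG μ F (-i) y (j' - j)) +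
        (GG μ F i (-y) (j' - j) + GG μ F (-i) (-y) (j' - j)))) := by
        refine mul_le_mul_of_nonneg_left (sum_le_sum fun i _ => ?_) (Nat.cast_nonneg H)
        exact pair_sum (fun x : ℤ => GG μ F i x (j' - j) + GG μ F (-i) x (j' - j))
          (fun _ => add_nonneg (GG_nonneg μ F _ _ _) (GG_nonneg μ F _ _ _)) L A j hL
    _ = L * H * ∑ s ∈ range A, ∑ y ∈ range A, (GG μ F s y (j' - j) + GG μ F (-s) y (j' - j) +
        GG μ F s (-y) (j' - j) + GG μ F (-s) (-y) (j' - j)) := by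
        rw [← mul_sum, ← mul_assoc, mul_comm (H : ℝ)]
        congr 1
        refine sum_congr rfl fun i _ => sum_congr rfl fun y _ => ?_
        ring
    _ ≤ L * H * (ε * (A : ℝ) ^ 2) := mul_le_mul_of_nonneg_left h1 (by positivity)

end quad

end Pool.Agent.Helper47.Freq
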