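import Pool.Agent.Helper47.Freq.Tor
import Pool.Agent.Y956.CK.Inst

/-!
# The frequencies of the Möbius function in short intervals: statements and proofs

`p1`: the linear bound; `p2`: one set of frequencies controls all frequencies; `p3`: the bound for tori and rotations
in a set with null closures; `p4`: the zero-one law.
-/

set_option autoImplicit false

open Finset MeasureTheory

namespace Pool.Agent.Helper47.Freq

/-- `f` is the Möbius function and `κ = 6/π²`, or `f` is the Liouville function and `κ = 1`. -/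
def IsMoebiusOrLiouville (f : ℕ → ℤ) (κ : ℝ) : Prop :=
  ((∀ n, f n = ArithmeticFunction.moebius n) ∧ κ = 6 / Real.pi ^ 2) ∨
    ((∀ n, f n = (-1) ^ ArithmeticFunction.cardFactors n) ∧ κ = 1)

/-- The supremum of `|(1/H) ∑_{1 ≤ h ≤ H} f(n + h) e(α (n + h))|` over all frequencies `α` in `E`. -/
noncomputable def expSup (f : ℕ → ℤ) (E : Set UnitAddCircle) (n H : ℕ) : ℝ :=
  ⨆ α : E, ‖∑ h ∈ Icc 1 H, ((f (n + h) : ℤ) : ℂ) * fourier ((n : ℤ) + h) (α : UnitAddCircle)‖ / H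

/-- The supremum of `|∑_{1 ≤ h ≤ H} G(x + (n + h) g) f(n + h)|` over all rotations `g` in `E` and all starting points
`x` of the torus `ℝ^d/ℤ^d`. -/
noncomputable def torusSup {d : ℕ} (f : ℕ → ℤ) (E : Set (Fin d → UnitAddCircle)) (G : C(Fin d → UnitAddCircle, ℂ))
    (n H : ℕ) : ℝ :=
  ⨆ p : E × (Fin d → UnitAddCircle), ‖∑ h ∈ Icc 1 H, G (p.2 + (h + n) • (p.1 : Fin d → UnitAddCircle)) *
    ((f (n + h) : ℤ) : ℂ)‖

/-- the value `k · g` of the integral linear form `k` -/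
def form {d : ℕ} (k : Fin d → ℤ) (g : Fin d → UnitAddCircle) : UnitAddCircle := ∑ i, k i • g i


/-- real values -/
noncomputable def rl (f : ℕ → ℤ) (n : ℕ) : ℝ := ((f n : ℤ) : ℝ)

lemma expSup_eq (f : ℕ → ℤ) (E : Set UnitAddCircle) (n H : ℕ) (hH : 1 ≤ H) :
    expSup f E n H = SS (ext (rl f)) E H ((n : ℤ) + 1) := by
  have hH0 : (0 : ℝ) < H := by exact_mod_cast hH
  unfold expSup SS
  congr 1
  funext α
  have h1 := icc_cc (rl f) n H α
  rw [div_eq_iff hH0.ne', mul_comm, ← h1]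
  congr 1

lemma torusSup_eq {d : ℕ} (f : ℕ → ℤ) (E : Set (Fin d → UnitAddCircle)) (G : C(Fin d → UnitAddCircle, ℂ))
    (n H : ℕ) : torusSup f E G n H = tSup (rl f) E G n H := by
  unfold torusSup tSup rl
  simp only [Complex.ofReal_intCast]

/-- the data of the two functions -/
lemma data {f : ℕ → ℤ} {κ : ℝ} (hf : IsMoebiusOrLiouville f κ) :
    (∀ n, |rl f n| ≤ 1) ∧ LS (rl f) ∧ DispAll (rl f) ∧ 0 ≤ κ ∧ κ ≤ 1 ∧ UD (ext (rl f)) κ := by
  have key : ∀ F : ℕ → ℤ, Pool.Agent.Y956.CB.Mu F →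
      Pool.Agent.TH823.MRS.ExpoSmall (fun n => ((F n : ℤ) : ℂ)) →
      (∀ n, |rl F n| ≤ 1) ∧ LS (rl F) ∧ DispAll (rl F) := by
    intro F hF hE
    have hb : ∀ n, |rl F n| ≤ 1 := fun n => Pool.Agent.Y956.CB.R1 hF n
    refine ⟨hb, ls_of_expo (fun n => by have := hb n; unfold rl at this; exact_mod_cast this) hE, fun U hU => ?_⟩
    exact disp_Z (Pool.Agent.Y956.CM.lmLM U hU) F hF hE
  have hpi := Real.pi_pos
  rcases hf with ⟨h1, h2⟩ | ⟨h1, h2⟩
  · obtain rfl : f = fun n => ArithmeticFunction.moebius n := funext h1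
    obtain ⟨a1, a2, a3⟩ := key _ Pool.Agent.Y956.CB.mu_mob Pool.Agent.Y956.CB.expo_mob
    refine ⟨a1, a2, a3, by rw [h2]; positivity, ?_, by rw [h2]; exact ud_mob⟩
    rw [h2, div_le_one (by positivity)]
    have := Real.pi_gt_three
    nlinarith
  · obtain rfl : f = fun n => (-1) ^ ArithmeticFunction.cardFactors n := funext h1
    obtain ⟨a1, a2, a3⟩ := key _ Pool.Agent.Y956.CB.mu_lam Pool.Agent.Y956.CB.expo_lam
    exact ⟨a1, a2, a3, by rw [h2]; norm_num, by rw [h2], by rw [h2]; exact ud_one a1⟩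

open Pool.Agent.TH833.BL in
theorem all_parts (f : ℕ → ℤ) (κ : ℝ) (hf : IsMoebiusOrLiouville f κ) :
    (∀ (E : Set UnitAddCircle) (ε : ℝ), 0 < ε → ∃ H₀ : ℕ, ∀ N H : ℕ, H₀ ≤ H → H ≤ N →
      ∑ n ∈ Icc 1 N, (1 / (n : ℝ)) * expSup f E n H ^ 4 ≤
        (κ ^ 3 * (volume (closure E)).toReal + ε) * Real.log N) ∧
    (∀ (E : Set UnitAddCircle) (K : ℕ), 1 ≤ K → ∀ ε : ℝ, 0 < ε → ∃ H₀ : ℕ, ∀ N H : ℕ, H₀ ≤ H → H ≤ N →
      (volume (closure E)).toReal * ∑ n ∈ Icc 1 N, (1 / (n : ℝ)) * expSup f Set.univ n H ^ 4 ≤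
        ∑ n ∈ Icc 1 N, (1 / (n : ℝ)) * expSup f E n K ^ 2 + ε * Real.log N) ∧
    (∀ (d : ℕ) (E : Set (Fin d → UnitAddCircle)), (∀ k : Fin d → ℤ, k ≠ 0 → volume (closure (form k '' E)) = 0) →
      ∀ (G : C(Fin d → UnitAddCircle, ℂ)) (ε : ℝ), 0 < ε → ∃ H₀ : ℕ, ∀ N H : ℕ, H₀ ≤ H → H ≤ N →
        ∑ n ∈ Icc 1 N, (1 / (n : ℝ)) * torusSup f E G n H ≤ ε * H * Real.log N) ∧
    (∀ E : Set UnitAddCircle, volume (closure E) ≠ 0 →
      (∀ ε : ℝ, 0 < ε → ∃ K N₀ : ℕ, 1 ≤ K ∧ ∀ N : ℕ, N₀ ≤ N →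
        ∑ n ∈ Icc 1 N, (1 / (n : ℝ)) * expSup f E n K ≤ ε * Real.log N) →
      ∀ (d : ℕ) (G : C(Fin d → UnitAddCircle, ℂ)) (ε : ℝ), 0 < ε → ∃ H₀ : ℕ, ∀ N H : ℕ, H₀ ≤ H → H ≤ N →
        ∑ n ∈ Icc 1 N, (1 / (n : ℝ)) * torusSup f Set.univ G n H ≤ ε * H * Real.log N) := by
  obtain ⟨hb, hLS, hD, hκ0, hκ1, hκ⟩ := data hf
  have hF := ext_le hb
  -- windows of a fixed shift
  have hsum : ∀ (E : Set UnitAddCircle) (H p N : ℕ), 1 ≤ H →
      ∑ n ∈ Icc 1 N, (1 / (n : ℝ)) * expSup f E n H ^ p = S (fun n => SS (ext (rl f)) E H ((n : ℤ) + 1) ^ p) N := by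
    intro E H p N hH
    unfold S
    refine sum_congr rfl fun n _ => ?_
    rw [expSup_eq f E n H hH]
  have hlogbig : ∀ ε : ℝ, 0 < ε → ∃ M : ℕ, ∀ N : ℕ, M ≤ N → 3 ≤ ε * Real.log N := by
    intro ε hε
    obtain ⟨M, hM⟩ := exists_nat_ge (Real.exp (3 / ε))
    refine ⟨M + 1, fun N hN => ?_⟩
    have hN0 : (0 : ℝ) < N := by exact_mod_cast (by omega : 0 < N)
    have h1 : 3 / ε ≤ Real.log N := by
      rw [Real.le_log_iff_exp_le hN0]
      exact hM.trans (by exact_mod_cast (by omega : M ≤ N))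
    rw [div_le_iff₀ hε] at h1
    linarith
  have p1 : ∀ (E : Set UnitAddCircle) (ε : ℝ), 0 < ε → ∃ H₀ : ℕ, ∀ N H : ℕ, H₀ ≤ H → H ≤ N →
      ∑ n ∈ Icc 1 N, (1 / (n : ℝ)) * expSup f E n H ^ 4 ≤
        (κ ^ 3 * (volume (closure E)).toReal + ε) * Real.log N := by
    intro E ε hε
    obtain ⟨H₁, h1⟩ := fin1 hb hLS hD κ hκ0 hκ1 hκ (closure E) isClosed_closure (ε / 2) (by positivity)
    obtain ⟨M, hM⟩ := hlogbig (ε / 2) (by positivity)
    refine ⟨H₁ + M + 1, fun N H hH hN => ?_⟩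
    rw [hsum E H 4 N (by omega)]
    have h2 := h1 N H (by omega) hN
    simp only [SS_closure hF] at h2
    have h3 := (abs_le.1 (S_shift hb E H 4 N)).2
    have h4 := hM N (by omega)
    nlinarith
  have p2 : ∀ (E : Set UnitAddCircle) (K : ℕ), 1 ≤ K → ∀ ε : ℝ, 0 < ε → ∃ H₀ : ℕ, ∀ N H : ℕ, H₀ ≤ H → H ≤ N →
      (volume (closure E)).toReal * ∑ n ∈ Icc 1 N, (1 / (n : ℝ)) * expSup f Set.univ n H ^ 4 ≤
        ∑ n ∈ Icc 1 N, (1 / (n : ℝ)) * expSup f E n K ^ 2 + ε * Real.log N := by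
    intro E K hK ε hε
    obtain ⟨H₁, h1⟩ := fin2 hb hLS hD (closure E) isClosed_closure.measurableSet K hK (ε / 2) (by positivity)
    obtain ⟨M, hM⟩ := hlogbig (ε / 4) (by positivity)
    refine ⟨H₁ + M + 1, fun N H hH hN => ?_⟩
    rw [hsum Set.univ H 4 N (by omega), hsum E K 2 N hK]
    have h2 := h1 N H (by omega) hN
    simp only [SS_closure hF] at h2
    have h3 := (abs_le.1 (S_shift hb Set.univ H 4 N)).2
    have h3' := (abs_le.1 (S_shift hb E K 2 N)).1
    have h4 := hM N (by omega)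
    have hv := vol_le_one (closure E)
    have hv0 : 0 ≤ (volume (closure E)).toReal := ENNReal.toReal_nonneg
    have h5 := mul_le_mul_of_nonneg_left h3 hv0
    nlinarith
  refine ⟨p1, p2, ?_, ?_⟩
  · intro d E hE G ε hε
    have hU : ∀ k : Fin d → ℤ, ∀ ε : ℝ, 0 < ε → ∃ H₀ : ℕ, ∀ N H : ℕ, H₀ ≤ H → H ≤ N →
        S (fun n => SS (ext (rl f)) (frq k '' E) H ((n : ℤ) + 1)) N ≤ ε * Real.log N := by
      intro k
      have hnull : volume (closure (frq k '' E)) = 0 := by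
        by_cases hk : k = 0
        · subst hk
          have hsub : frq (0 : Fin d → ℤ) '' E ⊆ {0} := by
            rintro _ ⟨g, _, rfl⟩
            unfold frq
            simp
          refine measure_mono_null (closure_mono hsub) ?_
          rw [closure_singleton]
          have h0 : (volume : Measure UnitAddCircle) {0} = 0 := by
            have h1 := AddCircle.volume_closedBall (T := 1) (x := (0 : UnitAddCircle)) 0
            rw [Metric.closedBall_zero] at h1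
            rw [h1]
            simp
          exact h0
        · exact hE k hk
      apply l1_of_l4 hb
      intro ε' hε'
      obtain ⟨H₁, h1⟩ := fin1 hb hLS hD κ hκ0 hκ1 hκ (closure (frq k '' E)) isClosed_closure ε' hε'
      refine ⟨H₁, fun N H hH hN => ?_⟩
      have h2 := h1 N H hH hN
      simp only [SS_closure hF] at h2
      rwa [hnull, ENNReal.toReal_zero, mul_zero, zero_add] at h2
    obtain ⟨H₁, h1⟩ := tor hb E hU G ε hε
    refine ⟨H₁, fun N H hH hN => ?_⟩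
    simp only [torusSup_eq]
    exact h1 N H hH hN
  · intro E hE hyp d G ε hε
    have hv : 0 < (volume (closure E)).toReal := ENNReal.toReal_pos hE (measure_ne_top _ _)
    have hall : ∀ ε : ℝ, 0 < ε → ∃ H₀ : ℕ, ∀ N H : ℕ, H₀ ≤ H → H ≤ N →
        S (fun n => SS (ext (rl f)) Set.univ H n ^ 4) N ≤ ε * Real.log N := by
      intro ε' hε'
      set δ : ℝ := (volume (closure E)).toReal * ε' / 4 with hδ
      have hδ0 : 0 < δ := by positivity
      obtain ⟨K, N₀, hK, hyp1⟩ := hyp δ hδ0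
      obtain ⟨H₁, h1⟩ := fin2 hb hLS hD (closure E) isClosed_closure.measurableSet K hK δ hδ0
      obtain ⟨M, hM⟩ := hlogbig δ hδ0
      refine ⟨H₁ + N₀ + M, fun N H hH hN => ?_⟩
      have h2 := h1 N H (by omega) hN
      simp only [SS_closure hF] at h2
      have h3 := (abs_le.1 (S_shift hb E K 2 N)).1
      have h4 := hM N (by omega)
      have h5 := hyp1 N (by omega)
      have h6 : S (fun n => SS (ext (rl f)) E K ((n : ℤ) + 1) ^ 2) N ≤ δ * Real.log N := by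
        refine le_trans ?_ h5
        have e := hsum E K 1 N hK
        simp only [pow_one] at e
        rw [e]
        apply S_smul_le
        intro n
        have a0 := SS_nonneg (ext (rl f)) E K ((n : ℤ) + 1)
        have a1 := SS_le_one (ext (rl f)) hF E K ((n : ℤ) + 1)
        nlinarith
      have h7 : (volume (closure E)).toReal * S (fun n => SS (ext (rl f)) Set.univ H n ^ 4) N ≤
          (volume (closure E)).toReal * (ε' * Real.log N) := by
        have e : (volume (closure E)).toReal * (ε' * Real.log N) = 4 * (δ * Real.log N) := by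
          rw [hδ]
          ring
        rw [e]
        have : 0 ≤ δ * Real.log N := by
          have : 0 ≤ Real.log N := Real.log_natCast_nonneg N
          positivity
        linarith
      exact le_of_mul_le_mul_left h7 hv
    have hU : ∀ k : Fin d → ℤ, ∀ ε : ℝ, 0 < ε → ∃ H₀ : ℕ, ∀ N H : ℕ, H₀ ≤ H → H ≤ N →
        S (fun n => SS (ext (rl f)) (frq k '' (Set.univ : Set (Fin d → UnitAddCircle))) H ((n : ℤ) + 1)) N ≤
          ε * Real.log N := by
      intro k ε' hε'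
      obtain ⟨H₁, h1⟩ := l1_of_l4 hb Set.univ hall ε' hε'
      refine ⟨H₁, fun N H hH hN => le_trans (S_smul_le (fun n => ?_) N) (h1 N H hH hN)⟩
      exact SS_mono _ hF (Set.subset_univ _) _ _
    obtain ⟨H₁, h1⟩ := tor hb Set.univ hU G ε hε
    refine ⟨H₁, fun N H hH hN => ?_⟩
    simp only [torusSup_eq]
    exact h1 N H hH hN

end Pool.Agent.Helper47.Freq
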