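import Pool.Agent.Helper47.Freq.Fin
import Pool.Agent.Helper47.Freq.Dens

/-!
# Rotations of tori (helper47)
-/

set_option autoImplicit false

namespace Pool.Agent.Helper47.Freq

open Finset Filter MeasureTheory
open scoped ComplexConjugate
open Pool.Agent.TH833.BL (S)

lemma icc_cc (f : ℕ → ℝ) (n H : ℕ) (α : UnitAddCircle) :
    ‖∑ h ∈ Icc 1 H, (f (n + h) : ℂ) * fourier ((n : ℤ) + h) α‖ = H * ‖cc (ext f) H ((n : ℤ) + 1) α‖ := by
  rcases Nat.eq_zero_or_pos H with rfl | hH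
  · simp
  have hH0 : (0 : ℝ) < H := by exact_mod_cast hH
  have hHc : (H : ℂ) ≠ 0 := by exact_mod_cast hH0.ne'
  have e1 : ∑ h ∈ Icc 1 H, (f (n + h) : ℂ) * fourier ((n : ℤ) + h) α =
      fourier ((n : ℤ) + 1) α * ((H : ℂ) * conj (cc (ext f) H ((n : ℤ) + 1) α)) := by
    unfold cc
    rw [map_mul, map_sum, ← mul_assoc (H : ℂ)]
    have e2 : (H : ℂ) * conj (1 / (H : ℂ)) = 1 := by
      simp [hHc]
    rw [e2, one_mul, mul_sum]
    have e3 : ∑ h ∈ Icc 1 H, (f (n + h) : ℂ) * fourier ((n : ℤ) + h) α =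
        ∑ h ∈ range H, (f (n + (h + 1)) : ℂ) * fourier ((n : ℤ) + ((h + 1 : ℕ) : ℤ)) α := by
      rw [range_eq_Ico, sum_Ico_add' (fun h : ℕ => (f (n + h) : ℂ) * fourier ((n : ℤ) + h) α) 0 H 1]
      rfl
    rw [e3]
    refine sum_congr rfl fun m _ => ?_
    rw [map_mul, Complex.conj_ofReal, ← fourier_neg, neg_neg, mul_left_comm, fmul,
      ext_cast f _ (n + (m + 1)) (by push_cast; ring)]
    congr 3
    push_cast
    ring
  rw [e1, norm_mul, nf, one_mul, norm_mul, Complex.norm_natCast, Complex.norm_conj]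

/-- the supremum over the closure -/
lemma SS_closure {F : ℤ → ℝ} (hF : ∀ n, |F n| ≤ 1) (E : Set UnitAddCircle) (L : ℕ) (n : ℤ) :
    SS F (closure E) L n = SS F E L n := by
  apply le_antisymm
  · apply SS_le _ _ _ _ (SS_nonneg _ _ _ _)
    intro θ hθ
    have hc : Continuous (fun θ : UnitAddCircle => ‖cc F L n θ‖) := by
      unfold cc
      exact (continuous_const.mul (continuous_finsetSum _ fun z _ => continuous_const.mul
        (ContinuousMap.continuous _))).norm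
    have h1 : IsClosed {θ : UnitAddCircle | ‖cc F L n θ‖ ≤ SS F E L n} := isClosed_le hc continuous_const
    have h2 : E ⊆ {θ : UnitAddCircle | ‖cc F L n θ‖ ≤ SS F E L n} := fun θ hθ => le_SS F hF E L n hθ
    exact closure_minimal h2 h1 hθ
  · exact SS_mono F hF subset_closure L n

section l1

variable {f : ℕ → ℝ} (hf : ∀ n, |f n| ≤ 1)
include hf

omit hf in
lemma S_smul_le {φ ψ : ℕ → ℝ} (h : ∀ n, φ n ≤ ψ n) (N : ℕ) : S φ N ≤ S ψ N := by
  unfold S
  exact sum_le_sum fun n _ => mul_le_mul_of_nonneg_left (h n) (by positivity)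

lemma S_shift (E : Set UnitAddCircle) (H p N : ℕ) :
    |S (fun n => SS (ext f) E H ((n : ℤ) + 1) ^ p) N - S (fun n => SS (ext f) E H n ^ p) N| ≤ 3 := by
  have h1 := Pool.Agent.TH833.BL.shift_diff (φ := fun n : ℕ => SS (ext f) E H n ^ p) (C := 1) (fun n => by
    rw [abs_of_nonneg (pow_nonneg (SS_nonneg _ _ _ _) p)]
    exact pow_le_one₀ (SS_nonneg _ _ _ _) (SS_le_one _ (ext_le hf) _ _ _)) N
  rw [mul_one] at h1
  simpa using h1

/-- from fourth powers to first powers -/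
lemma l1_of_l4 (E : Set UnitAddCircle)
    (h : ∀ ε : ℝ, 0 < ε → ∃ H₀ : ℕ, ∀ N H : ℕ, H₀ ≤ H → H ≤ N →
      S (fun n => SS (ext f) E H n ^ 4) N ≤ ε * Real.log N) (ε : ℝ) (hε : 0 < ε) :
    ∃ H₀ : ℕ, ∀ N H : ℕ, H₀ ≤ H → H ≤ N → S (fun n => SS (ext f) E H ((n : ℤ) + 1)) N ≤ ε * Real.log N := by
  set δ : ℝ := ε / 8 with hδ
  have hδ0 : 0 < δ := by positivity
  obtain ⟨H₀, h0⟩ := h (δ ^ 3 * (ε / 8)) (by positivity)
  obtain ⟨M, hM⟩ := exists_nat_ge (Real.exp (8 / ε + 1))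
  refine ⟨H₀ + M + 1, fun N H hH hN => ?_⟩
  have hN0 : (0 : ℝ) < N := by exact_mod_cast (by omega : 0 < N)
  have hlog : 8 / ε + 1 ≤ Real.log N := by
    rw [Real.le_log_iff_exp_le hN0]
    exact hM.trans (by exact_mod_cast (by omega : M ≤ N))
  have hlog1 : 1 ≤ Real.log N := by
    have : 0 < 8 / ε := by positivity
    linarith
  have hlog2 : 8 ≤ ε * Real.log N := by
    have := mul_le_mul_of_nonneg_left hlog hε.le
    have e : ε * (8 / ε + 1) = 8 + ε := by field_simp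
    linarith
  have h1 := h0 N H (by omega) hN
  have h2 := (abs_le.1 (S_shift hf E H 1 N)).2
  simp only [pow_one] at h2
  have h3 : S (fun n : ℕ => SS (ext f) E H n) N ≤ δ * (1 + Real.log N) + ε / 8 * Real.log N := by
    have h4 : ∀ n : ℕ, SS (ext f) E H n ≤ δ * 1 + (1 / δ ^ 3) * SS (ext f) E H n ^ 4 := by
      intro n
      set x := SS (ext f) E H n with hx
      have hx0 : 0 ≤ x := SS_nonneg _ _ _ _
      rcases le_total x δ with h5 | h5
      · have : 0 ≤ (1 / δ ^ 3) * x ^ 4 := by positivity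
        linarith
      · have h6 : x ≤ (1 / δ ^ 3) * x ^ 4 := by
          rw [one_div, ← div_eq_inv_mul, le_div_iff₀ (by positivity)]
          calc x * δ ^ 3 ≤ x * x ^ 3 := mul_le_mul_of_nonneg_left (pow_le_pow_left₀ hδ0.le h5 3) hx0
            _ = x ^ 4 := by ring
        linarith
    have h5 := S_smul_le h4 N
    have e1 : S (fun n : ℕ => δ * 1 + (1 / δ ^ 3) * SS (ext f) E H n ^ 4) N =
        δ * S (fun _ => 1) N + (1 / δ ^ 3) * S (fun n => SS (ext f) E H n ^ 4) N := by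
      rw [Pool.Agent.TH833.BL.S_add, Pool.Agent.TH833.BL.S_smul, Pool.Agent.TH833.BL.S_smul]
    rw [e1] at h5
    have h6 : S (fun _ => (1 : ℝ)) N ≤ 1 + Real.log N := S_le_log (fun _ => le_rfl) N
    have h7 : (1 / δ ^ 3) * S (fun n => SS (ext f) E H n ^ 4) N ≤ (1 / δ ^ 3) * (δ ^ 3 * (ε / 8) * Real.log N) :=
      mul_le_mul_of_nonneg_left h1 (by positivity)
    have e2 : (1 / δ ^ 3) * (δ ^ 3 * (ε / 8) * Real.log N) = ε / 8 * Real.log N := by
      field_simp
    have h8 := mul_le_mul_of_nonneg_left h6 hδ0.le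
    linarith
  have e3 : δ * (1 + Real.log N) ≤ ε / 8 * (2 * Real.log N) := by
    rw [hδ]
    exact mul_le_mul_of_nonneg_left (by linarith) (by positivity)
  linarith

end l1

/-! ## Tori -/

/-- the value of an integral linear form -/
def frq {d : ℕ} (k : Fin d → ℤ) (g : Fin d → UnitAddCircle) : UnitAddCircle := ∑ i, k i • g i

/-- the supremum over all rotations in a set and all starting points -/
noncomputable def tSup {d : ℕ} (f : ℕ → ℝ) (E : Set (Fin d → UnitAddCircle)) (G : C(Fin d → UnitAddCircle, ℂ))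
    (n H : ℕ) : ℝ :=
  ⨆ p : E × (Fin d → UnitAddCircle), ‖∑ h ∈ Icc 1 H, G (p.2 + (h + n) • (p.1 : Fin d → UnitAddCircle)) * (f (n + h) : ℂ)‖

lemma fourier_sum {d : ℕ} (m : ℤ) (s : Finset (Fin d)) (x : Fin d → UnitAddCircle) :
    (fourier m (∑ i ∈ s, x i) : ℂ) = ∏ i ∈ s, (fourier m (x i) : ℂ) := by
  classical
  induction s using Finset.induction_on with
  | empty => simp
  | insert i s hi ih =>
    rw [sum_insert hi, prod_insert hi, ← ih]
    simp only [fourier_apply, smul_add, AddCircle.toCircle_add, Circle.coe_mul]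

lemma mf_rot {d : ℕ} (k : Fin d → ℤ) (x g : Fin d → UnitAddCircle) (m : ℕ) :
    UnitAddTorus.mFourier k (x + m • g) = UnitAddTorus.mFourier k x * fourier (m : ℤ) (frq k g) := by
  unfold frq
  rw [fourier_sum]
  simp only [UnitAddTorus.mFourier, ContinuousMap.coe_mk]
  rw [← prod_mul_distrib]
  refine prod_congr rfl fun i _ => ?_
  simp only [fourier_apply, Pi.add_apply, Pi.smul_apply, smul_add, AddCircle.toCircle_add, Circle.coe_mul]
  congr 3
  rw [← natCast_zsmul, smul_comm]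

/-- from characters to continuous functions on tori -/
theorem tor {f : ℕ → ℝ} (hf : ∀ n, |f n| ≤ 1) {d : ℕ} (E : Set (Fin d → UnitAddCircle))
    (hU : ∀ k : Fin d → ℤ, ∀ ε : ℝ, 0 < ε → ∃ H₀ : ℕ, ∀ N H : ℕ, H₀ ≤ H → H ≤ N →
      S (fun n => SS (ext f) (frq k '' E) H ((n : ℤ) + 1)) N ≤ ε * Real.log N)
    (G : C(Fin d → UnitAddCircle, ℂ)) (ε : ℝ) (hε : 0 < ε) :
    ∃ H₀ : ℕ, ∀ N H : ℕ, H₀ ≤ H → H ≤ N → S (fun n => tSup f E G n H) N ≤ ε * H * Real.log N := by
  have hF := ext_le hf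
  set δ : ℝ := ε / 4 with hδ
  have hδ0 : 0 < δ := by positivity
  have h1 : G ∈ (Submodule.span ℂ (Set.range (UnitAddTorus.mFourier (d := Fin d)))).topologicalClosure := by
    rw [UnitAddTorus.span_mFourier_closure_eq_top]
    trivial
  have h2 : G ∈ closure ((Submodule.span ℂ (Set.range (UnitAddTorus.mFourier (d := Fin d))) :
      Submodule ℂ C(UnitAddTorus (Fin d), ℂ)) : Set C(UnitAddTorus (Fin d), ℂ)) := h1
  rw [Metric.mem_closure_iff] at h2
  obtain ⟨p, hp, hpd⟩ := h2 δ hδ0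
  have hp' : p ∈ Submodule.span ℂ (Set.range (UnitAddTorus.mFourier (d := Fin d))) := hp
  rw [Finsupp.mem_span_range_iff_exists_finsupp] at hp'
  obtain ⟨c, hc⟩ := hp'
  obtain ⟨s, hs⟩ : ∃ s : Finset (Fin d → ℤ), s = c.support := ⟨_, rfl⟩
  set A : ℝ := ∑ k ∈ s, ‖c k‖ with hA
  have hA0 : 0 ≤ A := sum_nonneg fun _ _ => norm_nonneg _
  choose! H₀ h0 using fun k : Fin d → ℤ => hU k (ε / (4 * (A + 1))) (by positivity)
  refine ⟨∑ k ∈ s, H₀ k + 3, fun N H hH hN => ?_⟩
  have hH0 : (0 : ℝ) < H := by exact_mod_cast (by omega : 0 < H)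
  have hlog1 : 1 ≤ Real.log N := Pool.Agent.TH833.BL.one_le_log (by omega : 3 ≤ N)
  have hpe : ∀ x, p x = ∑ k ∈ s, c k * UnitAddTorus.mFourier k x := by
    intro x
    rw [← hc, Finsupp.sum, hs, ContinuousMap.coe_sum, Finset.sum_apply]
    refine sum_congr rfl fun k _ => ?_
    simp
  have hpt : ∀ n : ℕ, tSup f E G n H ≤ δ * H * 1 + H * ∑ k ∈ s, ‖c k‖ * SS (ext f) (frq k '' E) H ((n : ℤ) + 1) := by
    intro n
    have hnn : 0 ≤ H * ∑ k ∈ s, ‖c k‖ * SS (ext f) (frq k '' E) H ((n : ℤ) + 1) :=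
      mul_nonneg hH0.le (sum_nonneg fun k _ => mul_nonneg (norm_nonneg _) (SS_nonneg _ _ _ _))
    refine Real.iSup_le (fun q => ?_) (by positivity)
    obtain ⟨⟨g, hg⟩, x⟩ := q
    simp only
    have e1 : ∑ h ∈ Icc 1 H, G (x + (h + n) • g) * (f (n + h) : ℂ) =
        ∑ h ∈ Icc 1 H, (G (x + (h + n) • g) - p (x + (h + n) • g)) * (f (n + h) : ℂ) +
        ∑ k ∈ s, c k * UnitAddTorus.mFourier k x * ∑ h ∈ Icc 1 H, (f (n + h) : ℂ) * fourier ((n : ℤ) + h) (frq k g) := by
      have e2 : ∑ k ∈ s, c k * UnitAddTorus.mFourier k x * ∑ h ∈ Icc 1 H, (f (n + h) : ℂ) * fourier ((n : ℤ) + h) (frq k g) =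
          ∑ h ∈ Icc 1 H, p (x + (h + n) • g) * (f (n + h) : ℂ) := by
        simp only [mul_sum]
        rw [sum_comm]
        refine sum_congr rfl fun h _ => ?_
        rw [hpe, sum_mul]
        refine sum_congr rfl fun k _ => ?_
        rw [mf_rot, show (((h + n : ℕ) : ℤ)) = (n : ℤ) + h by push_cast; ring]
        ring
      rw [e2, ← sum_add_distrib]
      refine sum_congr rfl fun h _ => ?_
      ring
    rw [e1]
    refine (norm_add_le _ _).trans (add_le_add ?_ ?_)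
    · refine (norm_sum_le _ _).trans ((sum_le_sum (g := fun _ => δ) fun h _ => ?_).trans ?_)
      · rw [norm_mul, Complex.norm_real]
        have h3 : ‖G (x + (h + n) • g) - p (x + (h + n) • g)‖ ≤ δ := by
          have h4 := ContinuousMap.norm_coe_le_norm (G - p) (x + (h + n) • g)
          rw [dist_eq_norm] at hpd
          exact h4.trans hpd.le
        calc ‖G (x + (h + n) • g) - p (x + (h + n) • g)‖ * ‖f (n + h)‖ ≤ δ * 1 :=
              mul_le_mul h3 (hf _) (norm_nonneg _) hδ0.le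
          _ = δ := mul_one _
      · rw [sum_const, Nat.card_Icc, nsmul_eq_mul, Nat.add_sub_cancel, mul_one]
        exact le_of_eq (mul_comm _ _)
    · refine (norm_sum_le _ _).trans ?_
      rw [mul_sum]
      refine sum_le_sum fun k _ => ?_
      have e3 : ‖UnitAddTorus.mFourier k x‖ ≤ 1 := by
        have := (UnitAddTorus.mFourier k).norm_coe_le_norm x
        rwa [UnitAddTorus.mFourier_norm] at this
      rw [norm_mul, norm_mul, icc_cc]
      have e4 : ‖cc (ext f) H ((n : ℤ) + 1) (frq k g)‖ ≤ SS (ext f) (frq k '' E) H ((n : ℤ) + 1) :=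
        le_SS _ hF _ _ _ (Set.mem_image_of_mem _ hg)
      calc ‖c k‖ * ‖UnitAddTorus.mFourier k x‖ * (H * ‖cc (ext f) H ((n : ℤ) + 1) (frq k g)‖) ≤
          ‖c k‖ * 1 * (H * SS (ext f) (frq k '' E) H ((n : ℤ) + 1)) := by gcongr
        _ = H * (‖c k‖ * SS (ext f) (frq k '' E) H ((n : ℤ) + 1)) := by ring
  have h3 := S_smul_le hpt N
  have e5 : S (fun n : ℕ => δ * H * 1 + H * ∑ k ∈ s, ‖c k‖ * SS (ext f) (frq k '' E) H ((n : ℤ) + 1)) N =
      δ * H * S (fun _ => 1) N + H * ∑ k ∈ s, ‖c k‖ * S (fun n => SS (ext f) (frq k '' E) H ((n : ℤ) + 1)) N := by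
    rw [Pool.Agent.TH833.BL.S_add, Pool.Agent.TH833.BL.S_smul, Pool.Agent.TH833.BL.S_smul]
    congr 2
    unfold S
    simp only [mul_sum]
    rw [sum_comm]
    refine sum_congr rfl fun k _ => sum_congr rfl fun n _ => ?_
    ring
  rw [e5] at h3
  have h4 : S (fun _ => (1 : ℝ)) N ≤ 1 + Real.log N := S_le_log (fun _ => le_rfl) N
  have h5 : ∑ k ∈ s, ‖c k‖ * S (fun n => SS (ext f) (frq k '' E) H ((n : ℤ) + 1)) N ≤ ε / 4 * Real.log N := by
    have h6 : ∀ k ∈ s, ‖c k‖ * S (fun n => SS (ext f) (frq k '' E) H ((n : ℤ) + 1)) N ≤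
        ‖c k‖ * (ε / (4 * (A + 1)) * Real.log N) := by
      intro k hk
      refine mul_le_mul_of_nonneg_left (h0 k N H ?_ hN) (norm_nonneg _)
      have := single_le_sum (f := H₀) (fun _ _ => Nat.zero_le _) hk
      omega
    refine (sum_le_sum h6).trans ?_
    rw [← sum_mul, ← hA]
    have e6 : A * (ε / (4 * (A + 1)) * Real.log N) = (A / (A + 1)) * (ε / 4 * Real.log N) := by
      field_simp
    rw [e6]
    have h7 : A / (A + 1) ≤ 1 := by
      rw [div_le_one (by positivity)]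
      linarith
    have h8 : 0 ≤ ε / 4 * Real.log N := by positivity
    nlinarith
  have h6 : δ * H * S (fun _ => (1 : ℝ)) N ≤ δ * H * (2 * Real.log N) :=
    mul_le_mul_of_nonneg_left (by linarith) (by positivity)
  have h7 : (H : ℝ) * ∑ k ∈ s, ‖c k‖ * S (fun n => SS (ext f) (frq k '' E) H ((n : ℤ) + 1)) N ≤ H * (ε / 4 * Real.log N) :=
    mul_le_mul_of_nonneg_left h5 hH0.le
  have h8 : 0 ≤ ε * H * Real.log N := by positivity
  calc S (fun n => tSup f E G n H) N ≤ _ := h3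
    _ ≤ δ * H * (2 * Real.log N) + H * (ε / 4 * Real.log N) := add_le_add h6 h7
    _ ≤ ε * H * Real.log N := by
        rw [hδ]
        nlinarith

end Pool.Agent.Helper47.Freq
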